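import Pool.Agent.P.MP_0a88e3_nt.PL.Defs

/-! Two coprime moduli whose reduced residues are biased towards the start. -/

namespace Pool.Agent.P.MP_0a88e3_nt.PL

open Finset

namespace BiasP

/-- primes in `(n, 2n]` -/
def PS (n : ℕ) : Finset ℕ := (Ioc n (2 * n)).filter Nat.Prime

theorem cb_le (n : ℕ) (hn : 2 < n) :
    n.centralBinom ≤
      (2 * n) ^ Nat.sqrt (2 * n) * 4 ^ (2 * n / 3) * (2 * n) ^ (PS n).card := by
  have n2 : 1 ≤ 2 * n := by omega
  rw [← Nat.prod_pow_factorization_centralBinom n]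
  have key : ∀ p ∈ range (2 * n + 1), p ^ n.centralBinom.factorization p ≤
      (if p ∈ Icc 1 (Nat.sqrt (2 * n)) then 2 * n else 1) *
      (if p ∈ (range (2 * n / 3 + 1)).filter Nat.Prime then p else 1) *
      (if p ∈ PS n then 2 * n else 1) := by
    intro p hp
    have hp2 : p ≤ 2 * n := by have := mem_range.1 hp; omega
    by_cases hpp : p.Prime
    swap
    · rw [Nat.factorization_eq_zero_of_not_prime _ hpp, pow_zero]
      have h2 : p ∉ (range (2 * n / 3 + 1)).filter Nat.Prime := fun h => hpp (mem_filter.1 h).2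
      rw [if_neg h2]
      split_ifs <;> nlinarith
    have p1 := hpp.one_lt
    have hle : p ^ n.centralBinom.factorization p ≤ 2 * n :=
      Nat.pow_factorization_choose_le (by omega)
    have a1 : 1 ≤ (if p ∈ Icc 1 (Nat.sqrt (2 * n)) then 2 * n else 1) := by
      split_ifs <;> omega
    have a2 : 1 ≤ (if p ∈ (range (2 * n / 3 + 1)).filter Nat.Prime then p else 1) := by
      split_ifs <;> omega
    have a3 : 1 ≤ (if p ∈ PS n then 2 * n else 1) := by
      split_ifs <;> omega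
    by_cases c1 : p ≤ Nat.sqrt (2 * n)
    · rw [if_pos (mem_Icc.2 ⟨p1.le, c1⟩)]
      exact hle.trans ((Nat.le_mul_of_pos_right _ a2).trans (Nat.le_mul_of_pos_right _ a3))
    by_cases c2 : p ≤ 2 * n / 3
    · rw [if_pos (mem_filter.2 ⟨mem_range.2 (by omega), hpp⟩ :
        p ∈ (range (2 * n / 3 + 1)).filter Nat.Prime)]
      have h1 : n.centralBinom.factorization p ≤ 1 :=
        Nat.factorization_choose_le_one (Nat.sqrt_lt'.mp (not_le.1 c1))
      have h2 : p ^ n.centralBinom.factorization p ≤ p :=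
        (pow_right_mono₀ p1.le h1).trans (pow_one p).le
      exact h2.trans ((Nat.le_mul_of_pos_left _ a1).trans (Nat.le_mul_of_pos_right _ a3))
    by_cases c3 : p ≤ n
    · rw [Nat.factorization_centralBinom_of_two_mul_self_lt_three_mul hn c3 (by omega), pow_zero]
      exact Nat.mul_pos (Nat.mul_pos a1 a2) a3
    · have hm : p ∈ PS n := mem_filter.2 ⟨mem_Ioc.2 ⟨by omega, hp2⟩, hpp⟩
      rw [if_pos hm]
      exact hle.trans (Nat.le_mul_of_pos_left _ (Nat.mul_pos a1 a2))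
  refine (prod_le_prod' key).trans ?_
  rw [prod_mul_distrib, prod_mul_distrib, prod_ite_mem, prod_ite_mem, prod_ite_mem]
  refine Nat.mul_le_mul (Nat.mul_le_mul ?_ ?_) ?_
  · rw [prod_const]
    refine pow_right_mono₀ n2 ((card_le_card inter_subset_right).trans ?_)
    simp
  · refine le_trans ?_ (primorial_le_four_pow (2 * n / 3))
    exact prod_le_prod_of_subset_of_one_le' inter_subset_right
      fun p hp _ => (mem_filter.1 hp).2.one_lt.le
  · rw [prod_const]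
    exact pow_right_mono₀ n2 (card_le_card inter_subset_right)

theorem ps_ge (n : ℕ) (hn : 4 ≤ n) :
    2 * n ≤ 3 * ((Nat.log 2 (2 * n) + 1) * (Nat.sqrt (2 * n) + 1 + (PS n).card)) := by
  have h1 := Nat.four_pow_lt_mul_centralBinom n hn
  have h2 := cb_le n (by omega)
  have h3 : 2 * n < 2 ^ (Nat.log 2 (2 * n) + 1) := Nat.lt_pow_succ_log_self (by norm_num) _
  set L := Nat.log 2 (2 * n) + 1
  set a := Nat.sqrt (2 * n)
  set s := (PS n).card
  have h4 : 4 ^ n ≤ 4 ^ (2 * n / 3) * (2 * n) ^ (a + 1 + s) := by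
    calc 4 ^ n ≤ n * ((2 * n) ^ a * 4 ^ (2 * n / 3) * (2 * n) ^ s) :=
          h1.le.trans (Nat.mul_le_mul_left _ h2)
      _ ≤ (2 * n) * ((2 * n) ^ a * 4 ^ (2 * n / 3) * (2 * n) ^ s) :=
          Nat.mul_le_mul_right _ (by omega)
      _ = _ := by ring
  have h5 : (2 * n) ^ (a + 1 + s) ≤ 2 ^ (L * (a + 1 + s)) := by
    rw [pow_mul]; exact Nat.pow_le_pow_left h3.le _
  have h6 : 2 ^ (2 * n) ≤ 2 ^ (2 * (2 * n / 3) + L * (a + 1 + s)) := by
    rw [pow_add, pow_mul, pow_mul 2 2 (2 * n / 3)]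
    exact h4.trans (Nat.mul_le_mul_left _ h5)
  have h7 := (Nat.pow_le_pow_iff_right (by norm_num : 1 < 2)).1 h6
  omega

theorem ev_log (C j : ℕ) : ∃ n₀ : ℕ, ∀ n, n₀ ≤ n → C * (Nat.log 2 (2 * n) + 1) ^ j ≤ n := by
  have ht := tendsto_pow_const_div_const_pow_of_one_lt j (by norm_num : (1 : ℝ) < 2)
  have hpos : (0 : ℝ) < 1 / (4 * C + 1) := by positivity
  obtain ⟨m₀, hm⟩ := Filter.eventually_atTop.1 (ht.eventually (gt_mem_nhds hpos))
  refine ⟨2 ^ m₀, fun n hn => ?_⟩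
  have hn1 : 1 ≤ n := (Nat.one_le_two_pow).trans hn
  have h1 : m₀ ≤ Nat.log 2 (2 * n) := Nat.le_log_of_pow_le (by norm_num) (by omega)
  have h2 : 2 ^ Nat.log 2 (2 * n) ≤ 2 * n := Nat.pow_log_le_self 2 (by omega)
  set m := Nat.log 2 (2 * n)
  have h3 := hm (m + 1) (by omega)
  rw [div_lt_div_iff₀ (by positivity) (by positivity)] at h3
  have h4 : (m + 1) ^ j * (4 * C + 1) < 1 * 2 ^ (m + 1) := by exact_mod_cast h3
  rw [pow_succ 2 m] at h4
  nlinarith [Nat.zero_le ((m + 1) ^ j)]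

theorem ev_N (k : ℕ) (hk : 1 ≤ k) : ∃ n₀ : ℕ, ∀ n, n₀ ≤ n → ∃ N : ℕ, 2 * N ≤ (PS n).card ∧
    k + 1 ≤ N ∧ N ≤ n ∧ (1 + 2 ^ k * k) * n ^ (k - 1) ≤ N.choose k := by
  obtain ⟨n₁, h₁⟩ := ev_log 72 2
  obtain ⟨n₂, h₂⟩ := ev_log (3 * (4 * k + 2)) 1
  obtain ⟨n₃, h₃⟩ := ev_log ((1 + 2 ^ k * k) * (k.factorial * 18 ^ k)) k
  refine ⟨max 4 (max n₁ (max n₂ n₃)), fun n hn => ?_⟩
  have hn4 : 4 ≤ n := (le_max_left _ _).trans hn
  have a₁ := h₁ n (by omega)
  have a₂ := h₂ n (by omega)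
  have a₃ := h₃ n (by omega)
  have b := ps_ge n hn4
  have hs : (PS n).card ≤ n := (card_filter_le _ _).trans (by simp; omega)
  set L := Nat.log 2 (2 * n) + 1 with hL
  have L1 : 1 ≤ L := by omega
  have q1 : Nat.sqrt (2 * n) * Nat.sqrt (2 * n) ≤ 2 * n := Nat.sqrt_le _
  have q2 : 1 ≤ Nat.sqrt (2 * n) := Nat.le_sqrt.2 (by omega)
  set a := Nat.sqrt (2 * n)
  set s := (PS n).card
  have c1 : 3 * (L * (a + 1)) ≤ n := by
    refine (Nat.pow_le_pow_iff_left (n := 2) (by norm_num)).1 ?_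
    have : (a + 1) ^ 2 ≤ 8 * n := by nlinarith
    calc (3 * (L * (a + 1))) ^ 2 = 9 * L ^ 2 * (a + 1) ^ 2 := by ring
      _ ≤ 9 * L ^ 2 * (8 * n) := Nat.mul_le_mul_left _ this
      _ = (72 * L ^ 2) * n := by ring
      _ ≤ n * n := Nat.mul_le_mul_right _ a₁
      _ = n ^ 2 := by ring
  have c2 : n ≤ 3 * (L * s) := by
    have : L * (a + 1 + s) = L * (a + 1) + L * s := by ring
    omega
  have c3 : 4 * k + 2 ≤ s := by
    rw [pow_one] at a₂
    by_contra h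
    have : L * s < L * (4 * k + 2) := Nat.mul_lt_mul_of_pos_left (by omega) L1
    nlinarith
  refine ⟨s / 2, by omega, by omega, by omega, ?_⟩
  set N := s / 2
  have d1 : n ≤ 18 * L * (N + 1 - k) := by
    have : s ≤ 6 * (N + 1 - k) := by omega
    calc n ≤ 3 * (L * s) := c2
      _ ≤ 3 * (L * (6 * (N + 1 - k))) := Nat.mul_le_mul_left _ (Nat.mul_le_mul_left _ this)
      _ = _ := by ring
  have d2 : (N + 1 - k) ^ k ≤ k.factorial * N.choose k := by
    rw [← Nat.descFactorial_eq_factorial_mul_choose]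
    exact Nat.pow_sub_le_descFactorial N k
  have d3 : n ^ k ≤ (k.factorial * 18 ^ k * L ^ k) * N.choose k := by
    calc n ^ k ≤ (18 * L * (N + 1 - k)) ^ k := Nat.pow_le_pow_left d1 _
      _ = 18 ^ k * L ^ k * (N + 1 - k) ^ k := by rw [mul_pow, mul_pow]
      _ ≤ 18 ^ k * L ^ k * (k.factorial * N.choose k) := Nat.mul_le_mul_left _ d2
      _ = _ := by ring
  have d4 : n ^ k = n * n ^ (k - 1) := by
    rw [← pow_succ']; congr 1; omega
  have d5 : 0 < k.factorial * 18 ^ k * L ^ k := by positivity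
  refine Nat.le_of_mul_le_mul_left ?_ d5
  calc k.factorial * 18 ^ k * L ^ k * ((1 + 2 ^ k * k) * n ^ (k - 1))
      = ((1 + 2 ^ k * k) * (k.factorial * 18 ^ k) * L ^ k) * n ^ (k - 1) := by ring
    _ ≤ n * n ^ (k - 1) := Nat.mul_le_mul_right _ a₃
    _ ≤ _ := d4 ▸ d3

theorem ind_eq (P : Finset ℕ) (hP : ∀ p ∈ P, p.Prime) (t : ℕ) :
    (if Nat.Coprime t (∏ p ∈ P, p) then (1 : ℤ) else 0) =
      ∑ T ∈ P.powerset, (-1) ^ T.card * (if (∏ p ∈ T, p) ∣ t then (1 : ℤ) else 0) := by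
  have h1 : (if Nat.Coprime t (∏ p ∈ P, p) then (1 : ℤ) else 0) =
      ∏ p ∈ P, (1 + (-1) * (if p ∣ t then (1 : ℤ) else 0)) := by
    split_ifs with h
    · refine (prod_eq_one fun p hp => ?_).symm
      have : ¬ p ∣ t := (Nat.Prime.coprime_iff_not_dvd (hP p hp)).1
        (Nat.Coprime.coprime_dvd_right (dvd_prod_of_mem _ hp) h).symm
      simp [this]
    · rw [Nat.coprime_prod_right_iff] at h
      push Not at h
      obtain ⟨p, hp, h⟩ := h
      refine (prod_eq_zero hp ?_).symm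
      have : p ∣ t := by
        by_contra hd
        exact h ((Nat.Prime.coprime_iff_not_dvd (hP p hp)).2 hd).symm
      simp [this]
  rw [h1, prod_one_add]
  refine sum_congr rfl fun T hT => ?_
  have hT' : ∀ p ∈ T, p.Prime := fun p hp => hP p (mem_powerset.1 hT hp)
  rw [prod_mul_distrib, prod_const]
  congr 1
  split_ifs with h
  · exact prod_eq_one fun p hp => if_pos ((dvd_prod_of_mem _ hp).trans h)
  · have : ∃ p ∈ T, ¬ p ∣ t := by
      by_contra hc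
      push Not at hc
      exact h (prod_primes_dvd t (fun p hp => (hT' p hp).prime) hc)
    obtain ⟨p, hp, hd⟩ := this
    exact prod_eq_zero hp (if_neg hd)

theorem nc_eq (P : Finset ℕ) (hP : ∀ p ∈ P, p.Prime) (V : ℕ) :
    (NC (∏ p ∈ P, p) V : ℤ) =
      ∑ T ∈ P.powerset, (-1) ^ T.card * ((V / ∏ p ∈ T, p : ℕ) : ℤ) := by
  unfold NC
  rw [← sum_boole, sum_congr rfl fun t _ => ind_eq P hP t, sum_comm]
  refine sum_congr rfl fun T _ => ?_
  have e : Icc 1 V = Ioc 0 V := rfl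
  rw [← mul_sum, sum_boole, e, Nat.Ioc_filter_dvd_card_eq_div]

theorem card_small (P : Finset ℕ) (k : ℕ) (h1 : 1 ≤ P.card) :
    (P.powerset.filter fun T => T.card < k).card ≤ k * P.card ^ (k - 1) := by
  have h : (P.powerset.filter fun T => T.card < k) ⊆
      (range k).biUnion fun j => powersetCard j P := by
    intro T hT
    obtain ⟨a, b⟩ := mem_filter.1 hT
    exact mem_biUnion.2 ⟨T.card, mem_range.2 b, mem_powersetCard.2 ⟨mem_powerset.1 a, rfl⟩⟩
  refine (card_le_card h).trans (card_biUnion_le.trans ?_)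
  refine (sum_le_card_nsmul _ _ (P.card ^ (k - 1)) fun j hj => ?_).trans (by simp)
  rw [card_powersetCard]
  exact (Nat.choose_le_pow _ _).trans
    (pow_right_mono₀ h1 (by have := mem_range.1 hj; omega))

theorem big {Z k j : ℕ} (hZ : 2 ^ k ≤ Z) (hj : k < j) : (2 * Z) ^ k < (Z + 1) ^ j := by
  calc (2 * Z) ^ k = 2 ^ k * Z ^ k := mul_pow _ _ _
    _ ≤ Z * (Z + 1) ^ k := Nat.mul_le_mul hZ (Nat.pow_le_pow_left (by omega) _)
    _ < (Z + 1) * (Z + 1) ^ k := Nat.mul_lt_mul_of_pos_right (by omega) (by positivity)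
    _ = (Z + 1) ^ (k + 1) := by ring
    _ ≤ _ := pow_right_mono₀ (by omega) hj

theorem biased {k Z : ℕ} (hk : Odd k) (hZ : 2 ^ k ≤ Z) (P : Finset ℕ) (hP : P ⊆ PS Z)
    (h1 : k + 1 ≤ P.card) (h2 : P.card ≤ Z)
    (h3 : (1 + 2 ^ k * k) * Z ^ (k - 1) ≤ P.card.choose k) : Biased k Z (∏ p ∈ P, p) := by
  have hpr : ∀ p ∈ P, p.Prime := fun p hp => (mem_filter.1 (hP hp)).2
  have hlo : ∀ T ⊆ P, (Z + 1) ^ T.card ≤ ∏ p ∈ T, p := fun T hT =>
    pow_card_le_prod _ _ _ fun p hp => (mem_Ioc.1 (mem_filter.1 (hP (hT hp))).1).1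
  have hhi : ∀ T ⊆ P, ∏ p ∈ T, p ≤ (2 * Z) ^ T.card := fun T hT =>
    prod_le_pow_card _ _ _ fun p hp => (mem_Ioc.1 (mem_filter.1 (hP (hT hp))).1).2
  have k1 : 1 ≤ k := hk.pos
  refine ⟨fun p hp hd => ?_, (big hZ (by omega)).le.trans (hlo P Subset.rfl), ?_⟩
  · obtain ⟨q, hq, hpq⟩ := (Prime.dvd_finsetProd_iff hp.prime _).1 hd
    exact (Nat.le_of_dvd (hpr q hq).pos hpq).trans (mem_Ioc.1 (mem_filter.1 (hP hq)).1).2
  have key : ∀ T ∈ P.powerset,
      (if T.card = k then (1 : ℤ) else 0) - 2 ^ k * (if T.card < k then (1 : ℤ) else 0) ≤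
      2 ^ k * ((-1) ^ T.card * ((Z ^ k / ∏ p ∈ T, p : ℕ) : ℤ)) -
        (-1) ^ T.card * (((2 * Z) ^ k / ∏ p ∈ T, p : ℕ) : ℤ) := by
    intro T hT
    have l := hlo T (mem_powerset.1 hT)
    have u := hhi T (mem_powerset.1 hT)
    have dpos : 0 < ∏ p ∈ T, p := lt_of_lt_of_le (by positivity) l
    set d := ∏ p ∈ T, p
    rcases lt_trichotomy T.card k with c | c | c
    · rw [if_neg c.ne, if_pos c, mul_pow]
      have e1 : 2 ^ k * (Z ^ k / d) ≤ 2 ^ k * Z ^ k / d := Nat.mul_div_le_mul_div_assoc _ _ _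
      have e2 : 2 ^ k * Z ^ k / d ≤ 2 ^ k * (Z ^ k / d) + 2 ^ k := by
        refine (Nat.div_le_div_right (c := d) (b := 2 ^ k * ((Z ^ k / d + 1) * d)) ?_).trans ?_
        · refine Nat.mul_le_mul_left _ ?_
          have := Nat.lt_div_mul_add (a := Z ^ k) dpos
          nlinarith
        · rw [← mul_assoc, Nat.mul_div_cancel _ dpos, mul_add, mul_one]
      have f1 : (2 : ℤ) ^ k * ((Z ^ k / d : ℕ) : ℤ) ≤ ((2 ^ k * Z ^ k / d : ℕ) : ℤ) := by
        exact_mod_cast e1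
      have f2 : ((2 ^ k * Z ^ k / d : ℕ) : ℤ) ≤ (2 : ℤ) ^ k * ((Z ^ k / d : ℕ) : ℤ) + 2 ^ k := by
        exact_mod_cast e2
      have f3 : (0 : ℤ) < 2 ^ k := by positivity
      rcases neg_one_pow_eq_or ℤ T.card with s | s <;> rw [s] <;> linarith
    · rw [if_pos c, if_neg (by omega), c, hk.neg_one_pow]
      rw [c] at l u
      have e1 : Z ^ k / d = 0 := Nat.div_eq_of_lt
        (lt_of_lt_of_le (Nat.pow_lt_pow_left (by omega) (by omega)) l)
      have e2 : 1 ≤ (2 * Z) ^ k / d := (Nat.one_le_div_iff dpos).2 u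
      have f2 : (1 : ℤ) ≤ (((2 * Z) ^ k / d : ℕ) : ℤ) := by exact_mod_cast e2
      rw [e1]
      simp only [Nat.cast_zero]
      linarith
    · rw [if_neg c.ne', if_neg (by omega)]
      have b := lt_of_lt_of_le (big hZ c) l
      have e1 : Z ^ k / d = 0 := Nat.div_eq_of_lt
        (lt_of_le_of_lt (Nat.pow_le_pow_left (by omega) _) b)
      rw [e1, Nat.div_eq_of_lt b]
      simp
  have hs := sum_le_sum key
  rw [sum_sub_distrib, sum_sub_distrib, ← mul_sum, ← mul_sum, ← nc_eq P hpr, ← nc_eq P hpr,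
    sum_boole, sum_boole, ← powersetCard_eq_filter, card_powersetCard] at hs
  have c1 := (card_small P k (by omega)).trans
    (Nat.mul_le_mul_left k (Nat.pow_le_pow_left h2 (k - 1)))
  have c2 : (((P.powerset.filter fun T => T.card < k).card : ℕ) : ℤ) ≤ k * (Z : ℤ) ^ (k - 1) := by
    exact_mod_cast c1
  have c3 : (1 + 2 ^ k * (k : ℤ)) * (Z : ℤ) ^ (k - 1) ≤ (P.card.choose k : ℤ) := by
    exact_mod_cast h3
  have c4 : (0 : ℤ) < 2 ^ k := by positivity
  have c5 := mul_le_mul_of_nonneg_left c2 c4.le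
  have : (NC (∏ p ∈ P, p) ((2 * Z) ^ k) : ℤ) + (Z : ℤ) ^ (k - 1) ≤
      2 ^ k * (NC (∏ p ∈ P, p) (Z ^ k) : ℤ) := by linarith
  exact_mod_cast this

end BiasP

open BiasP in
theorem pBias : S_Bias := by
  intro k hk
  obtain ⟨n₀, h₀⟩ := ev_N k hk.pos
  refine ⟨max n₀ (2 ^ k), fun Z hZ => ?_⟩
  obtain ⟨N, a1, a2, a3, a4⟩ := h₀ Z ((le_max_left _ _).trans hZ)
  have hZ2 : 2 ^ k ≤ Z := (le_max_right _ _).trans hZ
  obtain ⟨P₁, s₁, c₁⟩ := exists_subset_card_eq (s := PS Z) (n := N) (by omega)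
  obtain ⟨P₂, s₂, c₂⟩ := exists_subset_card_eq (s := PS Z \ P₁) (n := N)
    (by rw [card_sdiff_of_subset s₁]; omega)
  have s₂' : P₂ ⊆ PS Z := s₂.trans sdiff_subset
  have hd : Disjoint P₁ P₂ := disjoint_left.2 fun p h1 h2 => (mem_sdiff.1 (s₂ h2)).2 h1
  refine ⟨∏ p ∈ P₁, p, ∏ p ∈ P₂, p, ?_, ?_, biased hk hZ2 P₁ s₁ (by omega) (by omega) (c₁ ▸ a4),
    biased hk hZ2 P₂ s₂' (by omega) (by omega) (c₂ ▸ a4)⟩
  · refine Nat.Coprime.prod_left fun p hp => Nat.Coprime.prod_right fun q hq => ?_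
    exact (Nat.coprime_primes (mem_filter.1 (s₁ hp)).2 (mem_filter.1 (s₂' hq)).2).2
      fun e => disjoint_left.1 hd hp (e ▸ hq)
  · rw [← prod_union hd]
    have h4 : (16 : ℕ) ^ Z = 4 ^ (2 * Z) := by rw [pow_mul]; norm_num
    rw [h4]
    refine le_trans ?_ (primorial_le_four_pow (2 * Z))
    refine prod_le_prod_of_subset_of_one_le' (fun p hp => ?_)
      fun p hp _ => (mem_filter.1 hp).2.one_lt.le
    have := mem_filter.1 (union_subset s₁ s₂' hp)
    exact mem_filter.2 ⟨mem_range.2 (by have := (mem_Ioc.1 this.1).2; omega), this.2⟩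

end Pool.Agent.P.MP_0a88e3_nt.PL
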