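import Pool.Agent.P.MP_0a88e3_nt.PL.Defs

/-! Counting chains of mirror pairs. -/

namespace Pool.Agent.P.MP_0a88e3_nt.PL

open Finset

namespace ChainBP

/-- integers at height between `0` and `G` above `x` -/
noncomputable def vals (x G : ℝ) : Finset ℤ := Icc ⌈x⌉ ⌊x + G⌋

lemma mem_vals {x G : ℝ} {v : ℤ} : v ∈ vals x G ↔ 0 ≤ (v : ℝ) - x ∧ (v : ℝ) - x ≤ G := by
  rw [vals, mem_Icc, Int.ceil_le, Int.le_floor, sub_nonneg, sub_le_iff_le_add']

lemma card_vals (x : ℝ) {G : ℝ} (hG : 0 ≤ G) : ((vals x G).card : ℝ) ≤ G + 1 := by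
  rw [vals, Int.card_Icc]
  rcases le_total (⌊x + G⌋ + 1 - ⌈x⌉) 0 with h | h
  · rw [Int.toNat_eq_zero.2 h]
    simp only [Nat.cast_zero]
    linarith
  · have : (((⌊x + G⌋ + 1 - ⌈x⌉).toNat : ℤ) : ℝ) = ((⌊x + G⌋ + 1 - ⌈x⌉ : ℤ) : ℝ) := by
      rw [Int.toNat_of_nonneg h]
    rw [Int.cast_natCast] at this
    rw [this]
    push_cast
    linarith [Int.floor_le (x + G), Int.le_ceil x]

lemma card_le_of_cover {α β : Type*} [DecidableEq α] {A : Finset α} {S : Finset β}
    {f : β → Finset α} {c n : ℝ} (hc : 0 ≤ c) (h : ∀ a ∈ A, ∃ b ∈ S, a ∈ f b)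
    (hf : ∀ b ∈ S, ((f b).card : ℝ) ≤ c) (hS : (S.card : ℝ) ≤ n) : (A.card : ℝ) ≤ n * c := by
  have : A ⊆ S.biUnion f := fun a ha => mem_biUnion.2 (h a ha)
  refine (Nat.cast_le.2 ((card_le_card this).trans card_biUnion_le)).trans ?_
  rw [Nat.cast_sum]
  refine (sum_le_card_nsmul _ _ c hf).trans ?_
  rw [nsmul_eq_mul]
  gcongr

lemma card_sigma_le {β : Type*} (S : Finset ℤ) (t : ℤ → Finset β) {c : ℝ}
    (h : ∀ i ∈ S, ((t i).card : ℝ) ≤ c) : ((S.sigma t).card : ℝ) ≤ S.card * c := by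
  rw [card_sigma, Nat.cast_sum]
  exact (sum_le_card_nsmul _ _ c h).trans (by rw [nsmul_eq_mul])

end ChainBP

open ChainBP

theorem pChainB : S_Chain := by
  classical
  intro W u σ H B ρ K I J hH hB hρ h0 hc hs
  set τ := (2 * K + 1) * (2 ^ K * H + 1) * ρ + J * (2 ^ K * H + 1) ^ 2 * ρ ^ 2 with hτ
  have τ0 : 0 ≤ τ := by positivity
  have G0 : 0 ≤ 2 ^ K * H := by positivity
  have main : ∀ d k : ℕ, k + d = K → ∀ (T : Finset ℤ) (v : ℤ → ℤ) (m : ℤ), m ∈ T → 0 ≤ m →
      m ≤ k * I → T.card ≤ 2 * k + 1 → (v m : ℝ) - σ * m ≤ (2 ^ k - 1) * H →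
      (∀ j ∈ T, j ≤ m ∧ |j| ≤ K * I ∧ 0 ≤ (v j : ℝ) - σ * j ∧ (v j : ℝ) - σ * j ≤ 2 ^ K * H) →
      ((W.filter fun ω => ∀ j ∈ T, u ω j = v j).card : ℝ) ≤ B * ρ ^ T.card * τ ^ d := by
    intro d
    induction d with
    | zero =>
      intro k hk T v m _ _ _ t1 _ hT
      rw [pow_zero, mul_one]
      exact hs T v (by omega) fun j hj => (hT j hj).2
    | succ d ih =>
      intro k hk T v m m0 m1 m2 t1 hm hT
      have p1 : (2 : ℝ) ^ (k + 1) ≤ 2 ^ K := pow_le_pow_right₀ one_le_two (by omega)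
      have p2 : (2 : ℝ) ^ (k + 1) = 2 * 2 ^ k := by ring
      have p3 : (1 : ℝ) ≤ 2 ^ k := one_le_pow₀ one_le_two
      have p4 : (2 ^ (k + 1) - 1) * H ≤ 2 ^ K * H := by gcongr; linarith
      have q1 : ((k + 1 : ℕ) : ℤ) * I ≤ K * I :=
        mul_le_mul_of_nonneg_right (by omega) (Nat.cast_nonneg _)
      have q2 : ((k + 1 : ℕ) : ℤ) * I = k * I + I := by push_cast; ring
      have q3 : (0 : ℤ) ≤ k * I := by positivity
      have nm : ∀ i : ℤ, 1 ≤ i → m + i ∉ T := fun i hi h => by linarith [(hT _ h).1]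
      -- one new point
      have one : ∀ (T' : Finset ℤ) (v' : ℤ → ℤ) (i a : ℤ), 1 ≤ i → i ≤ I → T'.card ≤ 2 * k + 2 →
          a ∈ vals (σ * ((m + i : ℤ) : ℝ)) ((2 ^ (k + 1) - 1) * H) →
          (∀ j ∈ T', j ≤ m ∧ |j| ≤ K * I ∧ 0 ≤ (v' j : ℝ) - σ * j ∧
            (v' j : ℝ) - σ * j ≤ 2 ^ K * H) →
          ((W.filter fun ω => (∀ j ∈ T', u ω j = v' j) ∧ u ω (m + i) = a).card : ℝ) ≤
            B * ρ ^ (T'.card + 1) * τ ^ d := by
        intro T' v' i a i1 i2 t2 ha hT'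
        have nm' : m + i ∉ T' := fun h => by linarith [(hT' _ h).1]
        obtain ⟨a1, a2⟩ := mem_vals.1 ha
        have := ih (k + 1) (by omega) (insert (m + i) T') (Function.update v' (m + i) a) (m + i)
          (mem_insert_self _ _) (by omega) (by omega)
          (by rw [card_insert_of_notMem nm']; omega) (by rwa [Function.update_self]) (by
            intro j hj
            rcases mem_insert.1 hj with rfl | hj
            · rw [Function.update_self]
              exact ⟨le_rfl, by rw [abs_of_nonneg (by omega)]; omega, a1, a2.trans p4⟩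
            · rw [Function.update_of_ne (by rintro rfl; exact nm' hj)]
              exact ⟨by linarith [(hT' j hj).1], (hT' j hj).2⟩)
        rw [card_insert_of_notMem nm'] at this
        refine le_trans (Nat.cast_le.2 (card_le_card fun ω hω => ?_)) this
        obtain ⟨w1, w2, w3⟩ := mem_filter.1 hω
        refine mem_filter.2 ⟨w1, fun j hj => ?_⟩
        rcases mem_insert.1 hj with rfl | hj
        · rwa [Function.update_self]
        · rw [Function.update_of_ne (by rintro rfl; exact nm' hj)]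
          exact w2 j hj
      have G1 : 0 ≤ (2 ^ (k + 1) - 1) * H := mul_nonneg (by linarith) hH
      have cv : ∀ x : ℝ, ((vals x ((2 ^ (k + 1) - 1) * H)).card : ℝ) ≤ 2 ^ K * H + 1 :=
        fun x => (card_vals x G1).trans (by linarith)
      have ex : ∀ ω ∈ W.filter fun ω => ∀ j ∈ T, u ω j = v j, ∃ i : ℤ, 1 ≤ i ∧ i ≤ I ∧ i ≤ J ∧
          u ω (m + i) ∈ vals (σ * ((m + i : ℤ) : ℝ)) ((2 ^ (k + 1) - 1) * H) ∧
          u ω (m - i) ∈ vals (σ * ((m - i : ℤ) : ℝ)) ((2 ^ (k + 1) - 1) * H) := by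
        intro ω hω
        obtain ⟨w1, w2⟩ := mem_filter.1 hω
        obtain ⟨i, i1, i2, i3, i4, i5, i6⟩ := hc ω w1 m m1 (by omega)
          (by rw [w2 m m0]; exact (hT m m0).2.2.2)
        rw [w2 m m0] at i6
        refine ⟨i, i1, i2, i3, mem_vals.2 ⟨i4, ?_⟩, mem_vals.2 ⟨i5, ?_⟩⟩ <;>
        · push_cast at i4 i5 ⊢
          nlinarith
      set A := W.filter fun ω => ∀ j ∈ T, u ω j = v j with hA
      set P : ℕ → Prop := fun ω => ∃ i : ℤ, 1 ≤ i ∧ i ≤ I ∧ m - i ∈ T ∧
        u ω (m + i) ∈ vals (σ * ((m + i : ℤ) : ℝ)) ((2 ^ (k + 1) - 1) * H) with hP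
      have c1 : ((A.filter P).card : ℝ) ≤
          (2 * K + 1) * (2 ^ K * H + 1) * (B * ρ ^ (T.card + 1) * τ ^ d) := by
        refine card_le_of_cover (S := ((T.image fun j => m - j).filter fun i : ℤ =>
            1 ≤ i ∧ i ≤ I).sigma
          fun i => vals (σ * ((m + i : ℤ) : ℝ)) ((2 ^ (k + 1) - 1) * H))
          (f := fun b => W.filter fun ω => (∀ j ∈ T, u ω j = v j) ∧ u ω (m + b.1) = b.2)
          (by positivity) (fun ω hω => ?_) (fun b hb => ?_) ?_
        · obtain ⟨w1, i, i1, i2, i3, i4⟩ := mem_filter.1 hω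
          obtain ⟨w2, w3⟩ := mem_filter.1 w1
          exact ⟨⟨i, u ω (m + i)⟩, mem_sigma.2 ⟨mem_filter.2 ⟨mem_image.2 ⟨m - i, i3, by ring⟩,
            i1, i2⟩, i4⟩, mem_filter.2 ⟨w2, w3, rfl⟩⟩
        · obtain ⟨b1, b2⟩ := mem_sigma.1 hb
          exact one T v b.1 b.2 (mem_filter.1 b1).2.1 (mem_filter.1 b1).2.2 (by omega) b2 hT
        · refine (card_sigma_le _ _ fun i _ => cv _).trans ?_
          have : ((T.image fun j => m - j).filter fun i => 1 ≤ i ∧ i ≤ (I : ℤ)).card ≤ 2 * K + 1 :=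
            (card_filter_le _ _).trans (card_image_le.trans (by omega))
          gcongr
          exact_mod_cast this
      have c2 : ((A.filter fun ω => ¬P ω).card : ℝ) ≤
          J * (2 ^ K * H + 1) ^ 2 * (B * ρ ^ (T.card + 1 + 1) * τ ^ d) := by
        refine card_le_of_cover (S := ((Icc (1 : ℤ) J).filter fun i : ℤ => i ≤ I ∧ m - i ∉ T).sigma
          fun i => vals (σ * ((m + i : ℤ) : ℝ)) ((2 ^ (k + 1) - 1) * H) ×ˢ
            vals (σ * ((m - i : ℤ) : ℝ)) ((2 ^ (k + 1) - 1) * H))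
          (f := fun b => W.filter fun ω => (∀ j ∈ insert (m - b.1) T,
            u ω j = Function.update v (m - b.1) b.2.2 j) ∧ u ω (m + b.1) = b.2.1)
          (by positivity) (fun ω hω => ?_) (fun b hb => ?_) ?_
        · obtain ⟨w1, w4⟩ := mem_filter.1 hω
          obtain ⟨i, i1, i2, i3, i4, i5⟩ := ex ω w1
          obtain ⟨w2, w3⟩ := mem_filter.1 w1
          have i6 : m - i ∉ T := fun h => w4 ⟨i, i1, i2, h, i4⟩
          refine ⟨⟨i, u ω (m + i), u ω (m - i)⟩, mem_sigma.2 ⟨mem_filter.2 ⟨mem_Icc.2 ⟨i1, i3⟩,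
            i2, i6⟩, mem_product.2 ⟨i4, i5⟩⟩, mem_filter.2 ⟨w2, fun j hj => ?_, rfl⟩⟩
          rcases mem_insert.1 hj with rfl | hj
          · rw [Function.update_self]
          · rw [Function.update_of_ne (by rintro rfl; exact i6 hj)]
            exact w3 j hj
        · obtain ⟨b1, b2⟩ := mem_sigma.1 hb
          obtain ⟨b3, b4, b5⟩ := mem_filter.1 b1
          obtain ⟨b6, b7⟩ := mem_product.1 b2
          have b8 := (mem_Icc.1 b3).1
          rw [← card_insert_of_notMem b5]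
          refine one _ _ b.1 b.2.1 b8 b4 (by rw [card_insert_of_notMem b5]; omega) b6 fun j hj => ?_
          rcases mem_insert.1 hj with rfl | hj
          · rw [Function.update_self]
            exact ⟨by omega, by rw [abs_le]; constructor <;> omega, (mem_vals.1 b7).1,
              (mem_vals.1 b7).2.trans p4⟩
          · rw [Function.update_of_ne (by rintro rfl; exact b5 hj)]
            exact hT j hj
        · refine (card_sigma_le _ _ (c := (2 ^ K * H + 1) ^ 2) fun i _ => ?_).trans ?_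
          · rw [card_product, Nat.cast_mul, sq]
            exact mul_le_mul (cv _) (cv _) (Nat.cast_nonneg _) (by positivity)
          · have : ((Icc (1 : ℤ) J).filter fun i : ℤ => i ≤ I ∧ m - i ∉ T).card ≤ J :=
              (card_filter_le _ _).trans (by simp)
            gcongr
      rw [← card_filter_add_card_filter_not (s := A) P, Nat.cast_add]
      refine (add_le_add c1 c2).trans (le_of_eq ?_)
      rw [pow_succ τ, hτ]
      ring
  have := main K 0 (by omega) {0} (fun _ => 0) 0 (mem_singleton_self _) le_rfl (by simp) (by simp)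
    (by simp) (by simpa using ⟨by positivity, hH⟩)
  rw [card_singleton, pow_one, filter_true_of_mem (by simpa using h0)] at this
  exact this

end Pool.Agent.P.MP_0a88e3_nt.PL
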