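import Mathlib

/-! Interface statements for the theorem on symmetric prime sums in a polylogarithmic range. -/

namespace Pool.Agent.P.MP_0a88e3_nt.PL

open Finset DirichletCharacter
open scoped ArithmeticFunction.vonMangoldt

/-- no real nonprincipal character modulo `q` has a small value `L(1, χ)` -/
def GoodMod (q : ℕ) [NeZero q] (L : ℝ) : Prop :=
  ∀ χ : DirichletCharacter ℂ q, χ ≠ 1 → χ ^ 2 = 1 → 1 / L ^ 4 ≤ ‖LFunction χ 1‖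

/-- the twisted Chebyshev sum -/
noncomputable def psi {q : ℕ} (χ : DirichletCharacter ℂ q) (Y : ℕ) : ℂ :=
  ∑ n ∈ Icc 1 Y, (Λ n : ℂ) * χ n

/-- integers up to `V` coprime to `Q` -/
def NC (Q V : ℕ) : ℕ := ((Icc 1 V).filter fun t => Nat.Coprime t Q).card

/-- primes in `(x, x + V]` -/
def cnt (x V : ℕ) : ℕ := ((Icc 1 V).filter fun t => (x + t).Prime).card

/-- twisted sums with an exponential saving -/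
def S_Psi : Prop :=
  ∃ (A : ℕ) (C : ℝ), 1 ≤ C ∧ ∀ (q : ℕ) [NeZero q] (χ : DirichletCharacter ℂ q) (L : ℝ) (Y : ℕ),
    χ ≠ 1 → C ≤ L → Real.log q ≤ L → (χ ^ 2 = 1 → 1 / L ^ 4 ≤ ‖LFunction χ 1‖) →
    L ^ A ≤ Real.log Y → ‖psi χ Y‖ ≤ C * Y * Real.log Y ^ 2 * Real.exp (-L)

/-- Landau: of two coprime moduli one is good -/
def S_Landau : Prop :=
  ∃ L₀ : ℝ, ∀ L : ℝ, L₀ ≤ L → ∀ (q₁ q₂ : ℕ) [NeZero q₁] [NeZero q₂], Nat.Coprime q₁ q₂ →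
    Real.log q₁ + Real.log q₂ ≤ L → GoodMod q₁ L ∨ GoodMod q₂ L

/-- a modulus whose reduced residues are denser up to `Z ^ k` than up to `(2 * Z) ^ k` -/
def Biased (k Z Q : ℕ) : Prop :=
  (∀ p : ℕ, p.Prime → p ∣ Q → p ≤ 2 * Z) ∧ (2 * Z) ^ k ≤ Q ∧
    NC Q ((2 * Z) ^ k) + Z ^ (k - 1) ≤ 2 ^ k * NC Q (Z ^ k)

/-- two coprime biased moduli -/
def S_Bias : Prop :=
  ∀ k : ℕ, Odd k → ∃ Z₀ : ℕ, ∀ Z : ℕ, Z₀ ≤ Z → ∃ Q₁ Q₂ : ℕ, Nat.Coprime Q₁ Q₂ ∧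
    Q₁ * Q₂ ≤ 16 ^ Z ∧ Biased k Z Q₁ ∧ Biased k Z Q₂

/-- the columns of the matrix -/
def S_Col : Prop :=
  ∃ R₀ : ℕ, ∀ (Q R U C : ℕ) [NeZero Q] (M B : ℝ), R₀ ≤ R → Q ^ 10 ≤ R → 1 ≤ C → C * U ≤ Q →
    0 ≤ M → (∀ χ : DirichletCharacter ℂ Q, χ ≠ 1 →
      ‖psi χ (R * Q)‖ ≤ M ∧ ‖psi χ (2 * R * Q)‖ ≤ M) →
    40 * M * C * U ≤ R → 1 ≤ B → B ≤ (C : ℝ) * NC Q U - NC Q (C * U) →
    R * B / 4 ≤ ∑ r ∈ Ico R (2 * R),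
      Real.log ((r * Q : ℕ) : ℝ) * ((C : ℝ) * cnt (r * Q) U - cnt (r * Q) (C * U))

open Classical in
/-- upper bound sieve for tuples along a progression -/
def S_Tup : Prop :=
  ∀ m₀ : ℕ, ∃ C : ℝ, 1 ≤ C ∧ ∀ (Hs : Finset ℤ) (Q R y : ℕ), Hs.card ≤ m₀ → 1 ≤ Q → 2 ≤ R →
    2 * m₀ + 2 ≤ y → (∀ h ∈ Hs, ∀ h' ∈ Hs, |h - h'| ≤ y) → (∀ p : ℕ, p.Prime → p ∣ Q → p ≤ y) →
    (((Ico R (2 * R)).filter fun r : ℕ => ∀ h ∈ Hs, Prime ((r : ℤ) * Q + h)).card : ℝ) ≤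
      C * R * (C * Real.log y / Real.log R) ^ Hs.card

/-- a supporting slope on a grid whose near contacts are close to the contact point -/
def S_Geo : Prop :=
  ∀ (p : ℕ → ℝ) (A a c E : ℕ) (x U V Δ σ₀ w G J : ℝ), 1 ≤ a → a ≤ c →
    (∀ m, A ≤ m → x < p m) → p (A + a - 1) ≤ x + U → (∀ m, A + c ≤ m → x + V < p m) →
    0 < σ₀ → 0 < G → 0 < J → U + Δ ≤ σ₀ * a → (σ₀ + w) * ((c : ℝ) - a) ≤ V - U - Δ →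
    ((E : ℝ) + 1) * (σ₀ + w) ≤ Δ → (4 * c / J + 4) * (2 * G / J) ≤ w →
    ∃ i n : ℕ, σ₀ ≤ i * (2 * G / J) ∧ i * (2 * G / J) ≤ σ₀ + w ∧ A + E ≤ n ∧ n < A + c ∧
      ∀ m : ℕ, A ≤ m → m ≤ A + c + E →
        0 ≤ p m - p n - i * (2 * G / J) * ((m : ℝ) - n) ∧
        (p m - p n - i * (2 * G / J) * ((m : ℝ) - n) ≤ G → |(m : ℝ) - n| ≤ J)

open Classical in
/-- counting chains of mirror pairs -/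
def S_Chain : Prop :=
  ∀ (W : Finset ℕ) (u : ℕ → ℤ → ℤ) (σ H B ρ : ℝ) (K I J : ℕ), 0 ≤ H → 0 ≤ B → 0 ≤ ρ →
    (∀ ω ∈ W, u ω 0 = 0) →
    (∀ ω ∈ W, ∀ m : ℤ, 0 ≤ m → m ≤ K * I → (u ω m : ℝ) - σ * m ≤ 2 ^ K * H →
      ∃ i : ℤ, 1 ≤ i ∧ i ≤ I ∧ i ≤ J ∧ 0 ≤ (u ω (m + i) : ℝ) - σ * ((m + i : ℤ) : ℝ) ∧
        0 ≤ (u ω (m - i) : ℝ) - σ * ((m - i : ℤ) : ℝ) ∧
        (u ω (m + i) : ℝ) + u ω (m - i) - 2 * u ω m ≤ H) →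
    (∀ (T : Finset ℤ) (v : ℤ → ℤ), T.card ≤ 2 * K + 1 →
      (∀ j ∈ T, |j| ≤ K * I ∧ 0 ≤ (v j : ℝ) - σ * j ∧ (v j : ℝ) - σ * j ≤ 2 ^ K * H) →
      ((W.filter fun ω => ∀ j ∈ T, u ω j = v j).card : ℝ) ≤ B * ρ ^ T.card) →
    (W.card : ℝ) ≤
      B * ρ * ((2 * K + 1) * (2 ^ K * H + 1) * ρ + J * (2 ^ K * H + 1) ^ 2 * ρ ^ 2) ^ K

/-- the theorem with all parameters written as powers of an integer -/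
def S_Core : Prop :=
  ∃ g₀ : ℕ, ∀ g α β : ℕ, g₀ ≤ g → 5 * α + β + 60 ≤ 5 * g → ∃ Z₀ : ℕ, ∀ Z : ℕ, Z₀ ≤ Z →
    ∃ n : ℕ, Real.exp ((Z : ℝ) ^ g) ≤ Nat.nth Nat.Prime n ∧
      (Nat.nth Nat.Prime n : ℝ) ≤ Real.exp (2 * (Z : ℝ) ^ g) ∧ Z ^ β ≤ n ∧
      ∀ i : ℕ, 1 ≤ i → i ≤ Z ^ β →
        Z ^ α + 2 * Nat.nth Nat.Prime n ≤ Nat.nth Nat.Prime (n - i) + Nat.nth Nat.Prime (n + i)

end Pool.Agent.P.MP_0a88e3_nt.PL
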