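import Pool.Agent.P.MP_0ad054_nt.An.All
import Pool.Agent.P.MP_0a88e3_nt.PL.Defs

/-! The column sums of the matrix `r * Q + t`. -/

namespace Pool.Agent.P.MP_0a88e3_nt.PL

open Finset DirichletCharacter
open scoped ArithmeticFunction.vonMangoldt

namespace ColP

/-- the von Mangoldt sum over non-primes -/
noncomputable def NP (X : ℕ) : ℝ := ∑ n ∈ Ioc 0 X, if n.Prime then 0 else Λ n

theorem NP_le : ∃ c : ℝ, 0 ≤ c ∧ ∀ X : ℕ, NP X ≤ c * √(X : ℝ) := by
  obtain ⟨c, hc⟩ := Chebyshev.psi_sub_theta_le_mul_sqrt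
  refine ⟨max c 0, le_max_right _ _, fun X => ?_⟩
  have h := hc X
  rw [Chebyshev.psi_sub_theta_eq_sum_not_prime, Nat.floor_natCast, sum_filter] at h
  have e : NP X = ∑ n ∈ Ioc 0 X, if ¬ n.Prime then Λ n else 0 :=
    sum_congr rfl fun n _ => by by_cases hn : n.Prime <;> simp [hn]
  rw [e]
  exact h.trans (mul_le_mul_of_nonneg_right (le_max_left _ _) (Real.sqrt_nonneg _))

theorem np_nonneg (n : ℕ) : (0 : ℝ) ≤ if n.Prime then 0 else Λ n := by
  split_ifs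
  · exact le_rfl
  · exact ArithmeticFunction.vonMangoldt_nonneg

theorem NP_nonneg (X : ℕ) : 0 ≤ NP X := sum_nonneg fun n _ => np_nonneg n

theorem Icc_eq (X : ℕ) : Icc 1 X = Ioc 0 X := by
  ext n
  simp only [mem_Icc, mem_Ioc]
  omega

theorem colsum {Q R t : ℕ} (hR : 1 ≤ R) (h1 : 1 ≤ t) (h2 : t ≤ Q) (g : ℕ → ℝ) :
    ∑ r ∈ Ico R (2 * R), g (r * Q + t) =
      ∑ n ∈ Ioc (R * Q) (2 * R * Q), if (t : ZMod Q) = (n : ZMod Q) then g n else 0 := by
  have hQ : 0 < Q := by omega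
  rw [← sum_filter]
  have e : (Ioc (R * Q) (2 * R * Q)).filter (fun n : ℕ => (t : ZMod Q) = (n : ZMod Q)) =
      (Ico R (2 * R)).image fun r => r * Q + t := by
    ext n
    simp only [mem_filter, mem_Ioc, mem_image, mem_Ico, ZMod.natCast_eq_natCast_iff]
    constructor
    · rintro ⟨⟨a1, a2⟩, a3⟩
      have a4 : Q ≤ R * Q := Nat.le_mul_of_pos_left _ hR
      obtain ⟨r, hr⟩ := (Nat.modEq_iff_dvd' (by omega : t ≤ n)).1 a3
      have a5 : n = r * Q + t := by rw [mul_comm]; omega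
      refine ⟨r, ⟨?_, ?_⟩, a5.symm⟩
      · by_contra hc
        have : (r + 1) * Q ≤ R * Q := Nat.mul_le_mul_right _ (by omega)
        rw [add_mul] at this
        omega
      · by_contra hc
        have : 2 * R * Q ≤ r * Q := Nat.mul_le_mul_right _ (by omega)
        omega
    · rintro ⟨r, ⟨a1, a2⟩, rfl⟩
      have b1 : R * Q ≤ r * Q := Nat.mul_le_mul_right _ a1
      have b2 : (r + 1) * Q ≤ 2 * R * Q := Nat.mul_le_mul_right _ (by omega)
      rw [add_mul] at b2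
      refine ⟨⟨by omega, by omega⟩, ?_⟩
      simp [Nat.ModEq]
  rw [e, sum_image]
  intro a _ b _ hab
  exact Nat.eq_of_mul_eq_mul_right hQ (Nat.add_right_cancel hab)

theorem psi_sub {Q : ℕ} (χ : DirichletCharacter ℂ Q) {a b : ℕ} (h : a ≤ b) :
    ∑ n ∈ Ioc a b, (Λ n : ℂ) * χ n = psi χ b - psi χ a := by
  rw [psi, psi, Icc_eq, Icc_eq, ← sum_Ioc_consecutive _ (Nat.zero_le a) h]
  ring

theorem orth {Q : ℕ} [NeZero Q] {a b t : ℕ} (h : a ≤ b) (ht : Nat.Coprime t Q) {M : ℝ}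
    (hM0 : 0 ≤ M) (hM : ∀ χ : DirichletCharacter ℂ Q, χ ≠ 1 → ‖psi χ a‖ ≤ M ∧ ‖psi χ b‖ ≤ M) :
    |(∑ n ∈ Ioc a b, if (t : ZMod Q) = (n : ZMod Q) then Λ n else 0) -
      (∑ n ∈ Ioc a b, if Nat.Coprime n Q then Λ n else 0) / Q.totient| ≤ 2 * M := by
  classical
  have hφ : (0 : ℝ) < Q.totient := by exact_mod_cast Nat.totient_pos.2 (NeZero.pos Q)
  have hu : IsUnit (t : ZMod Q) := (ZMod.isUnit_iff_coprime t Q).2 ht
  set L : ℝ := ∑ n ∈ Ioc a b, if (t : ZMod Q) = (n : ZMod Q) then Λ n else 0 with hL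
  set P : ℝ := ∑ n ∈ Ioc a b, if Nat.Coprime n Q then Λ n else 0 with hP
  have h1 : ((Q.totient * L : ℝ) : ℂ) =
      ∑ χ : DirichletCharacter ℂ Q, χ (t : ZMod Q)⁻¹ * ∑ n ∈ Ioc a b, (Λ n : ℂ) * χ n := by
    simp only [hL, mul_sum, Complex.ofReal_sum]
    rw [sum_comm]
    refine sum_congr rfl fun n _ => ?_
    simp only [mul_left_comm _ (Λ n : ℂ), ← mul_sum, sum_char_inv_mul_char_eq ℂ hu]
    split_ifs <;> simp [mul_comm]
  have h2 : ∑ n ∈ Ioc a b, (Λ n : ℂ) * (1 : DirichletCharacter ℂ Q) n = (P : ℂ) := by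
    simp only [hP, Complex.ofReal_sum]
    refine sum_congr rfl fun n _ => ?_
    by_cases hn : Nat.Coprime n Q
    · rw [MulChar.one_apply ((ZMod.isUnit_iff_coprime n Q).2 hn), if_pos hn, mul_one]
    · rw [MulChar.map_nonunit _ (fun hc => hn ((ZMod.isUnit_iff_coprime n Q).1 hc)), if_neg hn]
      simp
  rw [← add_sum_erase _ _ (mem_univ 1), MulChar.one_apply
    (IsUnit.of_mul_eq_one _ (ZMod.inv_mul_of_unit _ hu)), one_mul, h2] at h1
  have h3 : ((univ.erase (1 : DirichletCharacter ℂ Q)).card : ℝ) ≤ Q.totient := by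
    have := card_eq_totient_of_hasEnoughRootsOfUnity ℂ Q
    rw [Nat.card_eq_fintype_card] at this
    exact_mod_cast (card_erase_le).trans (le_of_eq (card_univ.trans this))
  have h4 : ‖∑ χ ∈ univ.erase (1 : DirichletCharacter ℂ Q),
      χ (t : ZMod Q)⁻¹ * ∑ n ∈ Ioc a b, (Λ n : ℂ) * χ n‖ ≤ Q.totient * (2 * M) := by
    refine (norm_sum_le _ _).trans ((sum_le_card_nsmul _ _ (2 * M) fun χ hχ => ?_).trans ?_)
    · obtain ⟨c1, c2⟩ := hM χ (ne_of_mem_erase hχ)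
      refine (norm_mul_le _ _).trans ((mul_le_of_le_one_left (norm_nonneg _)
        (χ.norm_le_one _)).trans ?_)
      rw [psi_sub χ h]
      linarith [norm_sub_le (psi χ b) (psi χ a)]
    · rw [nsmul_eq_mul]
      gcongr
  have h5 : |Q.totient * L - P| ≤ Q.totient * (2 * M) := by
    rw [← Real.norm_eq_abs, ← Complex.norm_real, Complex.ofReal_sub, h1, add_sub_cancel_left]
    exact h4
  have e : L - P / Q.totient = (Q.totient * L - P) / Q.totient := by field_simp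
  rw [e, abs_div, abs_of_pos hφ, div_le_iff₀' hφ]
  exact h5

theorem cop_ge {Q a b : ℕ} (hQ : 0 < Q) (ha : Q ≤ a) (h : a ≤ b) :
    ∑ n ∈ Icc 1 b, Λ n - ∑ n ∈ Icc 1 a, Λ n - NP b ≤
      ∑ n ∈ Ioc a b, if Nat.Coprime n Q then Λ n else 0 := by
  have e : ∑ n ∈ Icc 1 b, Λ n - ∑ n ∈ Icc 1 a, Λ n = ∑ n ∈ Ioc a b, Λ n := by
    rw [Icc_eq, Icc_eq, ← sum_Ioc_consecutive _ (Nat.zero_le a) h]
    ring
  have h1 : (∑ n ∈ Ioc a b, if n.Prime then 0 else Λ n) ≤ NP b :=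
    sum_le_sum_of_subset_of_nonneg (Ioc_subset_Ioc_left (Nat.zero_le a)) fun n _ _ => np_nonneg n
  have h2 : ∑ n ∈ Ioc a b, Λ n ≤ (∑ n ∈ Ioc a b, if Nat.Coprime n Q then Λ n else 0) +
      ∑ n ∈ Ioc a b, if n.Prime then 0 else Λ n := by
    rw [← sum_add_distrib]
    refine sum_le_sum fun n hn => ?_
    have h0 : 0 ≤ Λ n := ArithmeticFunction.vonMangoldt_nonneg
    by_cases hp : n.Prime
    · have hc : Nat.Coprime n Q := (Nat.Prime.coprime_iff_not_dvd hp).2 fun hd => by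
        have := Nat.le_of_dvd hQ hd
        have := (mem_Ioc.1 hn).1
        omega
      rw [if_pos hc, if_pos hp, add_zero]
    · rw [if_neg hp]
      split_ifs <;> linarith
  linarith

/-- the weighted count of primes in one column -/
noncomputable def G (Q R t : ℕ) : ℝ :=
  ∑ r ∈ Ico R (2 * R), Real.log ((r * Q : ℕ) : ℝ) * if (r * Q + t).Prime then 1 else 0

theorem G_zero {Q R t : ℕ} (hR : 1 ≤ R) (hQ : 0 < Q) (h1 : 1 ≤ t) (ht : ¬ Nat.Coprime t Q) :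
    G Q R t = 0 := by
  refine sum_eq_zero fun r hr => ?_
  have hp : ¬ (r * Q + t).Prime := fun hp => by
    have d1 : Nat.gcd t Q ∣ r * Q + t :=
      Nat.dvd_add (Dvd.dvd.mul_left (Nat.gcd_dvd_right t Q) r) (Nat.gcd_dvd_left t Q)
    rcases (Nat.dvd_prime hp).1 d1 with h | h
    · exact ht h
    · have d2 : Nat.gcd t Q ≤ Q := Nat.gcd_le_right _ hQ
      have d3 : Q ≤ r * Q := Nat.le_mul_of_pos_left _ (by have := (mem_Ico.1 hr).1; omega)
      omega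
  rw [if_neg hp, mul_zero]

theorem G_near {Q R t : ℕ} (hR : 1 ≤ R) (h1 : 1 ≤ t) (h2 : t ≤ Q) :
    |G Q R t - ∑ r ∈ Ico R (2 * R), Λ (r * Q + t)| ≤ 1 + NP (2 * R * Q) := by
  have hR' : (0 : ℝ) < R := by exact_mod_cast hR
  have a1 : (∑ r ∈ Ico R (2 * R), if (r * Q + t).Prime then 0 else Λ (r * Q + t)) ≤
      NP (2 * R * Q) := by
    rw [colsum hR h1 h2 fun n => if n.Prime then 0 else Λ n]
    refine le_trans (sum_le_sum fun n _ => ?_) (sum_le_sum_of_subset_of_nonneg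
      (Ioc_subset_Ioc_left (Nat.zero_le (R * Q))) fun n _ _ => np_nonneg n)
    by_cases hn : (t : ZMod Q) = (n : ZMod Q)
    · rw [if_pos hn]
    · rw [if_neg hn]
      exact np_nonneg n
  have a2 : ∑ _r ∈ Ico R (2 * R), (1 / R : ℝ) = 1 := by
    rw [sum_const, Nat.card_Ico, nsmul_eq_mul, show 2 * R - R = R by omega]
    field_simp
  rw [G, ← sum_sub_distrib]
  refine (abs_sum_le_sum_abs _ _).trans (le_trans ?_ (add_le_add a2.le a1))
  rw [← sum_add_distrib]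
  refine sum_le_sum fun r hr => ?_
  have hr1 := (mem_Ico.1 hr).1
  have hi : (0 : ℝ) < 1 / R := by positivity
  by_cases hp : (r * Q + t).Prime
  · rw [if_pos hp, if_pos hp, ArithmeticFunction.vonMangoldt_apply_prime hp, mul_one, add_zero]
    have hQ : (0 : ℝ) < Q := by exact_mod_cast (by omega : 0 < Q)
    have hr2 : (R : ℝ) ≤ r := by exact_mod_cast hr1
    have ht1 : (0 : ℝ) ≤ t := Nat.cast_nonneg t
    have ht2 : (t : ℝ) ≤ Q := by exact_mod_cast h2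
    have hx : (0 : ℝ) < r * Q := mul_pos (by linarith) hQ
    push_cast
    have b1 : Real.log (r * Q) ≤ Real.log (r * Q + t) := Real.log_le_log hx (by linarith)
    have b2 : Real.log (r * Q + t) - Real.log (r * Q) ≤ (r * Q + t) / (r * Q) - 1 := by
      rw [← Real.log_div (by linarith) hx.ne']
      exact Real.log_le_sub_one_of_pos (div_pos (by linarith) hx)
    have b3 : ((r : ℝ) * Q + t) / (r * Q) - 1 ≤ 1 / R := by
      rw [add_div, div_self hx.ne', add_sub_cancel_left, div_le_div_iff₀ hx hR']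
      nlinarith
    rw [abs_sub_comm, abs_of_nonneg (by linarith)]
    linarith
  · rw [if_neg hp, if_neg hp, mul_zero, zero_sub, abs_neg,
      abs_of_nonneg ArithmeticFunction.vonMangoldt_nonneg]
    linarith

/-- the weights -/
noncomputable def f (C U t : ℕ) : ℝ := (if t ≤ U then (C : ℝ) else 0) - 1

theorem sum_ite_le {C U : ℕ} (hC : 1 ≤ C) (g : ℕ → ℝ) :
    ∑ t ∈ Icc 1 (C * U), (if t ≤ U then g t else 0) = ∑ t ∈ Icc 1 U, g t := by
  rw [← sum_filter]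
  refine sum_congr ?_ fun _ _ => rfl
  ext t
  have : U ≤ C * U := Nat.le_mul_of_pos_left _ hC
  simp only [mem_filter, mem_Icc]
  omega

theorem wsum {C U : ℕ} (hC : 1 ≤ C) (P : ℕ → Prop) [DecidablePred P] :
    (C : ℝ) * ((Icc 1 U).filter P).card - ((Icc 1 (C * U)).filter P).card =
      ∑ t ∈ Icc 1 (C * U), f C U t * if P t then 1 else 0 := by
  rw [natCast_card_filter, natCast_card_filter, mul_sum, ← sum_ite_le hC, ← sum_sub_distrib]
  refine sum_congr rfl fun t _ => ?_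
  rw [f]
  split_ifs <;> ring

theorem sum_abs_f {C U : ℕ} (hC : 1 ≤ C) : ∑ t ∈ Icc 1 (C * U), |f C U t| ≤ 2 * (C * U) := by
  have h : ∑ t ∈ Icc 1 (C * U), |f C U t| ≤
      ∑ t ∈ Icc 1 (C * U), ((if t ≤ U then (C : ℝ) else 0) + 1) := by
    refine sum_le_sum fun t _ => ?_
    have : (0 : ℝ) ≤ C := Nat.cast_nonneg C
    rw [f, abs_le]
    split_ifs <;> constructor <;> linarith
  rw [sum_add_distrib, sum_ite_le hC fun _ => (C : ℝ)] at h
  simp only [sum_const, Nat.card_Icc, nsmul_eq_mul, Nat.add_sub_cancel] at h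
  push_cast at h
  linarith

theorem size {K Q R : ℕ} (h1 : K ^ 4 ≤ R) (h2 : Q ^ 10 ≤ R) : K * Q ^ 3 ≤ R := by
  rcases le_total K (Q ^ 7) with h | h
  · calc K * Q ^ 3 ≤ Q ^ 7 * Q ^ 3 := Nat.mul_le_mul_right _ h
      _ = Q ^ 10 := by ring
      _ ≤ R := h2
  · have h3 : Q ≤ K := (Nat.le_self_pow (by norm_num) Q).trans h
    calc K * Q ^ 3 ≤ K * K ^ 3 := Nat.mul_le_mul_left _ (Nat.pow_le_pow_left h3 3)
      _ = K ^ 4 := by ring
      _ ≤ R := h1

theorem le_of_sq_le_sq_aux {x y : ℝ} (hy : 0 ≤ y) (h : x ^ 2 ≤ y ^ 2) : x ≤ y :=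
  (abs_le_of_sq_le_sq' h hy).2

theorem pnt_small : ∃ X₀ : ℕ, ∀ X : ℕ, X₀ ≤ X → |∑ n ∈ Icc 1 X, Λ n - X| ≤ X / 100 := by
  obtain ⟨C, hC, h⟩ := MP_0ad054_nt.An.pnt_all 1
  refine ⟨⌈Real.exp (100 * C)⌉₊ + 2, fun X hX => (h X (by omega)).trans ?_⟩
  have a1 : Real.exp (100 * C) ≤ X :=
    (Nat.le_ceil _).trans (by exact_mod_cast (by omega : ⌈Real.exp (100 * C)⌉₊ ≤ X))
  have a2 : 100 * C ≤ Real.log X := (Real.le_log_iff_exp_le ((Real.exp_pos _).trans_le a1)).2 a1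
  have a3 : (0 : ℝ) ≤ X := Nat.cast_nonneg X
  rw [pow_one, div_le_div_iff₀ (by linarith) (by norm_num)]
  nlinarith

end ColP

open ColP in
theorem pCol : S_Col := by
  obtain ⟨c, hc0, hc⟩ := NP_le
  obtain ⟨X₀, hX⟩ := pnt_small
  refine ⟨(⌈800 * c ^ 2⌉₊ + 40) ^ 4 + X₀ + 1,
    fun Q R U C _ M B hR hQR hC hCU hM0 hM hMR hB1 hB => ?_⟩
  have hQ : 0 < Q := NeZero.pos Q
  have hR1 : 1 ≤ R := by omega
  have hK := size (by omega : (⌈800 * c ^ 2⌉₊ + 40) ^ 4 ≤ R) hQR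
  have hQ1 : (1 : ℝ) ≤ Q := by exact_mod_cast hQ
  have hR0 : (0 : ℝ) < R := by exact_mod_cast hR1
  have hK1 : ((⌈800 * c ^ 2⌉₊ : ℝ) + 40) * (Q : ℝ) ^ 3 ≤ R := by exact_mod_cast hK
  have hK2 : (800 * c ^ 2 + 40) * (Q : ℝ) ^ 3 ≤ R :=
    le_trans (by gcongr; exact Nat.le_ceil _) hK1
  have hQ3 : (Q : ℝ) ≤ (Q : ℝ) ^ 3 := le_self_pow₀ hQ1 (by norm_num)
  have s1 : 40 * (Q : ℝ) ≤ R := by nlinarith [sq_nonneg c, pow_pos (lt_of_lt_of_le one_pos hQ1) 3]
  have s2 : Q * NP (2 * R * Q) ≤ R / 20 := by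
    refine (mul_le_mul_of_nonneg_left (hc _) (by linarith)).trans ?_
    refine le_of_sq_le_sq_aux (by positivity) ?_
    rw [mul_pow, mul_pow, Real.sq_sqrt (Nat.cast_nonneg _)]
    push_cast
    have h3 : (0 : ℝ) ≤ (Q : ℝ) ^ 3 := by positivity
    have h4 : 800 * c ^ 2 * (Q : ℝ) ^ 3 ≤ R := by nlinarith
    nlinarith [mul_le_mul_of_nonneg_left h4 hR0.le]
  have hN0 := NP_nonneg (2 * R * Q)
  have hRQ : R ≤ R * Q := Nat.le_mul_of_pos_right _ hQ
  have hQRQ : Q ≤ R * Q := Nat.le_mul_of_pos_left _ hR1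
  have h12 : R * Q ≤ 2 * R * Q := Nat.mul_le_mul_right _ (by omega)
  set P : ℝ := ∑ n ∈ Ioc (R * Q) (2 * R * Q), if Nat.Coprime n Q then Λ n else 0 with hP
  have hφ : (0 : ℝ) < Q.totient := by exact_mod_cast Nat.totient_pos.2 hQ
  have hφ2 : (Q.totient : ℝ) ≤ Q := by exact_mod_cast Nat.totient_le Q
  have s3 : 9 / 10 * (R : ℝ) ≤ P / Q.totient := by
    have a1 := abs_le.1 (hX (R * Q) (by omega))
    have a2 := abs_le.1 (hX (2 * R * Q) (by omega))
    have a3 := cop_ge hQ hQRQ h12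
    push_cast at a1 a2
    rw [le_div_iff₀ hφ]
    have a4 : NP (2 * R * Q) ≤ R * Q / 20 := by nlinarith
    nlinarith [a1.2, a2.1]
  have e1 : ∑ r ∈ Ico R (2 * R),
      Real.log ((r * Q : ℕ) : ℝ) * ((C : ℝ) * cnt (r * Q) U - cnt (r * Q) (C * U)) =
      ∑ t ∈ Icc 1 (C * U), f C U t * G Q R t := by
    simp only [G, mul_sum]
    rw [sum_comm]
    refine sum_congr rfl fun r _ => ?_
    rw [cnt, cnt, wsum hC, mul_sum]
    exact sum_congr rfl fun t _ => by ring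
  have e2 : (C : ℝ) * NC Q U - NC Q (C * U) =
      ∑ t ∈ Icc 1 (C * U), f C U t * if Nat.Coprime t Q then 1 else 0 := by
    rw [NC, NC, wsum hC]
  have s4 : ∀ t ∈ Icc 1 (C * U),
      (f C U t * if Nat.Coprime t Q then 1 else 0) * (P / Q.totient) -
        |f C U t| * (2 * M + (1 + NP (2 * R * Q))) ≤ f C U t * G Q R t := by
    intro t ht
    obtain ⟨t1, t2⟩ := mem_Icc.1 ht
    by_cases hco : Nat.Coprime t Q
    · have b1 := orth h12 hco hM0 hM
      rw [← colsum hR1 t1 (t2.trans hCU) fun n => Λ n] at b1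
      have b2 := G_near hR1 t1 (t2.trans hCU)
      have b3 : |G Q R t - P / Q.totient| ≤ 2 * M + (1 + NP (2 * R * Q)) := by
        have := abs_sub_le (G Q R t) (∑ r ∈ Ico R (2 * R), Λ (r * Q + t)) (P / Q.totient)
        linarith
      have b4 := neg_abs_le (f C U t * (G Q R t - P / Q.totient))
      rw [abs_mul] at b4
      have b5 := mul_le_mul_of_nonneg_left b3 (abs_nonneg (f C U t))
      rw [if_pos hco]
      linarith
    · rw [if_neg hco, G_zero hR1 hQ t1 hco]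
      have : 0 ≤ |f C U t| * (2 * M + (1 + NP (2 * R * Q))) := by positivity
      linarith
  have s5 := sum_le_sum s4
  rw [sum_sub_distrib, ← sum_mul, ← sum_mul, ← e1, ← e2] at s5
  refine le_trans ?_ s5
  have s6 := mul_le_mul_of_nonneg_right (sum_abs_f (U := U) hC)
    (by positivity : 0 ≤ 2 * M + (1 + NP (2 * R * Q)))
  have s7 : B * (9 / 10 * (R : ℝ)) ≤ ((C : ℝ) * NC Q U - NC Q (C * U)) * (P / Q.totient) :=
    mul_le_mul hB s3 (by positivity) (by linarith)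
  have hCU' : (C : ℝ) * U ≤ Q := by exact_mod_cast hCU
  have s8 : (C : ℝ) * U * (1 + NP (2 * R * Q)) ≤ Q * (1 + NP (2 * R * Q)) :=
    mul_le_mul_of_nonneg_right hCU' (by linarith)
  have s9 : (R : ℝ) ≤ R * B := le_mul_of_one_le_right hR0.le hB1
  nlinarith

end Pool.Agent.P.MP_0a88e3_nt.PL
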