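import Pool.Agent.P.MP_0a88e3_nt.PL.Defs

/-! From integer exponents to real exponents. -/

namespace Pool.Agent.P.MP_0a88e3_nt.PL

theorem fin_of_core (h : S_Core) (a b : ℝ) (ha : 0 ≤ a) (hb : 0 ≤ b) (hab : 5 * a + b < 5)
    (N : ℕ) : ∃ n : ℕ, N ≤ n ∧ 2 ≤ n ∧ Real.log n ^ b < n ∧ ∀ i : ℕ, 0 < i →
      (i : ℝ) ≤ Real.log n ^ b →
      Real.log n ^ a < (Nat.nth Nat.Prime (n - i - 1) : ℝ) + (Nat.nth Nat.Prime (n + i - 1) : ℝ)
        - 2 * (Nat.nth Nat.Prime (n - 1) : ℝ) := by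
  obtain ⟨g₀, h⟩ := h
  obtain ⟨g, g1, g2⟩ : ∃ g : ℕ, g₀ + 1 ≤ g ∧ 76 / (5 - (5 * a + b)) ≤ g :=
    ⟨max (g₀ + 1) ⌈76 / (5 - (5 * a + b))⌉₊, le_max_left _ _,
      Nat.ceil_le.1 (le_max_right _ _)⟩
  rw [div_le_iff₀ (by linarith)] at g2
  have G0 : (0 : ℝ) ≤ g := Nat.cast_nonneg _
  have a1 := Nat.floor_le (show 0 ≤ (g + 1) * a by positivity)
  have a2 := Nat.lt_floor_add_one (((g : ℝ) + 1) * a)
  have b1 := Nat.floor_le (show 0 ≤ (g + 1) * b by positivity)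
  have b2 := Nat.lt_floor_add_one (((g : ℝ) + 1) * b)
  set α := ⌊((g : ℝ) + 1) * a⌋₊
  set β := ⌊((g : ℝ) + 1) * b⌋₊
  obtain ⟨Z₀, h⟩ := h g (α + 1) (β + 1) (by omega) (by
    have : 5 * ((α : ℝ) + 1) + (β + 1) + 60 ≤ 5 * g := by nlinarith
    exact_mod_cast this)
  obtain ⟨Z, z1, z2, z3⟩ : ∃ Z, Z₀ ≤ Z ∧ 2 ≤ Z ∧ Nat.nth Nat.Prime (N + 1) ≤ Z :=
    ⟨max Z₀ (max 2 (Nat.nth Nat.Prime (N + 1))), le_max_left _ _,
      (le_max_left _ _).trans (le_max_right _ _), (le_max_right _ _).trans (le_max_right _ _)⟩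
  obtain ⟨n, n1, n2, n3, hn⟩ := h Z z1
  have w2 : (2 : ℝ) ≤ Z := by exact_mod_cast z2
  have c1 : (Z : ℝ) ≤ (Z : ℝ) ^ g := le_self_pow₀ (by linarith) (by omega)
  have c2 : N + 1 ≤ n := by
    have := Real.add_one_le_exp ((Z : ℝ) ^ g)
    have : Nat.nth Nat.Prime (N + 1) ≤ Nat.nth Nat.Prime n :=
      z3.trans (by exact_mod_cast (show (Z : ℝ) ≤ Nat.nth Nat.Prime n by linarith))
    exact (Nat.nth_strictMono Nat.infinite_setOf_prime).le_iff_le.1 this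
  have c3 : Real.log ((n + 1 : ℕ) : ℝ) ≤ (Z : ℝ) ^ (g + 1) := by
    have := Nat.add_two_le_nth_prime n
    have : ((n + 1 : ℕ) : ℝ) ≤ Nat.nth Nat.Prime n := Nat.cast_le.2 (by omega)
    have := (Real.log_le_iff_le_exp (by positivity)).2 (this.trans n2)
    rw [pow_succ']
    nlinarith [show 0 ≤ (Z : ℝ) ^ g by positivity]
  have c4 : ∀ (e : ℝ) (m : ℕ), 0 ≤ e → (g + 1) * e < m →
      Real.log ((n + 1 : ℕ) : ℝ) ^ e < (Z : ℝ) ^ m := by
    intro e m e0 e1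
    refine (Real.rpow_le_rpow (Real.log_natCast_nonneg _) c3 e0).trans_lt ?_
    rw [← Real.rpow_natCast_mul (by linarith), ← Real.rpow_natCast]
    exact Real.rpow_lt_rpow_of_exponent_lt (by linarith) (by push_cast; exact e1)
  have c5 := c4 b (β + 1) hb (by push_cast; exact b2)
  have c6 := c4 a (α + 1) ha (by push_cast; exact a2)
  refine ⟨n + 1, by omega, by omega, c5.trans_le ?_, fun i i0 i1 => ?_⟩
  · exact_mod_cast n3.trans (Nat.le_succ n)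
  · have := hn i i0 (by exact_mod_cast (i1.trans c5.le))
    rw [show n + 1 - i - 1 = n - i by omega, show n + 1 + i - 1 = n + i by omega,
      Nat.add_sub_cancel]
    have h' : (Z : ℝ) ^ (α + 1) + 2 * (Nat.nth Nat.Prime n : ℝ) ≤
        (Nat.nth Nat.Prime (n - i) : ℝ) + Nat.nth Nat.Prime (n + i) := by exact_mod_cast this
    linarith

end Pool.Agent.P.MP_0a88e3_nt.PL
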