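import Pool.Agent.P.MP_0a88e3_nt.PL.Defs

/-! A supporting slope on a grid whose near contacts are close to the contact point. -/

namespace Pool.Agent.P.MP_0a88e3_nt.PL

open Finset

namespace GeoP

/-- a contact point for each slope in the range -/
theorem contact (p : ℕ → ℝ) (A a c E : ℕ) (x U V Δ σ₀ w : ℝ) (ha : 1 ≤ a) (hac : a ≤ c)
    (h1 : ∀ m, A ≤ m → x < p m) (h2 : p (A + a - 1) ≤ x + U) (h3 : ∀ m, A + c ≤ m → x + V < p m)
    (h0 : 0 < σ₀) (h4 : U + Δ ≤ σ₀ * a) (h5 : (σ₀ + w) * ((c : ℝ) - a) ≤ V - U - Δ)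
    (h6 : ((E : ℝ) + 1) * (σ₀ + w) ≤ Δ) (σ : ℝ) :
    ∃ n : ℕ, σ₀ ≤ σ → σ ≤ σ₀ + w → A + E ≤ n ∧ n < A + c ∧
      ∀ m : ℕ, A ≤ m → m ≤ A + c + E → 0 ≤ p m - p n - σ * ((m : ℝ) - n) := by
  have hne : (Ico A (A + c)).Nonempty := ⟨A, by rw [mem_Ico]; omega⟩
  obtain ⟨n, hn, hmin⟩ := exists_min_image (Ico A (A + c)) (fun m : ℕ => p m - σ * m) hne
  refine ⟨n, fun hl hu => ?_⟩
  rw [mem_Ico] at hn
  have hσ : 0 < σ := lt_of_lt_of_le h0 hl
  have hb := hmin (A + a - 1) (by rw [mem_Ico]; omega)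
  have hc : ((A + a - 1 : ℕ) : ℝ) = (A : ℝ) + a - 1 := by
    rw [Nat.cast_sub (by omega)]
    push_cast
    ring
  simp only [hc] at hb
  have ha' : (0 : ℝ) ≤ a := Nat.cast_nonneg a
  have hE : (0 : ℝ) ≤ E := Nat.cast_nonneg E
  have hca : (0 : ℝ) ≤ (c : ℝ) - a := sub_nonneg.2 (Nat.cast_le.2 hac)
  have k1 : σ₀ * a ≤ σ * a := mul_le_mul_of_nonneg_right hl ha'
  have k2 : ((E : ℝ) + 1) * σ ≤ ((E : ℝ) + 1) * (σ₀ + w) :=
    mul_le_mul_of_nonneg_left hu (by linarith)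
  have k3 : σ * ((c : ℝ) - a) ≤ (σ₀ + w) * ((c : ℝ) - a) := mul_le_mul_of_nonneg_right hu hca
  refine ⟨?_, hn.2, fun m hm1 hm2 => ?_⟩
  · have k4 := h1 n hn.1
    have k5 : σ * ((A : ℝ) + E) < σ * n := by nlinarith
    have k6 : (A : ℝ) + E < n := lt_of_mul_lt_mul_left k5 hσ.le
    have k7 : A + E < n := by exact_mod_cast k6
    omega
  · by_cases hm : m < A + c
    · have k4 := hmin m (by rw [mem_Ico]; omega)
      nlinarith
    · have k4 := h3 m (by omega)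
      have k5 : (m : ℝ) ≤ (A : ℝ) + c + E := by exact_mod_cast hm2
      have k6 : σ * m ≤ σ * ((A : ℝ) + c + E) := mul_le_mul_of_nonneg_left k5 hσ.le
      nlinarith

/-- moving the slope up -/
theorem up (pm pn pn' σ δ G m n n' : ℝ) (hδ : 0 < δ) (h1 : pm - pn - σ * (m - n) ≤ G)
    (h2 : 0 ≤ pn' - pn - σ * (n' - n)) (h3 : 0 ≤ pm - pn' - (σ + δ) * (m - n')) :
    m - G / δ ≤ n' := by
  have h : δ * (m - n') ≤ G := by nlinarith
  have h' : m - n' ≤ G / δ := by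
    rw [le_div_iff₀ hδ]
    linarith
  linarith

/-- moving the slope down -/
theorem down (pm pn pn' σ δ G m n n' : ℝ) (hδ : 0 < δ) (h1 : pm - pn - (σ + δ) * (m - n) ≤ G)
    (h2 : 0 ≤ pn' - pn - (σ + δ) * (n' - n)) (h3 : 0 ≤ pm - pn' - σ * (m - n')) :
    n' ≤ m + G / δ := by
  have h : δ * (n' - m) ≤ G := by nlinarith
  have h' : n' - m ≤ G / δ := by
    rw [le_div_iff₀ hδ]
    linarith
  linarith

end GeoP

open GeoP

theorem pGeo : S_Geo := by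
  intro p A a c E x U V Δ σ₀ w G J ha hac h1 h2 h3 h0 hG hJ h4 h5 h6 h7
  choose n hn using contact p A a c E x U V Δ σ₀ w ha hac h1 h2 h3 h0 h4 h5 h6
  set δ : ℝ := 2 * G / J with hδ
  have hδ0 : 0 < δ := by positivity
  have hGδ : G / δ = J / 2 := by
    rw [hδ]
    field_simp
  set i0 : ℕ := ⌈σ₀ / δ⌉₊ with hi0
  set M : ℕ := ⌊2 * (c : ℝ) / J⌋₊ + 1 with hM
  have hc0 : (0 : ℝ) ≤ c := Nat.cast_nonneg c
  have hq : (0 : ℝ) ≤ 2 * (c : ℝ) / J := by positivity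
  have hM1 : 2 * (c : ℝ) / J < M := by
    rw [hM]
    push_cast
    exact Nat.lt_floor_add_one _
  have hM2 : (M : ℝ) ≤ 2 * (c : ℝ) / J + 1 := by
    rw [hM]
    push_cast
    linarith [Nat.floor_le hq]
  have hi1 : σ₀ ≤ i0 * δ := by
    have := Nat.le_ceil (σ₀ / δ)
    rwa [div_le_iff₀ hδ0] at this
  have hi2 : (i0 : ℝ) * δ ≤ σ₀ + δ := by
    have h := (Nat.ceil_lt_add_one (a := σ₀ / δ) (by positivity)).le
    have h' := mul_le_mul_of_nonneg_right h hδ0.le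
    rwa [add_mul, one_mul, div_mul_cancel₀ _ hδ0.ne'] at h'
  have hr : ∀ k : ℕ, k ≤ 2 * M → σ₀ ≤ ((i0 + k : ℕ) : ℝ) * δ ∧ ((i0 + k : ℕ) : ℝ) * δ ≤ σ₀ + w := by
    intro k hk
    have hk0 : (0 : ℝ) ≤ k := Nat.cast_nonneg k
    have hk1 : (k : ℝ) ≤ 2 * M := by exact_mod_cast hk
    have e : 4 * (c : ℝ) / J = 2 * (2 * (c : ℝ) / J) := by ring
    have hk2 : (k : ℝ) * δ ≤ (4 * (c : ℝ) / J + 2) * δ :=
      mul_le_mul_of_nonneg_right (by linarith) hδ0.le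
    push_cast
    constructor <;> nlinarith
  by_contra hcon
  set N : ℕ → ℕ := fun k => n (((i0 + k : ℕ) : ℝ) * δ) with hN
  have hNk : ∀ k : ℕ, k ≤ 2 * M → A + E ≤ N k ∧ N k < A + c ∧
      ∀ m : ℕ, A ≤ m → m ≤ A + c + E →
        0 ≤ p m - p (N k) - ((i0 + k : ℕ) : ℝ) * δ * ((m : ℝ) - N k) :=
    fun k hk => hn _ (hr k hk).1 (hr k hk).2
  have hs : ∀ k : ℕ, ((i0 + (k + 1) : ℕ) : ℝ) * δ = ((i0 + k : ℕ) : ℝ) * δ + δ := by
    intro k
    push_cast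
    ring
  have mono : ∀ k : ℕ, k + 1 ≤ 2 * M → (N k : ℝ) ≤ N (k + 1) := by
    intro k hk
    have a1 := hNk k (by omega)
    have a2 := hNk (k + 1) hk
    have a3 := a1.2.2 (N (k + 1)) (by omega) (by omega)
    have a4 := a2.2.2 (N k) (by omega) (by omega)
    rw [hs] at a4
    have a5 := up (p (N k)) (p (N k)) (p (N (k + 1))) _ δ 0 (N k) (N k) (N (k + 1)) hδ0
      (by simp) a3 a4
    simpa using a5
  have step : ∀ j : ℕ, j < M → (N (2 * j) : ℝ) + J / 2 ≤ N (2 * j + 1 + 1) := by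
    intro j hj
    have a0 := hNk (2 * j) (by omega)
    have a1 := hNk (2 * j + 1) (by omega)
    have a2 := hNk (2 * j + 1 + 1) (by omega)
    have m0 := mono (2 * j) (by omega)
    have m1 := mono (2 * j + 1) (by omega)
    by_contra hlt
    refine hcon ⟨i0 + (2 * j + 1), N (2 * j + 1), (hr _ (by omega)).1, (hr _ (by omega)).2,
      a1.1, a1.2.1, fun m hm1 hm2 => ⟨a1.2.2 m hm1 hm2, fun hh => ?_⟩⟩
    have b1 := a1.2.2 (N (2 * j + 1 + 1)) (by omega) (by omega)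
    have b2 := a2.2.2 m hm1 hm2
    rw [hs (2 * j + 1)] at b2
    have b3 := up _ _ _ _ δ G _ _ _ hδ0 hh b1 b2
    have c1 := a1.2.2 (N (2 * j)) (by omega) (by omega)
    have c2 := a0.2.2 m hm1 hm2
    rw [hs (2 * j)] at hh c1
    have c3 := down _ _ _ _ δ G _ _ _ hδ0 hh c1 c2
    rw [hGδ] at b3 c3
    rw [abs_le]
    constructor <;> linarith
  have tot : ∀ j : ℕ, j ≤ M → (N 0 : ℝ) + j * (J / 2) ≤ N (2 * j) := by
    intro j
    induction j with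
    | zero => intro _; simp
    | succ j ih =>
      intro hj
      have e : 2 * (j + 1) = 2 * j + 1 + 1 := by ring
      have a1 := ih (by omega)
      have a2 := step j (by omega)
      rw [e]
      push_cast
      linarith
  have f1 := tot M le_rfl
  have f2 := hNk 0 (by omega)
  have f3 := hNk (2 * M) le_rfl
  have f4 : N (2 * M) < N 0 + c := by omega
  have f5 : (N (2 * M) : ℝ) < N 0 + c := by exact_mod_cast f4
  rw [div_lt_iff₀ hJ] at hM1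
  linarith

end Pool.Agent.P.MP_0a88e3_nt.PL
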