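import Pool.Agent.P.MP_0a88e3_nt.PL.Lup
import Pool.Agent.P.MP_0ad054_nt.An.Siegel
import Pool.Agent.P.MP_0ad054_nt.An.Zfree

/-! Landau: of two coprime moduli at most one carries a real character with tiny `L(1, χ)`. -/

namespace Pool.Agent.P.MP_0a88e3_nt.PL

open Complex DirichletCharacter
open Pool.Agent.P.MP_0ad054_nt.An
open scoped ComplexOrder

namespace LandauP

lemma cond_le {q : ℕ} [NeZero q] {L : ℝ} (hL : 0 ≤ L) (hq : Real.log q ≤ L) {s : ℂ}
    (hs : s.im = 0) : MP_0ad054_nt.An.cond q s ^ (1 / (L + 1)) ≤ 3 := by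
  have q1 : (0 : ℝ) < q := by exact_mod_cast NeZero.pos q
  rw [MP_0ad054_nt.An.cond, hs, abs_zero, zero_add, Real.rpow_def_of_pos (by positivity),
    Real.log_mul q1.ne' two_ne_zero]
  refine le_trans (Real.exp_le_exp.2 ?_) (Real.exp_one_lt_d9.le.trans (by norm_num))
  rw [mul_one_div, div_le_one (by linarith)]
  linarith [Real.log_two_lt_d9]

lemma up {q : ℕ} [NeZero q] {L : ℝ} (hL : 20 ≤ L) (hq : Real.log q ≤ L)
    {χ : DirichletCharacter ℂ q} (hχ : χ ≠ 1) {x : ℝ} (hx : 0 < x) :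
    ‖LFunction χ (1 + x : ℝ)‖ ≤ 15 * L ∧
      ‖LFunction χ (1 + x : ℝ)‖ ≤ ‖LFunction χ 1‖ + 60 * L ^ 2 * x := by
  have d0 : 0 < 1 / (L + 1) := by positivity
  have d1 : 1 / (L + 1) ≤ 1 / 2 := one_div_le_one_div_of_le two_pos (by linarith)
  have h := (lupX d0 d1).1 q χ hχ
  rw [one_div_one_div] at h
  constructor
  · refine (h _ (by simp only [ofReal_re]; linarith)).trans ?_
    have := cond_le (q := q) (by linarith) hq (s := (1 + x : ℝ)) (ofReal_im _)
    nlinarith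
  · have hn := ZfreeP.nice_of (D := 20 * L ^ 2) d0 d1 (by positivity) (by
      rw [div_div_eq_mul_div, div_one]
      nlinarith) (fun w _ => differentiable_LFunction hχ w) h
    have h1 := hn.lip d0 d1 (by positivity) 1 (u := (1 + x : ℝ)) (v := 1)
      (by simp only [ofReal_re]; linarith) (by simp) (by simp only [one_re]; linarith) le_rfl
    have h2 := cond_le (q := q) (by linarith) hq (s := 1) one_im
    rw [show ((1 + x : ℝ) : ℂ) - 1 = x by push_cast; ring, norm_real, Real.norm_of_nonneg hx.le]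
      at h1
    have h3 := mul_le_mul_of_nonneg_left h2 (show 0 ≤ 20 * L ^ 2 * x by positivity)
    linarith

lemma prod_ne_one {q₁ q₂ : ℕ} [NeZero q₁] [NeZero q₂] (h : Nat.Coprime q₁ q₂)
    {χ₁ : DirichletCharacter ℂ q₁} (h1 : χ₁ ≠ 1) (χ₂ : DirichletCharacter ℂ q₂) :
    changeLevel (dvd_mul_right q₁ q₂) χ₁ * changeLevel (dvd_mul_left q₂ q₁) χ₂ ≠ 1 := by
  intro e
  obtain ⟨a, ha⟩ := MulChar.ne_one_iff.1 h1
  obtain ⟨n, n1, n2⟩ := Nat.chineseRemainder h (a : ZMod q₁).val 1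
  have e1 := SiegelP.lift_mul χ₁ χ₂ n
  rw [e, (ZMod.natCast_eq_natCast_iff _ _ _).2 n1, (ZMod.natCast_eq_natCast_iff _ _ _).2 n2,
    ZMod.natCast_zmod_val, Nat.cast_one, map_one, mul_one] at e1
  by_cases hu : IsUnit (n : ZMod (q₁ * q₂))
  · exact ha (by rw [← e1, MulChar.one_apply hu])
  · rw [MulChar.map_nonunit _ hu] at e1
    exact (a.isUnit.map χ₁).ne_zero e1.symm

end LandauP

theorem pLandau : S_Landau := by
  refine ⟨200000, fun L hL q₁ q₂ _ _ hco hlog => ?_⟩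
  by_contra hc
  simp only [GoodMod, not_or, not_forall, not_le] at hc
  obtain ⟨⟨χ₁, a1, a2, a3⟩, χ₂, b1, b2, b3⟩ := hc
  have L0 : 0 < L := by linarith
  have l1 := Real.log_natCast_nonneg q₁
  have l2 := Real.log_natCast_nonneg q₂
  set x : ℝ := 1 / L ^ 6 with hx
  have x0 : 0 < x := by positivity
  have x1 : x ≤ 1 := by
    rw [hx, div_le_one (by positivity)]
    exact one_le_pow₀ (by linarith)
  have hs : 1 < ((1 + x : ℝ) : ℂ).re := by simp only [ofReal_re]; linarith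
  have h3 := LandauP.prod_ne_one hco a1 χ₂
  have h0 := SiegelP.co_nonneg a2 b2 (SiegelP.lift_mul χ₁ χ₂)
  have h1 := (SiegelP.co_summable (χ₁ := χ₁) (χ := χ₂) (χ₃ := changeLevel (dvd_mul_right q₁ q₂) χ₁ *
    changeLevel (dvd_mul_left q₂ q₁) χ₂) hs).le_tsum 1 fun n _ => LSeries.term_nonneg (h0 n) _
  rw [LSeries.term_of_ne_zero one_ne_zero, SiegelP.co_mult.map_one, Nat.cast_one, one_cpow,
    div_one, ← LSeries, ← SiegelP.L_co hs] at h1
  have h2 := (le_def.1 h1).1.trans (re_le_norm _)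
  rw [one_re, norm_mul, norm_mul, norm_mul] at h2
  have c0 := ZfreeP.norm_L_le_two (1 : DirichletCharacter ℂ 1) x0 x1 (w := (1 + x : ℝ))
    (ofReal_re _)
  rw [LFunction_modOne_eq] at c0
  have e : 60 * L ^ 2 * x = 60 * (1 / L ^ 4) := by rw [hx]; field_simp
  have c1 := (LandauP.up (L := L) (by linarith) (by linarith) a1 x0).2
  have c2 := (LandauP.up (L := L) (by linarith) (by linarith) b1 x0).2
  have c3 := (LandauP.up (L := L) (by linarith) (by
    rw [Nat.cast_mul, Real.log_mul (Nat.cast_ne_zero.2 (NeZero.ne _))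
      (Nat.cast_ne_zero.2 (NeZero.ne _))]
    exact hlog) h3 x0).1
  have c4 := h2.trans (mul_le_mul c0 (mul_le_mul (c1.trans (show _ ≤ 61 * (1 / L ^ 4) by linarith))
    (mul_le_mul (c2.trans (show _ ≤ 61 * (1 / L ^ 4) by linarith)) c3 (norm_nonneg _)
      (by positivity)) (by positivity) (by positivity)) (by positivity) (by positivity))
  rw [show 2 / x * (61 * (1 / L ^ 4) * (61 * (1 / L ^ 4) * (15 * L))) = 111630 / L by
    rw [hx]; field_simp; norm_num, le_div_iff₀ L0] at c4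
  linarith

end Pool.Agent.P.MP_0a88e3_nt.PL
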