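import Pool.Agent.P.MP_0ad054_nt.An.Lup
import Pool.Agent.P.MP_0a88e3_nt.PL.Defs

/-! The upper bounds near the line `re s = 1` with the explicit constant `8 + 4 / δ`. -/

namespace Pool.Agent.P.MP_0a88e3_nt.PL

open Finset Complex DirichletCharacter Filter Topology
open Pool.Agent.P.MP_0ad054_nt.An Pool.Agent.P.MP_0ad054_nt.An.LupP

theorem lupX {δ : ℝ} (h0 : 0 < δ) (h1 : δ ≤ 1 / 2) :
    (∀ (q : ℕ) [NeZero q] (χ : DirichletCharacter ℂ q), χ ≠ 1 → ∀ s : ℂ, 1 - δ ≤ s.re →
      ‖LFunction χ s‖ ≤ (8 + 4 * (1 / δ)) * MP_0ad054_nt.An.cond q s ^ δ) ∧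
    ∀ s : ℂ, s ≠ 1 → 1 - δ ≤ s.re →
      ‖riemannZeta s - 1 / (s - 1)‖ ≤ (8 + 4 * (1 / δ)) * MP_0ad054_nt.An.cond 1 s ^ δ := by
  have hi : 0 < 1 / δ := by positivity
  refine ⟨fun q _ χ hχ s hs => ?_, fun s hs1 hs => ?_⟩
  · have hQ := two_le_cond (NeZero.one_le (n := q)) s
    have hP : 1 ≤ MP_0ad054_nt.An.cond q s ^ δ := Real.one_le_rpow (by linarith) h0.le
    rcases le_total s.re 2 with h2 | h2
    · obtain ⟨N, n1, -, n3, n4, n5⟩ := cut hQ h0 h1
      have hc := norm_le_cond q (s := s) (by linarith) h2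
      have b1 := norm_sub_sum_le (hasSum_tL χ hχ (s := s) (by linarith)) (K := MP_0ad054_nt.An.cond q s)
        (a := 1 - δ) (by linarith) (by linarith) (fun n =>
          (norm_tL_le χ hχ n (by linarith)).trans
            (mul_le_mul hc (rpow_mono n (by linarith)) (by positivity) (by linarith))) n1
      have b2 : ‖∑ n ∈ range N, χ ((n + 1 : ℕ) : ZMod q) * ((n : ℂ) + 1) ^ (-s)‖ ≤
          1 + (N : ℝ) ^ δ / δ := by
        refine (norm_sum_le _ _).trans ((sum_le_sum fun n _ => ?_).trans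
          (head_le h0 (by linarith) N))
        rw [norm_mul, norm_cp, neg_re]
        exact (mul_le_of_le_one_left (by positivity) (norm_le_one χ _)).trans
          (rpow_mono n (by linarith))
      have b3 : ‖PA χ N * ((N : ℂ) + 1) ^ (-s)‖ ≤ MP_0ad054_nt.An.cond q s * ((N : ℝ) + 1) ^ (δ - 1) := by
        rw [norm_mul, norm_cp, neg_re]
        refine mul_le_mul ((norm_PA_le χ hχ N).trans ?_) (rpow_mono N (by linarith))
          (by positivity) (by linarith)
        exact le_mul_of_one_le_right (Nat.cast_nonneg _) (by linarith [abs_nonneg s.im])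
      have b4 := norm_sub_norm_le (LFunction χ s) (∑ n ∈ range N, tL χ n s)
      have b5 := (sum_tL χ s N ▸ norm_sub_le _ _ : ‖∑ n ∈ range N, tL χ n s‖ ≤ _)
      have b6 : (N : ℝ) ^ δ / δ ≤ 2 * MP_0ad054_nt.An.cond q s ^ δ * (1 / δ) := by
        rw [mul_one_div]; gcongr
      nlinarith
    · have := norm_L_le χ (s := s) (by linarith)
      have h3 : 1 / (s.re - 1) ≤ 1 := by rw [div_le_one (by linarith)]; linarith
      nlinarith
  · have hQ := two_le_cond le_rfl s
    have hP : 1 ≤ MP_0ad054_nt.An.cond 1 s ^ δ := Real.one_le_rpow (by linarith) h0.le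
    have hn : 0 < ‖s - 1‖ := norm_pos_iff.2 (sub_ne_zero.2 hs1)
    rcases le_total s.re 2 with h2 | h2
    · obtain ⟨N, n1, -, n3, n4, -⟩ := cut hQ h0 h1
      have hc := norm_le_cond 1 (s := s) (by linarith) h2
      rw [Nat.cast_one, one_mul] at hc
      have b1 := norm_sub_sum_le (hasSum_tZ (s := s) (by linarith)) (K := ‖s - 1‖ * MP_0ad054_nt.An.cond 1 s)
        (a := 1 - δ) (by positivity) (by linarith) (fun n =>
          (norm_tZ_le₁ n (by linarith)).trans
            (mul_le_mul (by gcongr) (rpow_mono n (by linarith)) (by positivity) (by positivity))) n1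
      have b2 : ‖∑ n ∈ range N, tZ n s‖ ≤ ‖s - 1‖ * (2 * (1 + (N : ℝ) ^ δ / δ)) := by
        refine (norm_sum_le _ _).trans ((sum_le_sum fun n _ => norm_tZ_le₂ n (by linarith)).trans ?_)
        rw [← mul_sum, ← mul_sum]
        gcongr
        exact (sum_le_sum fun n _ => rpow_mono n (by linarith)).trans (head_le h0 (by linarith) N)
      have b4 := norm_sub_norm_le (Zf s - 1) (∑ n ∈ range N, tZ n s)
      have b6 : (N : ℝ) ^ δ / δ ≤ 2 * MP_0ad054_nt.An.cond 1 s ^ δ * (1 / δ) := by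
        rw [mul_one_div]; gcongr
      have e : riemannZeta s - 1 / (s - 1) = (Zf s - 1) / (s - 1) := by
        rw [Zf_eq hs1, sub_div, mul_div_cancel_left₀ _ (sub_ne_zero.2 hs1)]
      rw [e, norm_div, div_le_iff₀' hn]
      rw [mul_assoc] at b1
      have b7 : 2 * (1 + (N : ℝ) ^ δ / δ) + MP_0ad054_nt.An.cond 1 s * ((N : ℝ) ^ (-(1 - δ)) / (1 - δ)) ≤
          (8 + 4 * (1 / δ)) * MP_0ad054_nt.An.cond 1 s ^ δ := by nlinarith
      nlinarith [mul_le_mul_of_nonneg_left b7 hn.le]
    · have := norm_L_le (1 : DirichletCharacter ℂ 1) (s := s) (by linarith)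
      rw [LFunction_modOne_eq] at this
      have h3 : 1 / (s.re - 1) ≤ 1 := by rw [div_le_one (by linarith)]; linarith
      have h4 : ‖1 / (s - 1)‖ ≤ 1 := by
        rw [norm_div, norm_one, div_le_one hn]
        have := re_le_norm (s - 1)
        rw [sub_re, one_re] at this
        linarith
      nlinarith [norm_sub_le (riemannZeta s) (1 / (s - 1))]


end Pool.Agent.P.MP_0a88e3_nt.PL
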