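import Pool.Agent.P.MP_0ad054_nt.An.Zfree
import Pool.Agent.P.MP_0ad054_nt.An.Tauber
import Pool.Agent.P.MP_0a88e3_nt.PL.Lup

/-! Twisted Chebyshev sums with an exponential saving. -/

namespace Pool.Agent.P.MP_0a88e3_nt.PL

open Finset Complex DirichletCharacter Filter Topology
open Pool.Agent.P.MP_0ad054_nt.An Pool.Agent.P.MP_0ad054_nt.An.LupP
  Pool.Agent.P.MP_0ad054_nt.An.ZfreeP
open scoped ArithmeticFunction.vonMangoldt

namespace PsiP

lemma prod_le (S : Finset ℕ) : (∀ p ∈ S, 0 < p) →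
    ∏ p ∈ S, (1 + 1 / (p : ℝ)) ≤ S.card + 1 := by
  induction S using Finset.induction_on_max with
  | empty => simp
  | insert a S ha ih =>
    intro h
    have hn : a ∉ S := fun e => lt_irrefl _ (ha a e)
    have h1 := ih fun p hp => h p (mem_insert_of_mem hp)
    have a0 : 0 < a := h a (mem_insert_self _ _)
    have h2 : S.card + 1 ≤ a := by
      have : S ⊆ Ico 1 a := fun p hp => mem_Ico.2 ⟨h p (mem_insert_of_mem hp), ha p hp⟩
      have := card_le_card this
      rw [Nat.card_Ico] at this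
      omega
    have h3 : (S.card : ℝ) + 1 ≤ a := by exact_mod_cast h2
    have a1 : (0 : ℝ) < a := by exact_mod_cast a0
    rw [prod_insert hn, card_insert_of_notMem hn]
    push_cast
    have h4 : 1 / (a : ℝ) * (S.card + 1) ≤ 1 := by
      rw [one_div_mul_eq_div, div_le_one a1]; exact h3
    calc _ ≤ (1 + 1 / (a : ℝ)) * (S.card + 1) := by gcongr
      _ ≤ _ := by linarith

lemma omega_le {q : ℕ} (hq : q ≠ 0) {L : ℝ} (h : Real.log q ≤ L) :
    (q.primeFactors.card : ℝ) ≤ 2 * L := by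
  have h1 : 2 ^ q.primeFactors.card ≤ q := by
    refine le_trans ?_ (Nat.le_of_dvd (Nat.pos_of_ne_zero hq) (Nat.prod_primeFactors_dvd q))
    exact pow_card_le_prod _ _ _ fun p hp => (Nat.prime_of_mem_primeFactors hp).two_le
  have h2 : (2 : ℝ) ^ q.primeFactors.card ≤ q := by exact_mod_cast h1
  have h3 := Real.log_le_log (by positivity) h2
  rw [Real.log_pow] at h3
  have h4 := Real.log_two_gt_d9
  nlinarith [Nat.cast_nonneg (α := ℝ) q.primeFactors.card]

lemma triv_le' {L d : ℝ} (hL : 1000 ≤ L) (hd : d = 1 / (5 * L)) (q : ℕ) [NeZero q]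
    (hq : Real.log q ≤ L) (s : ℂ) (x t : ℝ) (hx : 0 < x) (hx' : x ≤ 1) (t0 : 0 < t) (t1 : t ≤ 1)
    (ht : t ≤ |s.im| ∨ t ≤ x) :
    ‖LFunction (1 : DirichletCharacter ℂ q) (1 + x + 2 * I * s.im)‖ ≤
      L ^ 3 * (MP_0ad054_nt.An.cond q s ^ d) ^ 2 / t := by
  have h0 : 0 < d := by rw [hd]; positivity
  have h1 : d ≤ 1 / 2 := by rw [hd]; exact one_div_le_one_div_of_le (by norm_num) (by linarith)
  have hC := (lupX h0 h1).2
  have e : 8 + 4 * (1 / d) = 8 + 20 * L := by rw [hd, one_div_one_div]; ring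
  rw [e] at hC
  obtain ⟨C, hCe⟩ : ∃ C, C = 8 + 20 * L := ⟨_, rfl⟩
  rw [← hCe] at hC
  have C0 : 0 < C := by rw [hCe]; linarith
  have hP := one_le_P (NeZero.one_le (n := q)) h0.le s
  have p2 : 1 ≤ (MP_0ad054_nt.An.cond q s ^ d) ^ 2 := one_le_pow₀ hP
  set w : ℂ := 1 + x + 2 * I * s.im with hw
  have w1 : w.re = 1 + x := by simp [hw]
  have w2 : w.im = 2 * s.im := by simp [hw]
  have LL : 1000 * L ^ 2 ≤ L ^ 3 := by nlinarith [sq_nonneg L]
  have LL' : 1000 * L ≤ L ^ 2 := by nlinarith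
  have L3 : (2 * L + 1) * (1 + 2 * C) ≤ L ^ 3 := by rw [hCe]; nlinarith
  rcases ht with ht | ht
  · have w3 : w ≠ 1 := by
      intro e
      rw [e, one_re] at w1
      linarith
    have a1 : ‖∏ p ∈ q.primeFactors, (1 - (p : ℂ) ^ (-w))‖ ≤ 2 * L + 1 := by
      rw [norm_prod]
      refine le_trans ?_ ((prod_le q.primeFactors fun p hp =>
        (Nat.prime_of_mem_primeFactors hp).pos).trans
        (by linarith [omega_le (NeZero.ne q) hq]))
      refine prod_le_prod (fun _ _ => norm_nonneg _) fun p hp => (norm_sub_le _ _).trans ?_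
      have := (Nat.prime_of_mem_primeFactors hp).pos
      rw [norm_one, norm_natCast_cpow_of_pos this, one_div, ← Real.rpow_neg_one]
      have b := Real.rpow_le_rpow_of_exponent_le (x := p) (y := (-w).re) (z := -1)
        (by exact_mod_cast this) (by rw [neg_re]; linarith)
      linarith
    have a2 : ‖1 / (w - 1)‖ ≤ 1 / t := by
      rw [norm_div, norm_one]
      refine one_div_le_one_div_of_le t0 (le_trans ?_ (abs_im_le_norm _))
      rw [sub_im, w2, one_im, sub_zero, abs_mul, abs_two]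
      linarith
    have a3 : MP_0ad054_nt.An.cond 1 w ^ d ≤ 2 * MP_0ad054_nt.An.cond q s ^ d := by
      refine le_trans (Real.rpow_le_rpow (by unfold MP_0ad054_nt.An.cond; positivity) ?_ h0.le)
        (cond_rpow_le_two (w := w) h0.le (by linarith) (by rw [w2, abs_mul, abs_two]; linarith))
      unfold MP_0ad054_nt.An.cond
      gcongr
      exact NeZero.one_le
    have a4 : ‖riemannZeta w‖ ≤ (1 + 2 * C) * MP_0ad054_nt.An.cond q s ^ d / t := by
      have b1 := hC w w3 (by linarith)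
      have b2 := norm_sub_norm_le (riemannZeta w) (1 / (w - 1))
      have b3 : 1 ≤ 1 / t := by rw [le_div_iff₀ t0]; linarith
      have b4 := mul_le_mul_of_nonneg_left a3 C0.le
      rw [div_eq_mul_one_div]
      nlinarith [mul_le_mul_of_nonneg_left b3
        (show 0 ≤ C * MP_0ad054_nt.An.cond q s ^ d by positivity)]
    have := LFunctionTrivChar_eq_mul_riemannZeta (N := q) w3
    rw [LFunctionTrivChar] at this
    rw [this, norm_mul]
    refine (mul_le_mul a1 a4 (norm_nonneg _) (by positivity)).trans ?_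
    rw [← mul_div_assoc]
    gcongr ?_ / t
    rw [← mul_assoc]
    exact mul_le_mul L3 (by nlinarith) (by positivity) (by positivity)
  · refine (norm_L_le_two _ hx hx' w1).trans
      ((div_le_div_of_nonneg_left zero_le_two t0 ht).trans ?_)
    gcongr ?_ / t
    have : 2 ≤ L ^ 3 := by nlinarith
    nlinarith

lemma cond_le {L : ℝ} (hL : 1000 ≤ L) {q : ℕ} (hq0 : 1 ≤ q) (hq : Real.log q ≤ L) {s : ℂ}
    (hs : |s.im| ≤ Real.exp (3 * L)) : MP_0ad054_nt.An.cond q s ≤ Real.exp (5 * L) := by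
  have q1 : (1 : ℝ) ≤ q := by exact_mod_cast hq0
  have h1 : (q : ℝ) ≤ Real.exp L := by
    rw [← Real.exp_log (show (0 : ℝ) < q by linarith)]
    exact Real.exp_le_exp.2 hq
  have h2 : L + 1 ≤ Real.exp L := Real.add_one_le_exp L
  have h3 : 1 ≤ Real.exp (3 * L) := Real.one_le_exp (by linarith)
  rw [show 5 * L = L + (L + 3 * L) by ring, Real.exp_add, Real.exp_add]
  unfold MP_0ad054_nt.An.cond
  refine mul_le_mul h1 ?_ (by positivity) (by positivity)
  nlinarith

lemma region {L : ℝ} (hL : 1000 ≤ L) (q : ℕ) [NeZero q] (χ : DirichletCharacter ℂ q)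
    (hχ : χ ≠ 1) (hq : Real.log q ≤ L) (hS : χ ^ 2 = 1 → 1 / L ^ 4 ≤ ‖LFunction χ 1‖) (s : ℂ)
    (s1 : 1 - 1 / L ^ 225 ≤ s.re) (s2 : s.re ≤ 2) (s3 : |s.im| ≤ Real.exp (3 * L)) :
    LFunction χ s ≠ 0 ∧ ‖deriv (LFunction χ) s / LFunction χ s‖ ≤ L ^ 228 := by
  obtain ⟨d, hd⟩ : ∃ d : ℝ, d = 1 / (5 * L) := ⟨_, rfl⟩
  have L0 : 0 < L := by linarith
  have L1 : 1 ≤ L := by linarith
  have d0 : 0 < d := by rw [hd]; positivity
  have d1 : d ≤ 1 / 2 := by rw [hd]; exact one_div_le_one_div_of_le (by norm_num) (by linarith)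
  have hC := (lupX d0 d1).1
  have e : 8 + 4 * (1 / d) = 8 + 20 * L := by rw [hd, one_div_one_div]; ring
  rw [e] at hC
  have hq1 := NeZero.one_le (n := q)
  have hP := one_le_P hq1 d0.le s
  have hQ := two_le_cond hq1 s
  have LL : 1000 * L ^ 2 ≤ L ^ 3 := by nlinarith [sq_nonneg L]
  have LL' : 1000 * L ≤ L ^ 2 := by nlinarith
  have D0 : 4 * (8 + 20 * L) / d ≤ L ^ 3 := by
    rw [hd, div_div_eq_mul_div, div_one]; nlinarith
  have D1 : 2 / d ≤ L ^ 3 := le_trans (by gcongr; linarith) D0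
  have D2 : 1 ≤ L ^ 3 := one_le_pow₀ L1
  have c0 : 0 < 1 / L ^ 4 := by positivity
  have c1 : 1 / L ^ 4 ≤ 1 := by rw [div_le_one (by positivity)]; exact one_le_pow₀ L1
  obtain ⟨E, hE⟩ : ∃ E, E = L ^ 3 * (4 * L ^ 3 / (1 / L ^ 4)) ^ 5 := ⟨_, rfl⟩
  have hE' : E = 1024 * L ^ 38 := by rw [hE]; field_simp; norm_num
  have E0 : L ^ 3 ≤ L ^ 38 := pow_le_pow_right₀ L1 (by norm_num)
  have E1 : L ^ 3 ≤ E := by rw [hE']; linarith
  have E2 : 1 ≤ E := by linarith
  have E3 : 8 * E * L ^ 3 ≤ L ^ 43 := by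
    rw [hE', show L ^ 43 = L ^ 2 * L ^ 41 by ring,
      show 8 * (1024 * L ^ 38) * L ^ 3 = 8192 * L ^ 41 by ring]
    exact mul_le_mul_of_nonneg_right (by linarith) (by positivity)
  have E4 : (8 * E * L ^ 3) ^ 4 ≤ L ^ 172 :=
    (pow_le_pow_left₀ (by positivity) E3 4).trans (le_of_eq (by ring))
  have P1 : MP_0ad054_nt.An.cond q s ^ (53 * d) ≤ L ^ 53 := by
    refine (Real.rpow_le_rpow (by linarith) (cond_le hL hq1 hq s3) (by positivity)).trans ?_
    rw [← Real.exp_mul, show 5 * L * (53 * d) = (53 : ℕ) * 1 by rw [hd]; field_simp; norm_num,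
      Real.exp_nat_mul]
    exact pow_le_pow_left₀ (by positivity) (by linarith [Real.exp_one_lt_d9]) 53
  have hN : Nice (LFunction χ) q d (L ^ 3) := nice_of d0 d1 (by linarith) D0
    (fun w _ => differentiable_LFunction hχ w) (hC q χ hχ)
  have A2 : 1 / L ^ 172 * (8 * E * L ^ 3) ^ 4 ≤ 1 := by
    rw [one_div_mul_eq_div, div_le_one (by positivity)]; exact E4
  have s4 : 1 - 1 / L ^ 172 * MP_0ad054_nt.An.cond q s ^ (-(53 * d)) ≤ s.re := by
    refine le_trans (sub_le_sub_left ?_ 1) s1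
    rw [Real.rpow_neg (by linarith), show 1 / L ^ 225 = 1 / L ^ 172 * (L ^ 53)⁻¹ by field_simp]
    exact mul_le_mul_of_nonneg_left (inv_anti₀ (by positivity) P1) (by positivity)
  refine (hN.fin d0 d1 hq1 D1 E2 le_rfl A2 (fun x hx hx' => ?_) s4 s2).imp_right fun a2 => ?_
  swap
  · refine a2.trans ?_
    calc _ ≤ L ^ 3 * L ^ 172 * L ^ 53 := by gcongr
      _ = _ := by ring
  by_cases hc : χ ^ 2 = 1
  · rw [hE]
    refine hN.low d0 d1 hq1 D2 D2 c0 c1 ?_ hx hx' fun t t0 t1 ht => ?_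
    · exact (div_le_self c0.le hP).trans (hS hc)
    · have a := three41 χ hx hx' (hc ▸ triv_le' hL hd q hq s x t hx hx' t0 t1 ht)
      rw [mul_div_assoc', div_mul_eq_mul_div, le_div_iff₀ t0] at a
      calc x ^ 3 * t ^ 5 ≤ x ^ 3 * t := by
            gcongr
            exact pow_le_of_le_one t0.le t1 (by norm_num)
        _ ≤ _ := a
  · refine three41 χ hx hx' ((hC q _ hc _ (by simp; linarith)).trans ?_)
    have a := cond_rpow_le_two (q := q) (s := s) (w := 1 + x + 2 * I * s.im) d0.le (by linarith)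
      (by simp [abs_mul])
    calc _ ≤ (8 + 20 * L) * (2 * MP_0ad054_nt.An.cond q s ^ d) := by gcongr
      _ = 2 * (8 + 20 * L) * (MP_0ad054_nt.An.cond q s ^ d) ^ 1 := by ring
      _ ≤ _ := by
        refine mul_le_mul (by linarith) (pow_le_pow_right₀ hP (by norm_num)) (by positivity)
          (by positivity)

lemma exp_big (k : ℕ) : ∃ K : ℝ, 0 < K ∧ ∀ L : ℝ, K ≤ L → 1 ≤ L → 1 + L ^ k ≤ Real.exp L := by
  refine ⟨2 * (k + 1).factorial, by positivity, fun L h h1 => ?_⟩
  refine le_trans ?_ (Real.pow_div_factorial_le_exp L (by linarith) (k + 1))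
  rw [le_div_iff₀ (by positivity), pow_succ]
  have a : 1 ≤ L ^ k := one_le_pow₀ h1
  have b : (0 : ℝ) < (k + 1).factorial := by positivity
  nlinarith

end PsiP

open PsiP

theorem pPsi : S_Psi := by
  obtain ⟨C0, hC0, hT⟩ := tauber
  obtain ⟨K, hK0, hK⟩ := exp_big 228
  refine ⟨227, 4 * C0 + K + 1000, by linarith, fun q _ χ L Y hχ hL hq hS hY => ?_⟩
  have L0 : 1000 ≤ L := by linarith
  have L1 : 1 ≤ L := by linarith
  have hB := hK L (by linarith) L1
  have a1 : L ≤ L ^ 227 := le_self_pow₀ L1 (by norm_num)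
  have Y0 : (0 : ℝ) < Y := by
    rcases Nat.eq_zero_or_pos Y with rfl | h
    · simp only [Nat.cast_zero, Real.log_zero] at hY
      linarith
    · exact_mod_cast h
  have Y3 : 3 ≤ Y := by
    have := Real.log_le_sub_one_of_pos Y0
    have h : (3 : ℝ) ≤ Y := by linarith
    exact_mod_cast h
  have r0 : 0 < 1 / L ^ 225 := by positivity
  have r1 : 1 / L ^ 225 ≤ 1 / 2 :=
    one_div_le_one_div_of_le (by norm_num)
      (le_trans (by linarith) (le_self_pow₀ L1 (by norm_num)))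
  have hd := differentiable_LFunction hχ
  have h := hT (fun n => (Λ n : ℂ) * χ n) (fun s => -(deriv (LFunction χ) s / LFunction χ s))
    (1 / L ^ 225) (Real.exp (3 * L)) (L ^ 228) (Real.exp (-L)) Y (fun n _ => ?_) r0 r1
    (Real.one_le_exp (by linarith)) (by positivity) (Real.exp_pos _)
    (Real.exp_le_one_iff.2 (by linarith)) Y3
    (fun s hs => (((hd.deriv s).div (hd s)
      (region L0 q χ hχ hq hS s hs.1 hs.2.1 hs.2.2).1).neg).differentiableWithinAt)
    (fun s hs => ?_) fun s h1 h2 h3 => ?_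
  · refine h.trans ?_
    have b1 : (Y : ℝ) ^ (-(1 / L ^ 225)) ≤ Real.exp (-(3 * L)) := by
      rw [Real.rpow_def_of_pos Y0, Real.exp_le_exp, mul_neg, neg_le_neg_iff, mul_one_div,
        le_div_iff₀ (by positivity)]
      refine le_trans ?_ hY
      rw [show L ^ 227 = L ^ 2 * L ^ 225 by ring]
      exact mul_le_mul_of_nonneg_right (by nlinarith) (by positivity)
    have b2 : 1 / Real.exp (3 * L) = Real.exp (-(3 * L)) := by rw [one_div, Real.exp_neg]
    have b3 : (1 + L ^ 228) * ((Y : ℝ) ^ (-(1 / L ^ 225)) + 1 / Real.exp (3 * L)) /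
        Real.exp (-L) ≤ 2 * Real.exp (-L) := by
      rw [b2, div_le_iff₀ (Real.exp_pos _)]
      calc _ ≤ Real.exp L * (Real.exp (-(3 * L)) + Real.exp (-(3 * L))) := by gcongr
        _ = 2 * (Real.exp L * Real.exp (-(3 * L))) := by ring
        _ = _ := by
          rw [mul_assoc, ← Real.exp_add, ← Real.exp_add]
          congr 2
          ring
    have b4 : 1 ≤ Y * Real.exp (-L) := by
      rw [Real.exp_neg, ← div_eq_mul_inv, one_le_div (Real.exp_pos _), ← Real.exp_log Y0]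
      exact Real.exp_le_exp.2 (by linarith)
    have b5 : 0 ≤ Y * Real.log Y ^ 2 * Real.exp (-L) := by positivity
    calc _ ≤ C0 * (Y * (Real.exp (-L) + 2 * Real.exp (-L)) + Y * Real.exp (-L)) *
          Real.log Y ^ 2 := by gcongr
      _ = 4 * C0 * (Y * Real.log Y ^ 2 * Real.exp (-L)) := by ring
      _ ≤ (4 * C0 + K + 1000) * (Y * Real.log Y ^ 2 * Real.exp (-L)) := by
          gcongr
          linarith
      _ = _ := by ring
  · rw [norm_mul, norm_real, Real.norm_eq_abs, abs_of_nonneg ArithmeticFunction.vonMangoldt_nonneg]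
    have h1 := χ.norm_le_one (n : ZMod q)
    have h2 := ArithmeticFunction.vonMangoldt_le_log (n := n)
    have h3 := ArithmeticFunction.vonMangoldt_nonneg (n := n)
    nlinarith
  · rw [deriv_LFunction_eq_deriv_LSeries χ hs, LFunction_eq_LSeries χ hs, ← neg_div,
      ← LSeries_twist_vonMangoldt_eq χ hs]
    congr 1
    funext n
    simp [mul_comm]
  · rw [norm_neg]
    exact (region L0 q χ hχ hq hS s h1 h2 h3).2

end Pool.Agent.P.MP_0a88e3_nt.PL
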