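import Pool.Agent.P.MP_746f10_nt.FL
import Pool.Agent.P.MP_0a88e3_nt.PL.Defs

/-! The upper bound sieve for prime tuples along an arithmetic progression. -/

namespace Pool.Agent.P.MP_0a88e3_nt.PL

open Finset
open Pool.Agent.P.MP_746f10_nt

namespace TupP

/-- the number of shifts `h` with `p` dividing `r Q + h` -/
noncomputable def xx (Hs : Finset ℤ) (Q r p : ℕ) : ℝ :=
  ∑ h ∈ Hs, if (p : ℤ) ∣ (r : ℤ) * Q + h then 1 else 0

lemma exists_class {p Q : ℕ} (hp : p.Prime) (hQ : ¬ p ∣ Q) (h : ℤ) :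
    ∃ c : ℕ, ∀ r : ℕ, (p : ℤ) ∣ (r : ℤ) * Q + h ↔ r ≡ c [MOD p] := by
  haveI := Fact.mk hp
  have hQ' : (Q : ZMod p) ≠ 0 := fun e => hQ ((ZMod.natCast_eq_zero_iff Q p).1 e)
  refine ⟨(-(h : ZMod p) / Q).val, fun r => ?_⟩
  rw [← ZMod.intCast_zmod_eq_zero_iff_dvd, ← ZMod.natCast_eq_natCast_iff, ZMod.natCast_zmod_val,
    eq_div_iff hQ', eq_neg_iff_add_eq_zero]
  push_cast
  rfl

lemma count_T (Hs : Finset ℤ) (Q : ℕ) {A B : ℕ} (hAB : A ≤ B) (T : Finset ℕ) :
    (∀ p ∈ T, p.Prime ∧ ¬ p ∣ Q) → ∀ q c : ℕ, 0 < q → (∀ p ∈ T, Nat.Coprime q p) →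
    |∑ r ∈ Ico A B, (if r ≡ c [MOD q] then (1 : ℝ) else 0) * ∏ p ∈ T, xx Hs Q r p -
      ((B : ℝ) - A) / q * ∏ p ∈ T, ((Hs.card : ℝ) / p)| ≤ (Hs.card : ℝ) ^ T.card := by
  induction T using Finset.induction_on with
  | empty =>
    intro _ q c hq _
    simpa using count_class hq c hAB
  | insert p T hpT ih =>
    intro hT q c hq hc
    obtain ⟨hp, hpQ⟩ := hT p (mem_insert_self _ _)
    have hT' : ∀ l ∈ T, l.Prime ∧ ¬ l ∣ Q := fun l hl => hT l (mem_insert_of_mem hl)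
    have hqp := hc p (mem_insert_self _ _)
    have hc' : ∀ l ∈ T, Nat.Coprime (q * p) l := fun l hl =>
      Nat.Coprime.mul_left (hc l (mem_insert_of_mem hl))
        ((Nat.coprime_primes hp (hT' l hl).1).2 fun e => hpT (e ▸ hl))
    choose cl hcl using exists_class hp hpQ
    have key : ∀ (h : ℤ) (r : ℕ), (if r ≡ c [MOD q] then (1 : ℝ) else 0) *
        (if (p : ℤ) ∣ (r : ℤ) * Q + h then 1 else 0) =
        if r ≡ (Nat.chineseRemainder hqp c (cl h) : ℕ) [MOD q * p] then 1 else 0 := by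
      intro h r
      have h2 := (Nat.chineseRemainder hqp c (cl h)).2
      have h3 : r ≡ (Nat.chineseRemainder hqp c (cl h) : ℕ) [MOD q * p] ↔
          r ≡ c [MOD q] ∧ (p : ℤ) ∣ (r : ℤ) * Q + h := by
        rw [← Nat.modEq_and_modEq_iff_modEq_mul hqp, hcl]
        exact ⟨fun e => ⟨e.1.trans h2.1, e.2.trans h2.2⟩,
          fun e => ⟨e.1.trans h2.1.symm, e.2.trans h2.2.symm⟩⟩
      simp only [h3]
      by_cases e1 : r ≡ c [MOD q] <;> by_cases e2 : (p : ℤ) ∣ (r : ℤ) * Q + h <;> simp [e1, e2]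
    have e : ∑ r ∈ Ico A B, (if r ≡ c [MOD q] then (1 : ℝ) else 0) *
          ∏ l ∈ insert p T, xx Hs Q r l -
        ((B : ℝ) - A) / q * ∏ l ∈ insert p T, ((Hs.card : ℝ) / l) =
        ∑ h ∈ Hs, (∑ r ∈ Ico A B,
          (if r ≡ (Nat.chineseRemainder hqp c (cl h) : ℕ) [MOD q * p] then (1 : ℝ) else 0) *
            ∏ l ∈ T, xx Hs Q r l -
          ((B : ℝ) - A) / ((q * p : ℕ) : ℝ) * ∏ l ∈ T, ((Hs.card : ℝ) / l)) := by
      rw [sum_sub_distrib, sum_comm, sum_const, nsmul_eq_mul, prod_insert hpT]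
      congr 1
      · refine sum_congr rfl fun r _ => ?_
        rw [prod_insert hpT, ← sum_mul, ← mul_assoc]
        congr 1
        rw [xx, mul_sum]
        exact sum_congr rfl fun h _ => key h r
      · push_cast
        ring
    rw [e, card_insert_of_notMem hpT, pow_succ']
    refine (abs_sum_le_sum_abs _ _).trans ?_
    have := sum_le_card_nsmul Hs _ _ fun h _ =>
      ih hT' (q * p) (Nat.chineseRemainder hqp c (cl h) : ℕ) (Nat.mul_pos hq hp.pos) hc'
    rwa [nsmul_eq_mul] at this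

lemma xx_mem {Hs : Finset ℤ} {y : ℕ} (hH : ∀ h ∈ Hs, ∀ h' ∈ Hs, |h - h'| ≤ y) (Q r : ℕ) {p : ℕ}
    (hp : y < p) : 0 ≤ xx Hs Q r p ∧ xx Hs Q r p ≤ 1 := by
  rw [xx, sum_boole]
  refine ⟨Nat.cast_nonneg _, ?_⟩
  have : (Hs.filter fun h => (p : ℤ) ∣ (r : ℤ) * Q + h).card ≤ 1 := by
    refine card_le_one.2 fun a ha b hb => ?_
    obtain ⟨a1, a2⟩ := mem_filter.1 ha
    obtain ⟨b1, b2⟩ := mem_filter.1 hb
    have h1 : (p : ℤ) ∣ a - b := by
      have := dvd_sub a2 b2
      rwa [add_sub_add_left_eq_sub] at this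
    have h2 := hH a a1 b b1
    have h3 : |a - b| < p := h2.trans_lt (by exact_mod_cast hp)
    exact sub_eq_zero.1 (Int.eq_zero_of_abs_lt_dvd h1 h3)
  exact_mod_cast this

lemma small_rows (Hs : Finset ℤ) {Q : ℕ} (hQ : 1 ≤ Q) (S : Finset ℕ) (z : ℕ) :
    (S.filter fun r : ℕ => ∃ h ∈ Hs, |(r : ℤ) * Q + h| ≤ z).card ≤ Hs.card * (2 * z + 1) := by
  have h1 : (S.filter fun r : ℕ => ∃ h ∈ Hs, |(r : ℤ) * Q + h| ≤ z) ⊆
      Hs.biUnion fun h => S.filter fun r : ℕ => |(r : ℤ) * Q + h| ≤ z := by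
    intro r hr
    obtain ⟨h2, h, h3, h4⟩ := mem_filter.1 hr
    exact mem_biUnion.2 ⟨h, h3, mem_filter.2 ⟨h2, h4⟩⟩
  refine (card_le_card h1).trans (card_biUnion_le_card_mul _ _ _ fun h _ => ?_)
  have h2 : (S.filter fun r : ℕ => |(r : ℤ) * Q + h| ≤ z).card ≤ (Icc (-(z : ℤ)) z).card := by
    refine card_le_card_of_injOn (fun r => (r : ℤ) * Q + h) ?_ ?_
    · intro r hr
      have := (mem_filter.1 (mem_coe.1 hr)).2
      exact mem_coe.2 (mem_Icc.2 (abs_le.1 this))
    · intro r _ s _ e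
      have hQ' : (Q : ℤ) ≠ 0 := by exact_mod_cast (by omega : Q ≠ 0)
      have := mul_right_cancel₀ hQ' (add_right_cancel e)
      exact_mod_cast this
  rw [Int.card_Icc] at h2
  omega

lemma prod_le {m y z : ℕ} (hy : 2 ≤ y) (hm : m ≤ y) (hz : y ≤ z) :
    ∏ p ∈ PP y z, (1 - (m : ℝ) / p) ≤ (CM * Real.log y / Real.log z) ^ m := by
  have hz' : (1 : ℝ) < z := by exact_mod_cast (by omega : 1 < z)
  have hl : 0 < Real.log z := Real.log_pos hz'
  have h1 : ∏ p ∈ PP y z, (1 - 1 / (p : ℝ)) ≤ CM * Real.log y / Real.log z := by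
    have h2 : VV z = VV y * ∏ p ∈ PP y z, (1 - 1 / (p : ℝ)) := prod_PP_split (Nat.zero_le y) hz _
    have h3 := VV_pos y
    have h4 := inv_VV_le y hy
    have h5 := VV_mul_log_le' z
    have h6 : ∏ p ∈ PP y z, (1 - 1 / (p : ℝ)) = (VV y)⁻¹ * VV z := by rw [h2]; field_simp
    rw [h6, le_div_iff₀ hl, mul_assoc]
    have h7 : 0 ≤ (VV y)⁻¹ := by positivity
    exact (mul_le_of_le_one_right h7 h5).trans h4
  calc ∏ p ∈ PP y z, (1 - (m : ℝ) / p) ≤ ∏ p ∈ PP y z, (1 - 1 / (p : ℝ)) ^ m := by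
        refine prod_le_prod (fun p hp => ?_) fun p hp => ?_
        · have h2 := PP_two hp
          have h3 : (m : ℝ) ≤ p := by exact_mod_cast hm.trans (mem_PP.1 hp).1.le
          rw [sub_nonneg, div_le_one (by linarith)]
          exact h3
        · have h2 := one_sub_inv_pos (PP_two hp)
          have h3 := one_add_mul_le_pow (a := -(1 / (p : ℝ))) (by linarith) m
          rw [← sub_eq_add_neg] at h3
          refine le_trans (le_of_eq ?_) h3
          ring
    _ = (∏ p ∈ PP y z, (1 - 1 / (p : ℝ))) ^ m := prod_pow _ _ _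
    _ ≤ _ := pow_le_pow_left₀ (prod_nonneg fun p hp => (one_sub_inv_pos (PP_two hp)).le) h1 m

open Classical in
lemma sieve_bound {m₀ D : ℕ} {Hs : Finset ℤ} {Q R y z : ℕ} (s : SieveW (PP y z) D m₀ (1 / 2 ^ 0))
    (hm : Hs.card ≤ m₀) (hQ : 1 ≤ Q) (hy : 2 * m₀ + 2 ≤ y) (hz : y ≤ z)
    (hH : ∀ h ∈ Hs, ∀ h' ∈ Hs, |h - h'| ≤ y) (hQy : ∀ p : ℕ, p.Prime → p ∣ Q → p ≤ y) :
    (((Ico R (2 * R)).filter fun r : ℕ => ∀ h ∈ Hs, Prime ((r : ℤ) * Q + h)).card : ℝ) ≤
      m₀ * (2 * z + 1) + (2 * (R * (CM * Real.log y / Real.log z) ^ Hs.card) + D * D) := by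
  have hx : ∀ r : ℕ, ∀ p ∈ PP y z, 0 ≤ xx Hs Q r p ∧ xx Hs Q r p ≤ 1 :=
    fun r p hp => xx_mem hH Q r (mem_PP.1 hp).1
  have hmR : (Hs.card : ℝ) ≤ m₀ := by exact_mod_cast hm
  have h1 := s.upper (fun p hp => PP_prime hp) (Ico R (2 * R)) (fun _ => 1) (xx Hs Q)
    (fun p => (Hs.card : ℝ) / p) R D (Nat.cast_nonneg _) (Nat.cast_nonneg _)
    (fun p hp => by
      have h2 := PP_two hp
      have h3 : (2 * m₀ : ℝ) ≤ p := by
        have := (mem_PP.1 hp).1
        exact_mod_cast (by omega : 2 * m₀ ≤ p)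
      refine ⟨by positivity, by gcongr, ?_⟩
      rw [div_le_iff₀ (by linarith)]
      linarith)
    (fun T hT hD => by
      have h2 := count_T Hs Q (by omega : R ≤ 2 * R) T
        (fun p hp => ⟨PP_prime (hT hp), fun e => by
          have := hQy p (PP_prime (hT hp)) e
          have := (mem_PP.1 (hT hp)).1
          omega⟩) 1 0 one_pos (fun p _ => Nat.coprime_one_left p)
      have h3 : Hs.card ^ T.card ≤ D := by
        refine le_trans ?_ hD
        rw [← prod_const]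
        refine prod_le_prod' fun p hp => ?_
        have := (mem_PP.1 (hT hp)).1
        omega
      have h4 : (Hs.card : ℝ) ^ T.card ≤ D := by exact_mod_cast h3
      simp only [Nat.modEq_one, if_true] at h2
      refine le_trans (le_of_eq ?_) (h2.trans h4)
      congr 2
      push_cast
      ring)
  have h2 := prod_le (m := Hs.card) (by omega : 2 ≤ y) (by omega) hz
  have h3 := small_rows Hs hQ (Ico R (2 * R)) z
  have h4 : (((Ico R (2 * R)).filter fun r : ℕ => ∀ h ∈ Hs, Prime ((r : ℤ) * Q + h)).card : ℝ) ≤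
      (((Ico R (2 * R)).filter fun r : ℕ => ∃ h ∈ Hs, |(r : ℤ) * Q + h| ≤ z).card : ℝ) +
        ∑ r ∈ Ico R (2 * R), 1 * s.U (xx Hs Q r) := by
    rw [← sum_boole, ← sum_boole, ← sum_add_distrib]
    refine sum_le_sum fun r _ => ?_
    have h5 := s.U_nonneg (hx r)
    by_cases e2 : ∃ h ∈ Hs, |(r : ℤ) * Q + h| ≤ z
    · rw [if_pos e2]
      split_ifs <;> linarith
    · rw [if_neg e2]
      split_ifs with e1
      · have h6 := s.le_up _ (hx r)
        have h7 : ∏ p ∈ PP y z, (1 - xx Hs Q r p) = 1 := by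
          refine prod_eq_one fun p hp => ?_
          rw [xx, sum_eq_zero, sub_zero]
          intro h hh
          refine if_neg fun hd => e2 ⟨h, hh, ?_⟩
          have h8 := Int.prime_iff_natAbs_prime.1 (e1 h hh)
          have h9 : p = ((r : ℤ) * Q + h).natAbs :=
            (Nat.prime_dvd_prime_iff_eq (PP_prime hp) h8).1 (Int.natCast_dvd.1 hd)
          rw [← Int.natCast_natAbs, ← h9]
          exact_mod_cast (mem_PP.1 hp).2.1
        rw [h7] at h6
        rw [zero_add, one_mul]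
        exact h6
      · linarith
  have h5 : (((Ico R (2 * R)).filter fun r : ℕ => ∃ h ∈ Hs, |(r : ℤ) * Q + h| ≤ z).card : ℝ) ≤
      m₀ * (2 * z + 1) := by
    exact_mod_cast h3.trans (Nat.mul_le_mul_right _ hm)
  have h6 := mul_le_mul_of_nonneg_left h2 (Nat.cast_nonneg (α := ℝ) R)
  norm_num at h1 h4
  norm_num
  linarith

end TupP

open TupP

theorem pTup : S_Tup := by
  intro m₀
  obtain ⟨k0, hk⟩ := exists_sieve m₀ (Nat.cast_nonneg m₀)
  set E : ℕ := 4 * (k0 + 0) + 6 with hE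
  set N : ℕ := 2 * E + m₀ with hN
  have hN1 : 1 ≤ N := by omega
  have hN1' : (1 : ℝ) ≤ N := by exact_mod_cast hN1
  have hCM := one_le_CM
  have hm0 : (0 : ℝ) ≤ m₀ := Nat.cast_nonneg _
  set C : ℝ := 2 * N * CM + (3 * m₀ + 3) with hC
  have hC1 : 2 * N * CM ≤ C := by linarith
  have hC2 : (2 : ℝ) * N ≤ 2 * N * CM := le_mul_of_one_le_right (by positivity) hCM
  have hC3 : 3 * (m₀ : ℝ) + 3 ≤ C := by linarith
  refine ⟨C, by linarith, fun Hs Q R y hm hQ hR hy hH hQy => ?_⟩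
  have hR' : (2 : ℝ) ≤ R := by exact_mod_cast hR
  have hy' : (2 : ℝ) ≤ y := by exact_mod_cast (by omega : 2 ≤ y)
  have hlR : 0 < Real.log R := Real.log_pos (by linarith)
  have hly : 1 / 2 ≤ Real.log y :=
    le_trans (by linarith [Real.log_two_gt_d9]) (Real.log_le_log two_pos hy')
  set z := Nat.nthRoot N R with hz
  have z1 : z ^ N ≤ R := Nat.pow_nthRoot_le (Or.inl (by omega))
  have z2 : R < (z + 1) ^ N := Nat.lt_pow_nthRoot_add_one (by omega) R
  have z3 : Real.log R ≤ N * Real.log ((z : ℝ) + 1) := by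
    rw [← Real.log_pow]
    exact Real.log_le_log (by linarith) (by exact_mod_cast z2.le)
  rcases lt_or_ge z y with hzy | hzy
  · have h1 : Real.log ((z : ℝ) + 1) ≤ Real.log y :=
      Real.log_le_log (by positivity) (by exact_mod_cast hzy)
    have h2 : 1 ≤ C * Real.log y / Real.log R := by
      rw [le_div_iff₀ hlR]
      nlinarith
    have h3 := one_le_pow₀ (n := Hs.card) h2
    have h4 := card_filter_le (Ico R (2 * R)) fun r : ℕ => ∀ h ∈ Hs, Prime ((r : ℤ) * Q + h)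
    rw [Nat.card_Ico, show 2 * R - R = R by omega] at h4
    have h5 : (R : ℝ) ≤ C * R * (C * Real.log y / Real.log R) ^ Hs.card := by
      have : (R : ℝ) ≤ C * R := le_mul_of_one_le_left (by positivity) (by linarith)
      exact this.trans (le_mul_of_one_le_right (by positivity) h3)
    refine le_trans ?_ h5
    convert (Nat.cast_le (α := ℝ)).2 h4
  · have hz2 : 2 ≤ z := by omega
    have hz2' : (2 : ℝ) ≤ z := by exact_mod_cast hz2
    have hlz : 0 < Real.log z := Real.log_pos (by linarith)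
    obtain ⟨s⟩ := hk 0 z (PP y z) hz2 fun p hp => ⟨PP_prime hp, (mem_PP.1 hp).2.1⟩
    refine (sieve_bound s hm hQ hy hzy hH hQy).trans ?_
    set W : ℝ := (C * Real.log y / Real.log R) ^ Hs.card with hW
    have a1 : Real.log ((z : ℝ) + 1) ≤ 2 * Real.log z := by
      have : Real.log ((z : ℝ) ^ 2) = 2 * Real.log z := by rw [Real.log_pow]; norm_num
      rw [← this]
      exact Real.log_le_log (by positivity) (by nlinarith)
    have a2 : Real.log ((z : ℝ) + 1) ≤ z := by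
      have := Real.log_le_sub_one_of_pos (x := (z : ℝ) + 1) (by positivity)
      linarith
    have b1 : (CM * Real.log y / Real.log z) ^ Hs.card ≤ W := by
      refine pow_le_pow_left₀ (by positivity) ?_ _
      rw [div_le_div_iff₀ hlz hlR]
      have h1 : Real.log R ≤ 2 * N * Real.log z := by nlinarith
      calc CM * Real.log y * Real.log R ≤ CM * Real.log y * (2 * N * Real.log z) := by gcongr
        _ = 2 * N * CM * Real.log y * Real.log z := by ring
        _ ≤ _ := by gcongr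
    have b2 : (z : ℝ) ^ (2 * E) ≤ R * W := by
      have h1 : 1 / (z : ℝ) ≤ C * Real.log y / Real.log R := by
        rw [div_le_div_iff₀ (by linarith) hlR]
        have h2 : Real.log R ≤ N * z := z3.trans (by gcongr)
        have h3 : (N : ℝ) ≤ C * Real.log y := by nlinarith
        nlinarith
      have h2 : (1 / (z : ℝ)) ^ m₀ ≤ W :=
        (pow_le_pow_of_le_one (by positivity) (by rw [div_le_one (by linarith)]; linarith) hm).trans
          (pow_le_pow_left₀ (by positivity) h1 _)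
      have h3 : (z : ℝ) ^ N ≤ R := by exact_mod_cast z1
      calc (z : ℝ) ^ (2 * E) = (z : ℝ) ^ N * (1 / (z : ℝ)) ^ m₀ := by
            rw [hN, pow_add, one_div, inv_pow]
            field_simp
        _ ≤ _ := by gcongr
    have b3 : (z : ℝ) ≤ (z : ℝ) ^ (2 * E) := le_self_pow₀ (by linarith) (by omega)
    have b4 : ((z ^ E : ℕ) : ℝ) * ((z ^ E : ℕ) : ℝ) = (z : ℝ) ^ (2 * E) := by
      push_cast
      ring
    rw [b4]
    have b5 : (R : ℝ) * (CM * Real.log y / Real.log z) ^ Hs.card ≤ R * W := by gcongr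
    have b6 : (m₀ : ℝ) * (2 * z + 1) ≤ m₀ * (3 * (R * W)) := by gcongr; linarith
    have b7 : 0 ≤ (R : ℝ) * W := by positivity
    have b8 := mul_le_mul_of_nonneg_right hC3 b7
    rw [mul_assoc]
    linarith

end Pool.Agent.P.MP_0a88e3_nt.PL
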