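import Pool.Agent.P.MP_0a88e3_nt.PL.Asm
import Pool.Agent.P.MP_0a88e3_nt.PL.Fin
import Pool.Agent.P.MP_0a88e3_nt.PL.Psi
import Pool.Agent.P.MP_0a88e3_nt.PL.Landau
import Pool.Agent.P.MP_0a88e3_nt.PL.Bias
import Pool.Agent.P.MP_0a88e3_nt.PL.Col
import Pool.Agent.P.MP_0a88e3_nt.PL.Tup
import Pool.Agent.P.MP_0a88e3_nt.PL.Geo
import Pool.Agent.P.MP_0a88e3_nt.PL.ChainB

/-! The core statement without hypotheses. -/

namespace Pool.Agent.P.MP_0a88e3_nt.PL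

theorem core_all : S_Core := core pPsi pLandau pBias pCol pTup pGeo pChainB

end Pool.Agent.P.MP_0a88e3_nt.PL
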