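import Pool.Agent.P.MP_0a88e3_nt.PL.Core

/-! The core statement from the interface statements. -/

namespace Pool.Agent.P.MP_0a88e3_nt.PL

open Finset RowP NumP CoreP

lemma not_bad (hP : S_Psi) (hL : S_Landau) (hB : S_Bias) (hCol : S_Col) (hT : S_Tup) (hG : S_Geo)
    (hC : S_Chain) : ∃ g₀ : ℕ, ∀ α β f l : ℕ, g₀ ≤ α + f + 11 → β + 1 ≤ l → l ≤ 5 * f →
      Odd (α + f + l + 21) → ∃ Z₀ : ℕ, ∀ Z : ℕ, Z₀ ≤ Z →
        ¬Bad (Real.exp ((Z : ℝ) ^ (α + f + 11))) (Real.exp (2 * (Z : ℝ) ^ (α + f + 11)))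
          ((Z : ℝ) ^ α) (Z ^ β) := by
  classical
  obtain ⟨g₀, hW⟩ := weighted hP hCol
  refine ⟨g₀, fun α β f l hg hβ hl hk => ?_⟩
  obtain ⟨k, ek⟩ : ∃ k, k = α + f + l + 21 := ⟨_, rfl⟩
  obtain ⟨K, eK⟩ : ∃ K, K = (α + 3 * f + 30) + (k + 1) + 7 := ⟨_, rfl⟩
  obtain ⟨Z₁, h1⟩ := hW (α + f + 11) k hg
  obtain ⟨Z₂, h2⟩ := modulus hL hB (ek ▸ hk : Odd k)
  obtain ⟨T, T1, hT⟩ := hT (2 * K + 1)
  obtain ⟨Z₃, h3⟩ := ev1 (T * (k + 1))
  refine ⟨max (max Z₁ Z₂) (max Z₃ (⌈64 * ((2 : ℝ) ^ k) ^ 3 * T⌉₊ + 2 ^ (K + 1) + 4 * K + 30)),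
    fun Z hZ hb => ?_⟩
  simp only [max_le_iff] at hZ
  obtain ⟨⟨z1, z2⟩, z3, z4⟩ := hZ
  have z6 : 4 * K + 30 ≤ Z := le_trans (by rw [add_assoc]; exact Nat.le_add_left _ _) z4
  obtain ⟨Q, _, hQ, hBi, hGo⟩ := h2 Z z2
  obtain ⟨R, hR⟩ : ∃ R, R = ⌈Real.exp ((Z : ℝ) ^ (α + f + 11))⌉₊ := ⟨_, rfl⟩
  have q1 : 1 ≤ Q := NeZero.one_le
  obtain ⟨r1, r2, -, r4⟩ := sizes (Z := Z) (by omega) (by omega) q1 hQ hR
  have hw := h1 Z Q R z1 hQ hBi hGo hR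
  have z5 : 64 * ((2 : ℝ) ^ k) ^ 3 * T + 2 ^ (K + 1) + 4 * K + 30 ≤ Z := by
    have a := Nat.le_ceil (64 * ((2 : ℝ) ^ k) ^ 3 * T)
    have b : ((⌈64 * ((2 : ℝ) ^ k) ^ 3 * T⌉₊ + 2 ^ (K + 1) + 4 * K + 30 : ℕ) : ℝ) ≤ Z :=
      Nat.cast_le.2 z4
    push_cast at b
    linarith
  have c1 : (1 : ℝ) ≤ 2 ^ k := one_le_pow₀ one_le_two
  have c3 : (2 : ℝ) ^ k ≤ (2 ^ k) ^ 3 := le_self_pow₀ c1 (by norm_num)
  have c4 : ((2 : ℝ) ^ k) ^ 3 ≤ (2 ^ k) ^ 3 * T := le_mul_of_one_le_right (by positivity) T1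
  have c5 : T ≤ (2 ^ k) ^ 3 * T := le_mul_of_one_le_left (by linarith) (by linarith)
  have d1 : (1 : ℝ) ≤ 2 ^ K := one_le_pow₀ one_le_two
  have d2 : (2 : ℝ) ^ (K + 1) = 2 * 2 ^ K := by ring
  have K0 : (0 : ℝ) ≤ K := Nat.cast_nonneg _
  have w1 : (1 : ℝ) ≤ Z := by linarith
  have Z1 : 1 ≤ Z := by omega
  have R0 : (0 : ℝ) < R := (Real.exp_pos _).trans_le r1
  have Q1 : (1 : ℝ) ≤ Q := by exact_mod_cast q1
  have V1 : (2 : ℝ) ^ k * (Z : ℝ) ^ k ≤ (Z : ℝ) ^ (k + 1) := cz w1 (by linarith) le_rfl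
  have V2 : (2 : ℝ) ^ k * (Z : ℝ) ^ k ≤ Q := by
    rw [← mul_pow]
    exact_mod_cast hBi.2.1
  have lR : (Z : ℝ) ^ (α + f + 11) ≤ Real.log R := (Real.le_log_iff_exp_le R0).2 r1
  have hs : ∀ Hs : Finset ℤ, Hs.card ≤ 2 * K + 1 →
      (∀ h ∈ Hs, ∀ h' ∈ Hs, |h - h'| ≤ (Z ^ (k + 1) : ℕ)) →
      (((Ico R (2 * R)).filter fun r : ℕ => ∀ h ∈ Hs, Prime ((r : ℤ) * Q + h)).card : ℝ) ≤
        T * R * (1 / (Z : ℝ) ^ (α + f + 10)) ^ Hs.card := by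
    intro Hs s1 s2
    have y1 : 2 * Z ≤ Z ^ (k + 1) := by
      have := cz (c := 2) w1 (by linarith) (a := 1) (b := k + 1) (by omega)
      rw [pow_one] at this
      exact_mod_cast this
    refine (hT Hs Q R (Z ^ (k + 1)) s1 q1 (by omega) (by omega) s2
      fun p p1 p2 => (hBi.1 p p1 p2).trans y1).trans ?_
    have l0 : 0 ≤ Real.log Z := Real.log_nonneg w1
    have p : (0 : ℝ) < (Z : ℝ) ^ (α + f + 11) := by positivity
    refine mul_le_mul_of_nonneg_left (pow_le_pow_left₀ ?_ ?_ _) (by positivity)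
    · exact div_nonneg (mul_nonneg (by linarith) (Real.log_natCast_nonneg _)) (by linarith)
    · rw [Nat.cast_pow, Real.log_pow, div_le_div_iff₀ (by linarith) (by positivity)]
      have := h3 Z z3
      push_cast
      calc _ ≤ Z * (Z : ℝ) ^ (α + f + 10) := by gcongr; linarith
        _ = (Z : ℝ) ^ (α + f + 11) := by ring
        _ ≤ _ := by linarith
  have hm := RowsP.mom (Ico R (2 * R)) Q (2 ^ k * Z ^ k) (Z ^ (k + 1)) (by positivity)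
    (by positivity) (by exact_mod_cast V1) fun Hs s1 s2 => hs Hs (by omega) s2
  have hg := RowsP.good_count (Ico R (2 * R)) (fun r => cnt (r * Q) (Z ^ k))
    (fun r => cnt (r * Q) (2 ^ k * Z ^ k)) (fun r => Real.log ((r * Q : ℕ) : ℝ))
    (S := 2 * (Z : ℝ) ^ (α + f + 11)) (Λ := (Z : ℝ) ^ (l + 14)) (D := (Z : ℝ) ^ (l + 8))
    (fun r hr => ⟨Real.log_natCast_nonneg _, by
      obtain ⟨a, b⟩ := mem_Ico.1 hr
      have : 0 < r * Q := Nat.mul_pos (by omega) q1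
      refine (Real.log_le_iff_le_exp (by exact_mod_cast this)).2 (le_trans (Nat.cast_le.2 ?_) r4)
      exact Nat.mul_le_mul_right _ (by omega)⟩)
    (fun r _ => RowsP.cnt_mono _ (Nat.le_mul_of_pos_left _ (by positivity))) (by positivity)
    (by positivity) (by positivity) (by positivity) hw hm
  have a1 : (Z : ℝ) ^ (α + f + l + 14) ≤ (Z : ℝ) ^ k := pw w1 (by omega)
  have a2 : (2 : ℝ) ^ K * (Z : ℝ) ^ α ≤ (Z : ℝ) ^ k := cz w1 (by linarith) (by omega)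
  have a3 : (Z : ℝ) ^ k ≤ 2 ^ k * (Z : ℝ) ^ k := le_mul_of_one_le_left (by positivity) c1
  have hu := LinkP.good_le hG hC (Q := Q) (R := R) (U := Z ^ k) (C := 2 ^ k) (K := K)
    (J := Z ^ (2 * f + 16)) (y := Z ^ (k + 1)) (N := Z ^ (α + 3 * f + 30))
    (Λ := (Z : ℝ) ^ (l + 14)) (D := (Z : ℝ) ^ (l + 8)) (Δ := (Z : ℝ) ^ (α + f + l + 14))
    (w := (Z : ℝ) ^ (α + f)) (G := (Z : ℝ) ^ (α + 1)) (sm := (Z : ℝ) ^ (α + f + 14)) hb
    (r1.trans (Nat.cast_le.2 (Nat.le_mul_of_pos_right _ q1)))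
    (by
      refine le_trans ?_ r4
      push_cast
      have : (1 : ℝ) ≤ R := by exact_mod_cast (by omega : 1 ≤ R)
      nlinarith)
    (by positivity) (by positivity) (by positivity) Nat.one_le_two_pow (by positivity)
    (by positivity) (by exact_mod_cast a1) (by positivity)
    (by push_cast; rw [ek]; exact n1 w1 (by rw [← ek]; linarith) α f l)
    (by push_cast; exact n2 w1 (by linarith) α f hβ)
    (by push_cast; rw [ek]; exact n3 w1 (by rw [← ek]; linarith) α f l)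
    (cz w1 (by linarith) le_rfl) (by push_cast; exact n5 (by linarith) α hl)
    (by push_cast; exact n6 w1 α f)
    (by push_cast; rw [ek]; exact n7 (by linarith) (by linarith) α f l)
    (by positivity) (by positivity) hs
  rw [Nat.card_Ico, show 2 * R - R = R by omega, show k - 1 = α + f + l + 20 by omega] at hg
  push_cast at hg hu
  nth_rewrite 4 [eK] at hu
  refine n10 (ρ := 1 / (Z : ℝ) ^ (α + f + 10)) T1 R0 (by linarith) (α + 3 * f + 30) (k + 1)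
    (by positivity) ?_ (by positivity)
    (n8 (d := 2 * K + 1) (c := 2 ^ K) (by linarith) (by positivity) (by linarith) (by linarith) α f)
    (by positivity) V1 ?_ hu
  · rw [div_le_one (by positivity)]
    exact one_le_pow₀ w1
  · refine n9 c1 T1 R0.le (Nat.cast_nonneg _) (by linarith) α f l ?_
    rw [← ek]
    exact hg

theorem core (hP : S_Psi) (hL : S_Landau) (hB : S_Bias) (hCol : S_Col) (hT : S_Tup) (hG : S_Geo)
    (hC : S_Chain) : S_Core := by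
  obtain ⟨g₀, h⟩ := not_bad hP hL hB hCol hT hG hC
  refine ⟨g₀, fun g α β hg hα => ?_⟩
  obtain ⟨f, rfl⟩ : ∃ f, g = α + f + 11 := ⟨g - α - 11, by omega⟩
  obtain ⟨l, l1, l2, l3⟩ : ∃ l, β + 1 ≤ l ∧ l ≤ 5 * f ∧ Odd (α + f + l + 21) := by
    rcases Nat.even_or_odd (α + f + (β + 1) + 21) with e | e
    · exact ⟨β + 2, by omega, by omega, e.add_one⟩
    · exact ⟨β + 1, le_rfl, by omega, e⟩
  obtain ⟨Z₀, h⟩ := h α β f l hg l1 l2 l3
  refine ⟨Z₀, fun Z hZ => ?_⟩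
  have := h Z hZ
  simp only [Bad, not_forall, not_exists, not_and, not_le] at this
  obtain ⟨n, n1, n2, n3, hn⟩ := this
  refine ⟨n, n1, n2, n3, fun i i1 i2 => ?_⟩
  exact_mod_cast (hn i i1 i2).le

end Pool.Agent.P.MP_0a88e3_nt.PL
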