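import Pool.Agent.P.MP_0a88e3_nt.PL.Num

/-! The assembly. -/

namespace Pool.Agent.P.MP_0a88e3_nt.PL

open Finset RowP NumP

namespace CoreP

/-- a modulus that is both biased and good -/
lemma modulus (hL : S_Landau) (hB : S_Bias) {k : ℕ} (hk : Odd k) : ∃ Z₀ : ℕ, ∀ Z : ℕ, Z₀ ≤ Z →
    ∃ Q : ℕ, ∃ _ : NeZero Q, (Q : ℝ) ≤ Real.exp (3 * Z) ∧ Biased k Z Q ∧ GoodMod Q (4 * Z) := by
  obtain ⟨L₀, hL⟩ := hL
  obtain ⟨Z₀, hB⟩ := hB k hk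
  refine ⟨max (max Z₀ 1) ⌈L₀⌉₊, fun Z hZ => ?_⟩
  simp only [max_le_iff] at hZ
  obtain ⟨⟨z1, z2⟩, z3⟩ := hZ
  obtain ⟨Q₁, Q₂, hc, hQ, b1, b2⟩ := hB Z z1
  have p : 0 < (2 * Z) ^ k := by positivity
  have q1 : 0 < Q₁ := p.trans_le b1.2.1
  have q2 : 0 < Q₂ := p.trans_le b2.2.1
  haveI : NeZero Q₁ := ⟨q1.ne'⟩
  haveI : NeZero Q₂ := ⟨q2.ne'⟩
  have e16 : (16 : ℝ) ≤ Real.exp 3 := by
    have := Real.exp_one_gt_d9
    rw [show (3 : ℝ) = (3 : ℕ) * 1 by norm_num, Real.exp_nat_mul]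
    calc (16 : ℝ) ≤ 2.7 ^ 3 := by norm_num
      _ ≤ _ := by gcongr; linarith
  have h : ((Q₁ * Q₂ : ℕ) : ℝ) ≤ Real.exp (3 * Z) := by
    rw [mul_comm (3 : ℝ), Real.exp_nat_mul]
    calc ((Q₁ * Q₂ : ℕ) : ℝ) ≤ (16 ^ Z : ℕ) := Nat.cast_le.2 hQ
      _ = (16 : ℝ) ^ Z := by push_cast; rfl
      _ ≤ _ := by gcongr
  have Z0 : (0 : ℝ) ≤ Z := Nat.cast_nonneg _
  have hl : Real.log Q₁ + Real.log Q₂ ≤ 4 * Z := by
    rw [← Real.log_mul (by positivity) (by positivity), ← Nat.cast_mul]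
    have := (Real.log_le_iff_le_exp (by positivity)).2 h
    linarith
  have := Nat.ceil_le.1 z3
  rcases hL (4 * Z) (by linarith) Q₁ Q₂ hc hl with g | g
  · exact ⟨Q₁, ‹_›, le_trans (Nat.cast_le.2 (Nat.le_mul_of_pos_right _ q2)) h, b1, g⟩
  · exact ⟨Q₂, ‹_›, le_trans (Nat.cast_le.2 (Nat.le_mul_of_pos_left _ q1)) h, b2, g⟩

/-- size relations -/
lemma sizes {Z g Q R : ℕ} (hZ : 30 ≤ Z) (hg : 2 ≤ g) (q1 : 1 ≤ Q) (hQ : (Q : ℝ) ≤ Real.exp (3 * Z))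
    (hR : R = ⌈Real.exp ((Z : ℝ) ^ g)⌉₊) :
    Real.exp ((Z : ℝ) ^ g) ≤ R ∧ Z ≤ R ∧ Q ^ 10 ≤ R ∧
      ((5 * R * Q : ℕ) : ℝ) ≤ Real.exp (2 * (Z : ℝ) ^ g) := by
  have z30 : (30 : ℝ) ≤ Z := by exact_mod_cast hZ
  have a1 : 30 * (Z : ℝ) ≤ (Z : ℝ) ^ g := by
    have := cz (z := Z) (by linarith) z30 (a := 1) (b := g) hg
    rwa [pow_one] at this
  have r1 : Real.exp ((Z : ℝ) ^ g) ≤ R := hR ▸ Nat.le_ceil _
  have r2 : (R : ℝ) ≤ 2 * Real.exp ((Z : ℝ) ^ g) := by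
    have := Nat.ceil_lt_add_one (Real.exp_pos ((Z : ℝ) ^ g)).le
    have := Real.one_le_exp (show 0 ≤ (Z : ℝ) ^ g by positivity)
    rw [hR]
    linarith
  refine ⟨r1, ?_, ?_, ?_⟩
  · have := Real.add_one_le_exp ((Z : ℝ) ^ g)
    exact_mod_cast (show (Z : ℝ) ≤ R by linarith)
  · have : (Q : ℝ) ^ 10 ≤ R :=
      calc (Q : ℝ) ^ 10 ≤ Real.exp (3 * Z) ^ 10 := by gcongr
        _ = Real.exp (30 * Z) := by rw [← Real.exp_nat_mul]; congr 1; push_cast; ring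
        _ ≤ _ := (Real.exp_le_exp.2 a1).trans r1
    exact_mod_cast this
  · have b : (10 : ℝ) ≤ Real.exp Z := by linarith [Real.add_one_le_exp (Z : ℝ)]
    push_cast
    calc 5 * (R : ℝ) * Q ≤ 5 * (2 * Real.exp ((Z : ℝ) ^ g)) * Real.exp (3 * Z) := by gcongr
      _ = 10 * (Real.exp ((Z : ℝ) ^ g) * Real.exp (3 * Z)) := by ring
      _ ≤ Real.exp Z * (Real.exp ((Z : ℝ) ^ g) * Real.exp (3 * Z)) := by gcongr
      _ ≤ _ := by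
        rw [← Real.exp_add, ← Real.exp_add]
        exact Real.exp_le_exp.2 (by linarith)

/-- the weighted sum over the rows -/
lemma weighted (hP : S_Psi) (hC : S_Col) : ∃ g₀ : ℕ, ∀ g k : ℕ, g₀ ≤ g → ∃ Z₀ : ℕ,
    ∀ (Z Q R : ℕ) [NeZero Q], Z₀ ≤ Z → (Q : ℝ) ≤ Real.exp (3 * Z) → Biased k Z Q →
      GoodMod Q (4 * Z) → R = ⌈Real.exp ((Z : ℝ) ^ g)⌉₊ →
      R * (Z : ℝ) ^ (k - 1) / 4 ≤ ∑ r ∈ Ico R (2 * R), Real.log ((r * Q : ℕ) : ℝ) *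
        (((2 ^ k : ℕ) : ℝ) * cnt (r * Q) (Z ^ k) - cnt (r * Q) (2 ^ k * Z ^ k)) := by
  obtain ⟨A, c, c1, hP⟩ := hP
  obtain ⟨R₀, hC⟩ := hC
  refine ⟨A + 2, fun g k hg => ?_⟩
  obtain ⟨Z₁, h1⟩ := ev2 (320 * c * 2 ^ k) (2 * g + k)
  refine ⟨max (max Z₁ 30) (max (max R₀ ⌈c⌉₊) (4 ^ A)), fun Z Q R _ hZ hQ hB hG hR => ?_⟩
  simp only [max_le_iff] at hZ
  obtain ⟨⟨z1, z2⟩, ⟨z3, z4⟩, z5⟩ := hZ
  have q1 : 1 ≤ Q := NeZero.one_le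
  obtain ⟨r1, r2, r3, r4⟩ := sizes z2 (by omega) q1 hQ hR
  have z30 : (30 : ℝ) ≤ Z := by exact_mod_cast z2
  have R0 : (0 : ℝ) < R := (Real.exp_pos _).trans_le r1
  have Q0 : (0 : ℝ) < Q := by exact_mod_cast q1
  have key : ∀ χ : DirichletCharacter ℂ Q, χ ≠ 1 → ∀ Y : ℕ, R ≤ Y → Y ≤ 2 * R * Q →
      ‖psi χ Y‖ ≤ c * (2 * R * Q) * (2 * (Z : ℝ) ^ g) ^ 2 * Real.exp (-(4 * Z)) := by
    intro χ hχ Y y1 y2
    have y3 : (R : ℝ) ≤ Y := by exact_mod_cast y1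
    have y4 : (Y : ℝ) ≤ 2 * R * Q := by exact_mod_cast y2
    have l1 : (Z : ℝ) ^ g ≤ Real.log Y :=
      (Real.le_log_iff_exp_le (by linarith)).2 (r1.trans y3)
    have l2 : Real.log Y ≤ 2 * (Z : ℝ) ^ g := by
      refine (Real.log_le_iff_le_exp (by linarith)).2 (le_trans ?_ r4)
      push_cast
      nlinarith [mul_pos R0 Q0]
    have l0 : 0 ≤ Real.log Y := le_trans (by positivity) l1
    refine (hP Q χ (4 * Z) Y hχ (by linarith [Nat.ceil_le.1 z4])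
      (by linarith [(Real.log_le_iff_le_exp Q0).2 hQ]) (hG χ hχ) (le_trans ?_ l1)).trans ?_
    · rw [mul_pow]
      exact cz (by linarith) (by exact_mod_cast z5) (by omega)
    · gcongr
  refine hC Q R (Z ^ k) (2 ^ k) (c * (2 * R * Q) * (2 * (Z : ℝ) ^ g) ^ 2 * Real.exp (-(4 * Z))) _
    (z3.trans r2) r3 Nat.one_le_two_pow (by rw [← mul_pow]; exact hB.2.1) (by positivity)
    (fun χ hχ => ⟨key χ hχ _ (Nat.le_mul_of_pos_right _ q1) (by nlinarith), key χ hχ _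
      (by nlinarith) le_rfl⟩) ?_ (one_le_pow₀ (by linarith)) ?_
  · push_cast
    calc _ = R * ((320 * c * 2 ^ k * (Z : ℝ) ^ (2 * g + k)) * Q * Real.exp (-(4 * Z))) := by ring
      _ ≤ R * (Real.exp Z * Real.exp (3 * Z) * Real.exp (-(4 * Z))) := by
          gcongr
          exact h1 Z z1
      _ = R := by
          rw [← Real.exp_add, ← Real.exp_add, show (Z : ℝ) + 3 * Z + -(4 * Z) = 0 by ring,
            Real.exp_zero, mul_one]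
  · have := hB.2.2
    rw [mul_pow] at this
    have h : (NC Q (2 ^ k * Z ^ k) : ℝ) + (Z : ℝ) ^ (k - 1) ≤ (2 ^ k : ℕ) * (NC Q (Z ^ k) : ℝ) := by
      exact_mod_cast this
    linarith

end CoreP

end Pool.Agent.P.MP_0a88e3_nt.PL
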