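import Pool.Agent.P.MP_0a88e3_nt.PL.Row

/-! The union bound over slopes and base points. -/

namespace Pool.Agent.P.MP_0a88e3_nt.PL

open Finset RowP

namespace LinkP

open Classical in
lemma one (hC : S_Chain) (W : Finset ℕ) (Q t K I J y : ℕ) {σ H B ρ : ℝ} (hH : 0 ≤ H) (hB : 0 ≤ B)
    (hρ : 0 ≤ ρ) (hσ : 0 ≤ σ) (hy : 2 * (σ * (K * I)) + 2 ^ K * H ≤ y)
    (hs : ∀ Hs : Finset ℤ, Hs.card ≤ 2 * K + 1 → (∀ h ∈ Hs, ∀ h' ∈ Hs, |h - h'| ≤ y) →
      ((W.filter fun r : ℕ => ∀ h ∈ Hs, Prime ((r : ℤ) * Q + h)).card : ℝ) ≤ B * ρ ^ Hs.card) :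
    ((W.filter fun r => (r * Q + t).Prime ∧ K * I ≤ Nat.count Nat.Prime (r * Q + t) ∧
        ChainP (uu (r * Q + t)) σ H K I J).card : ℝ) ≤
      B * ρ * ((2 * K + 1) * (2 ^ K * H + 1) * ρ + J * (2 ^ K * H + 1) ^ 2 * ρ ^ 2) ^ K := by
  refine hC _ (fun r => uu (r * Q + t)) σ H B ρ K I J hH hB hρ (fun r hr => ?_)
    (fun r hr => (mem_filter.1 hr).2.2.2) fun T v hT hv => ?_
  · have := Nat.nth_count (mem_filter.1 hr).2.1
    simp [uu, pr, this]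
  rcases (filter (fun ω => ∀ j ∈ T, uu (ω * Q + t) j = v j) (W.filter fun r =>
    (r * Q + t).Prime ∧ K * I ≤ Nat.count Nat.Prime (r * Q + t) ∧
      ChainP (uu (r * Q + t)) σ H K I J)).eq_empty_or_nonempty with h | ⟨r₀, h⟩
  · rw [h, card_empty, Nat.cast_zero]
    positivity
  have inj : Set.InjOn (fun j => (t : ℤ) + v j) T := by
    intro j hj j' hj' e
    obtain ⟨h1, h2⟩ := mem_filter.1 h
    have h3 := (mem_filter.1 h1).2.2.1
    have e1 : uu (r₀ * Q + t) j = uu (r₀ * Q + t) j' := by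
      rw [h2 j hj, h2 j' hj']
      simpa using e
    simp only [uu, sub_left_inj, Nat.cast_inj] at e1
    have e2 := pr_mono.injective e1
    have b1 := abs_le.1 (hv j hj).1
    have b2 := abs_le.1 (hv j' hj').1
    have h4 : (K : ℤ) * I ≤ (Nat.count Nat.Prime (r₀ * Q + t) : ℕ) := by exact_mod_cast h3
    omega
  have h1 := hs (T.image fun j => (t : ℤ) + v j) (card_image_le.trans hT) (by
    intro h hh h' hh'
    obtain ⟨j, hj, rfl⟩ := mem_image.1 hh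
    obtain ⟨j', hj', rfl⟩ := mem_image.1 hh'
    obtain ⟨a1, a2, a3⟩ := hv j hj
    obtain ⟨b1, b2, b3⟩ := hv j' hj'
    have a4 : |(j : ℝ)| ≤ K * I := by exact_mod_cast a1
    have b4 : |(j' : ℝ)| ≤ K * I := by exact_mod_cast b1
    rw [abs_le] at a4 b4
    have c1 := mul_le_mul_of_nonneg_left a4.1 hσ
    have c2 := mul_le_mul_of_nonneg_left a4.2 hσ
    have c3 := mul_le_mul_of_nonneg_left b4.1 hσ
    have c4 := mul_le_mul_of_nonneg_left b4.2 hσ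
    have : |((t + v j - (t + v j') : ℤ) : ℝ)| ≤ y := by
      push_cast
      rw [abs_le]
      constructor <;> linarith
    exact_mod_cast this)
  rw [card_image_of_injOn inj] at h1
  refine le_trans ?_ h1
  refine Nat.cast_le.2 (card_le_card fun r hr => ?_)
  obtain ⟨h2, h3⟩ := mem_filter.1 hr
  refine mem_filter.2 ⟨(mem_filter.1 h2).1, fun h hh => ?_⟩
  obtain ⟨j, hj, rfl⟩ := mem_image.1 hh
  rw [← h3 j hj, uu]
  have := Nat.prime_iff_prime_int.1 (Nat.nth_mem_of_infinite inf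
    (((Nat.count Nat.Prime (r * Q + t) : ℕ) : ℤ) + j).toNat)
  convert this using 1
  push_cast
  ring

open Classical in
theorem good_le (hG : S_Geo) (hC : S_Chain) {Q R U C K I J y N : ℕ}
    {H Λ D Δ w G sm lo hi B ρ : ℝ} (hb : Bad lo hi H I) (hlo : lo ≤ (R * Q : ℕ))
    (hhi : ((2 * R * Q : ℕ) : ℝ) + C * U + Δ + 2 ^ K * H ≤ hi) (hH : 0 < H) (hJ : 0 < J)
    (hD : 0 < D) (hC1 : 1 ≤ C) (hU : 0 < U) (hΔ : 0 ≤ Δ) (hΔU : Δ ≤ U) (hw : 0 ≤ w)
    (h1 : C * Δ + w * Λ ≤ U * D / Λ) (h2 : ((K + 1) * I + 1) * sm ≤ Δ)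
    (h3 : 2 * U * C / D + w ≤ sm) (h4 : (2 ^ (K + 1) + 1) * H ≤ G)
    (h5 : (4 * Λ / J + 4) * (2 * G / J) ≤ w) (h6 : sm ≤ N * (2 * G / J))
    (hy : 2 * Δ + 2 ^ K * H ≤ y) (hB : 0 ≤ B) (hρ : 0 ≤ ρ)
    (hs : ∀ Hs : Finset ℤ, Hs.card ≤ 2 * K + 1 → (∀ h ∈ Hs, ∀ h' ∈ Hs, |h - h'| ≤ y) →
      (((Ico R (2 * R)).filter fun r : ℕ => ∀ h ∈ Hs, Prime ((r : ℤ) * Q + h)).card : ℝ) ≤
        B * ρ ^ Hs.card) :
    (((Ico R (2 * R)).filter fun r => (cnt (r * Q) (C * U) : ℝ) ≤ Λ ∧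
        D ≤ (C : ℝ) * cnt (r * Q) U - cnt (r * Q) (C * U)).card : ℝ) ≤
      (N + 1) * (C * U) * (B * ρ *
        ((2 * K + 1) * (2 ^ K * H + 1) * ρ + J * (2 ^ K * H + 1) ^ 2 * ρ ^ 2) ^ K) := by
  have G0 : 0 < G := lt_of_lt_of_le (by positivity) h4
  have J0 : (0 : ℝ) < J := by exact_mod_cast hJ
  have d0 : 0 < 2 * G / J := by positivity
  have sm0 : 0 ≤ sm := le_trans (by positivity) h3
  set S := ((range (N + 1)).filter fun i : ℕ => i * (2 * G / J) ≤ sm) ×ˢ Icc 1 (C * U) with hS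
  have sub : ((Ico R (2 * R)).filter fun r => (cnt (r * Q) (C * U) : ℝ) ≤ Λ ∧
      D ≤ (C : ℝ) * cnt (r * Q) U - cnt (r * Q) (C * U)) ⊆ S.biUnion fun z =>
        (Ico R (2 * R)).filter fun r => (r * Q + z.2).Prime ∧
          K * I ≤ Nat.count Nat.Prime (r * Q + z.2) ∧
          ChainP (uu (r * Q + z.2)) (z.1 * (2 * G / J)) H K I J := by
    intro r hr
    obtain ⟨r1, g1, g2⟩ := mem_filter.1 hr
    obtain ⟨r2, r3⟩ := mem_Ico.1 r1
    obtain ⟨i, t, i1, t1, p⟩ := row hG (x := r * Q) hb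
      (hlo.trans (Nat.cast_le.2 (Nat.mul_le_mul_right _ r2)))
      (le_trans (by gcongr) hhi) hH hJ hD hC1 hU hΔ hΔU hw h1 h2 h3 h4 h5 g1 g2
    refine mem_biUnion.2 ⟨(i, t), mem_product.2 ⟨mem_filter.2 ⟨mem_range.2 ?_, i1⟩, t1⟩,
      mem_filter.2 ⟨r1, p⟩⟩
    have := le_of_mul_le_mul_right (i1.trans h6) d0
    exact Nat.lt_succ_of_le (by exact_mod_cast this)
  refine (Nat.cast_le.2 ((card_le_card sub).trans card_biUnion_le)).trans ?_
  rw [Nat.cast_sum]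
  refine (sum_le_card_nsmul _ _ (B * ρ *
    ((2 * K + 1) * (2 ^ K * H + 1) * ρ + J * (2 ^ K * H + 1) ^ 2 * ρ ^ 2) ^ K) fun z hz => ?_).trans ?_
  · refine one hC _ Q z.2 K I J y hH.le hB hρ (by positivity) (le_trans ?_ hy) hs
    have i1 := (mem_filter.1 (mem_product.1 hz).1).2
    have : (z.1 : ℝ) * (2 * G / J) * (K * I) ≤ sm * ((K + 1) * I + 1) := by
      refine mul_le_mul i1 ?_ (by positivity) sm0
      nlinarith [Nat.cast_nonneg (α := ℝ) I]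
    nlinarith
  · rw [nsmul_eq_mul]
    refine mul_le_mul_of_nonneg_right ?_ (by positivity)
    have : S.card ≤ (N + 1) * (C * U) := by
      rw [hS, card_product, Nat.card_Icc, add_tsub_cancel_right]
      exact Nat.mul_le_mul_right _ ((card_filter_le _ _).trans (card_range _).le)
    exact_mod_cast this

end LinkP

end Pool.Agent.P.MP_0a88e3_nt.PL
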