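import Pool.Agent.P.MP_0a88e3_nt.PL.Link

/-! Numerical inequalities between powers of a large number. -/

namespace Pool.Agent.P.MP_0a88e3_nt.PL

open Finset Filter

namespace NumP

lemma ev1 (c : ℝ) : ∃ Z₀ : ℕ, ∀ Z : ℕ, Z₀ ≤ Z → c * Real.log Z ≤ Z := by
  have h := ((Real.isLittleO_log_id_atTop.const_mul_left c).comp_tendsto
    tendsto_natCast_atTop_atTop).bound one_pos
  obtain ⟨Z₀, h⟩ := eventually_atTop.1 h
  refine ⟨Z₀, fun Z hZ => (le_abs_self _).trans ?_⟩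
  simpa using h Z hZ

lemma ev2 (c : ℝ) (n : ℕ) : ∃ Z₀ : ℕ, ∀ Z : ℕ, Z₀ ≤ Z → c * (Z : ℝ) ^ n ≤ Real.exp Z := by
  have h := (((Real.isLittleO_pow_exp_atTop (n := n)).const_mul_left c).comp_tendsto
    tendsto_natCast_atTop_atTop).bound one_pos
  obtain ⟨Z₀, h⟩ := eventually_atTop.1 h
  refine ⟨Z₀, fun Z hZ => (le_abs_self _).trans ?_⟩
  simpa using h Z hZ

variable {z c : ℝ}

lemma pw (hz : 1 ≤ z) {a b : ℕ} (h : a ≤ b) : z ^ a ≤ z ^ b := pow_le_pow_right₀ hz h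

lemma cz (hz : 1 ≤ z) (hc : c ≤ z) {a b : ℕ} (h : a + 1 ≤ b) : c * z ^ a ≤ z ^ b :=
  (mul_le_mul_of_nonneg_right hc (by positivity)).trans (by rw [← pow_succ']; exact pw hz h)

lemma n1 (hz : 1 ≤ z) (hc : c + 1 ≤ z) (α f l : ℕ) :
    c * z ^ (α + f + l + 14) + z ^ (α + f) * z ^ (l + 14) ≤
      z ^ (α + f + l + 21) * z ^ (l + 8) / z ^ (l + 14) := by
  have := cz hz hc (a := α + f + l + 14) le_rfl
  rw [le_div_iff₀ (by positivity)]
  calc _ = (c + 1) * z ^ (α + f + l + 14) * z ^ (l + 14) := by ring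
    _ ≤ z ^ (α + f + l + 14 + 1) * z ^ (l + 14) := by gcongr
    _ = _ := by ring

lemma n2 (hz : 1 ≤ z) (hc : c + 1 ≤ z) (α f : ℕ) {β l : ℕ} (h : β + 1 ≤ l) :
    (c * z ^ β + 1) * z ^ (α + f + 14) ≤ z ^ (α + f + l + 14) := by
  have h1 := cz hz hc h
  have h2 : 1 ≤ z ^ β := one_le_pow₀ hz
  calc _ ≤ z ^ l * z ^ (α + f + 14) := by gcongr; linarith
    _ = _ := by ring

lemma n3 (hz : 1 ≤ z) (hc : 2 * c + 1 ≤ z) (α f l : ℕ) :
    2 * z ^ (α + f + l + 21) * c / z ^ (l + 8) + z ^ (α + f) ≤ z ^ (α + f + 14) := by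
  have h1 := cz hz hc (a := α + f + 13) le_rfl
  have h2 := pw hz (show α + f ≤ α + f + 13 by omega)
  have e : 2 * z ^ (α + f + l + 21) * c / z ^ (l + 8) = 2 * c * z ^ (α + f + 13) := by
    field_simp
    ring
  linarith

lemma n5 (hz : 16 ≤ z) (α : ℕ) {f l : ℕ} (h : l ≤ 5 * f) :
    (4 * z ^ (l + 14) / z ^ (2 * f + 16) + 4) * (2 * z ^ (α + 1) / z ^ (2 * f + 16)) ≤
      z ^ (α + f) := by
  have h1 : 1 ≤ z := by linarith
  have a1 := cz h1 hz (show α + l + 15 + 1 ≤ α + 5 * f + 32 by omega)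
  have a2 := cz h1 hz (show α + 2 * f + 17 + 1 ≤ α + 5 * f + 32 by omega)
  have e : (4 * z ^ (l + 14) / z ^ (2 * f + 16) + 4) * (2 * z ^ (α + 1) / z ^ (2 * f + 16)) =
      (8 * z ^ (α + l + 15) + 8 * z ^ (α + 2 * f + 17)) / z ^ (4 * f + 32) := by
    field_simp
    ring
  rw [e, div_le_iff₀ (by positivity), ← pow_add, show α + f + (4 * f + 32) = α + 5 * f + 32 by ring]
  linarith

lemma n6 (hz : 1 ≤ z) (α f : ℕ) :
    z ^ (α + f + 14) ≤ z ^ (α + 3 * f + 30) * (2 * z ^ (α + 1) / z ^ (2 * f + 16)) := by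
  have h2 : 1 ≤ z ^ (α + 1) := one_le_pow₀ hz
  have e : z ^ (α + 3 * f + 30) * (2 * z ^ (α + 1) / z ^ (2 * f + 16)) =
      z ^ (α + f + 14) * (2 * z ^ (α + 1)) := by
    field_simp
    ring
  rw [e]
  exact le_mul_of_one_le_right (by positivity) (by linarith)

lemma n7 (hz : 2 ≤ z) (hc : c ≤ z) (α f l : ℕ) :
    2 * z ^ (α + f + l + 14) + c * z ^ α ≤ z ^ (α + f + l + 21 + 1) := by
  have h1 : 1 ≤ z := by linarith
  have a1 := cz h1 hz (show α + f + l + 14 + 1 ≤ α + f + l + 21 by omega)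
  have a2 := cz h1 hc (show α + 1 ≤ α + f + l + 21 by omega)
  have a3 := cz h1 hz (a := α + f + l + 21) le_rfl
  linarith

lemma n8 {d : ℝ} (hz : 2 ≤ z) (c0 : 0 ≤ c) (hc : c + 1 ≤ z) (hd : d ≤ z) (α f : ℕ) :
    d * (c * z ^ α + 1) * (1 / z ^ (α + f + 10)) +
      z ^ (2 * f + 16) * (c * z ^ α + 1) ^ 2 * (1 / z ^ (α + f + 10)) ^ 2 ≤ 1 / z := by
  have h1 : 1 ≤ z := by linarith
  have h2 : 1 ≤ z ^ α := one_le_pow₀ h1
  have a1 : c * z ^ α + 1 ≤ z ^ (α + 1) := by linarith [cz h1 hc (a := α) le_rfl]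
  have a2 : d * (c * z ^ α + 1) * (1 / z ^ (α + f + 10)) ≤ 1 / z ^ 2 := by
    rw [mul_one_div, div_le_div_iff₀ (by positivity) (by positivity), one_mul]
    calc _ ≤ z * z ^ (α + 1) * z ^ 2 := by gcongr
      _ = z ^ (α + 4) := by ring
      _ ≤ _ := pw h1 (by omega)
  have a3 : z ^ (2 * f + 16) * (c * z ^ α + 1) ^ 2 * (1 / z ^ (α + f + 10)) ^ 2 ≤ 1 / z ^ 2 :=
    calc _ ≤ z ^ (2 * f + 16) * (z ^ (α + 1)) ^ 2 * (1 / z ^ (α + f + 10)) ^ 2 := by gcongr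
      _ = _ := by field_simp; ring
  have a4 : 2 * (1 / z ^ 2) ≤ 1 / z := by
    rw [mul_one_div, div_le_div_iff₀ (by positivity) (by positivity)]
    nlinarith
  linarith

lemma n9 {T R N : ℝ} (c1 : 1 ≤ c) (T1 : 1 ≤ T) (R0 : 0 ≤ R) (N0 : 0 ≤ N)
    (hc : 64 * c ^ 3 * T ≤ z) (α f l : ℕ)
    (h : R * z ^ (α + f + l + 20) / 4 ≤ 2 * z ^ (α + f + 11) * c *
        (T * R * (c * z ^ (α + f + l + 21) * (1 / z ^ (α + f + 10)) +
          (c * z ^ (α + f + l + 21)) ^ 2 * (1 / z ^ (α + f + 10)) ^ 2)) / z ^ (l + 14) +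
      2 * z ^ (α + f + 11) * z ^ (l + 8) * R + 2 * z ^ (α + f + 11) * c * z ^ (l + 14) * N) :
    R ≤ z ^ 6 * N := by
  have c3 : c ≤ c ^ 3 := le_self_pow₀ c1 (by norm_num)
  have c4 : c ^ 3 ≤ c ^ 3 * T := le_mul_of_one_le_right (by positivity) T1
  have z64 : 64 * c ≤ z := by linarith
  have h1 : 1 ≤ z := by linarith
  have e1 : c * z ^ (α + f + l + 21) * (1 / z ^ (α + f + 10)) = c * z ^ (l + 11) := by
    field_simp
    ring
  have v1 : 1 ≤ c * z ^ (l + 11) := one_le_mul_of_one_le_of_one_le c1 (one_le_pow₀ h1)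
  rw [← mul_pow, e1] at h
  have a1 : 2 * z ^ (α + f + 11) * c * (T * R * (c * z ^ (l + 11) + (c * z ^ (l + 11)) ^ 2)) /
      z ^ (l + 14) ≤ R * z ^ (α + f + l + 20) / 16 := by
    calc _ ≤ 2 * z ^ (α + f + 11) * c * (T * R * (2 * (c * z ^ (l + 11)) ^ 2)) / z ^ (l + 14) := by
          gcongr
          nlinarith
      _ = R * (64 * c ^ 3 * T * z ^ (α + f + l + 19)) / 16 := by field_simp; ring
      _ ≤ _ := by gcongr; exact cz h1 hc le_rfl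
  have a2 : 2 * z ^ (α + f + 11) * z ^ (l + 8) * R ≤ R * z ^ (α + f + l + 20) / 16 :=
    calc _ = R * (32 * z ^ (α + f + l + 19)) / 16 := by ring
      _ ≤ _ := by gcongr; exact cz h1 (by linarith) le_rfl
  have a3 : 2 * z ^ (α + f + 11) * c * z ^ (l + 14) * N ≤
      z ^ 6 * N * z ^ (α + f + l + 20) / 8 :=
    calc _ = N * (16 * c * z ^ (α + f + l + 25)) / 8 := by ring
      _ ≤ N * z ^ (α + f + l + 25 + 1) / 8 := by gcongr; exact cz h1 (by linarith) le_rfl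
      _ = _ := by ring
  have p : 0 < z ^ (α + f + l + 20) := by positivity
  exact le_of_mul_le_mul_right (by linarith) p

lemma n10 {T R N τ ρ V : ℝ} (T1 : 1 ≤ T) (R0 : 0 < R) (hc : 2 * T < z) (a b : ℕ) (ρ0 : 0 ≤ ρ)
    (ρ1 : ρ ≤ 1) (τ0 : 0 ≤ τ) (τ1 : τ ≤ 1 / z) (V0 : 0 ≤ V) (V1 : V ≤ z ^ b) (h1 : R ≤ z ^ 6 * N)
    (h2 : N ≤ (z ^ a + 1) * V * (T * R * ρ * τ ^ (a + b + 7))) : False := by
  have z1 : 1 ≤ z := by linarith
  have a1 : 1 ≤ z ^ a := one_le_pow₀ z1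
  have a2 : N ≤ 2 * z ^ a * z ^ b * (T * R * 1 * (1 / z) ^ (a + b + 7)) :=
    h2.trans (by gcongr; linarith)
  have e : 2 * z ^ a * z ^ b * (T * R * 1 * (1 / z) ^ (a + b + 7)) = 2 * T * R / z ^ 7 := by
    rw [one_div_pow]
    field_simp
    ring
  rw [e, le_div_iff₀ (by positivity)] at a2
  have a3 : R * z ≤ z ^ 6 * N * z := by gcongr
  nlinarith

end NumP

end Pool.Agent.P.MP_0a88e3_nt.PL
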