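import Pool.Agent.P.MP_0a88e3_nt.PL.Rows

/-! One good row gives a base prime with the chain property. -/

namespace Pool.Agent.P.MP_0a88e3_nt.PL

open Finset

namespace RowP

/-- the primes, starting from index zero -/
noncomputable abbrev pr (n : ℕ) : ℕ := Nat.nth Nat.Prime n

/-- offsets of the primes around the prime `x` -/
noncomputable def uu (x : ℕ) (j : ℤ) : ℤ :=
  (pr (((Nat.count Nat.Prime x : ℕ) : ℤ) + j).toNat : ℤ) - x

/-- the chain property -/
def ChainP (u : ℤ → ℤ) (σ H : ℝ) (K I J : ℕ) : Prop :=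
  ∀ m : ℤ, 0 ≤ m → m ≤ K * I → (u m : ℝ) - σ * m ≤ 2 ^ K * H →
    ∃ i : ℤ, 1 ≤ i ∧ i ≤ I ∧ i ≤ J ∧ 0 ≤ (u (m + i) : ℝ) - σ * ((m + i : ℤ) : ℝ) ∧
      0 ≤ (u (m - i) : ℝ) - σ * ((m - i : ℤ) : ℝ) ∧ (u (m + i) : ℝ) + u (m - i) - 2 * u m ≤ H

/-- every prime of a range has a small symmetric sum -/
def Bad (lo hi H : ℝ) (I : ℕ) : Prop :=
  ∀ n : ℕ, lo ≤ pr n → (pr n : ℝ) ≤ hi → I ≤ n →
    ∃ i : ℕ, 1 ≤ i ∧ i ≤ I ∧ (pr (n - i) : ℝ) + pr (n + i) ≤ H + 2 * pr n

lemma inf : (setOf Nat.Prime).Infinite := Nat.infinite_setOf_prime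

lemma pr_mono : StrictMono pr := Nat.nth_strictMono inf

lemma count_cnt (x V : ℕ) :
    Nat.count Nat.Prime (x + V + 1) = Nat.count Nat.Prime (x + 1) + cnt x V := by
  induction V with
  | zero => simp [cnt]
  | succ V ih =>
    rw [show x + (V + 1) + 1 = (x + V + 1) + 1 by ring, Nat.count_succ, ih, cnt, cnt,
      ← insert_Icc_right_eq_Icc_add_one (by omega), filter_insert,
      show x + (V + 1) = x + V + 1 by ring]
    split_ifs with h
    · rw [card_insert_of_notMem (by simp), add_assoc]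
    · rfl

lemma lt_pr {x m : ℕ} (h : Nat.count Nat.Prime (x + 1) ≤ m) : x < pr m :=
  (Nat.count_le_iff_le_nth inf).1 h

lemma pr_le {x m : ℕ} (h : m < Nat.count Nat.Prime (x + 1)) : pr m ≤ x :=
  Nat.lt_succ_iff.1 (Nat.nth_lt_of_lt_count h)

lemma uu_eq (n m : ℕ) : uu (pr n) ((m : ℤ) - n) = (pr m : ℤ) - pr n := by
  rw [uu, Nat.count_nth_of_infinite inf, show (n : ℤ) + ((m : ℤ) - n) = m by ring, Int.toNat_natCast]

theorem row (hG : S_Geo) {x U C K I J : ℕ} {H Λ D Δ w G sm lo hi : ℝ} (hb : Bad lo hi H I)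
    (hlo : lo ≤ x) (hhi : (x : ℝ) + C * U + Δ + 2 ^ K * H ≤ hi) (hH : 0 < H) (hJ : 0 < J)
    (hD : 0 < D) (hC : 1 ≤ C) (hU : 0 < U) (hΔ : 0 ≤ Δ) (hΔU : Δ ≤ U) (hw : 0 ≤ w)
    (h1 : C * Δ + w * Λ ≤ U * D / Λ) (h2 : ((K + 1) * I + 1) * sm ≤ Δ)
    (h3 : 2 * U * C / D + w ≤ sm) (h4 : (2 ^ (K + 1) + 1) * H ≤ G)
    (h5 : (4 * Λ / J + 4) * (2 * G / J) ≤ w)
    (g1 : (cnt x (C * U) : ℝ) ≤ Λ) (g2 : D ≤ (C : ℝ) * cnt x U - cnt x (C * U)) :
    ∃ i t : ℕ, i * (2 * G / J) ≤ sm ∧ t ∈ Icc 1 (C * U) ∧ (x + t).Prime ∧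
      K * I ≤ Nat.count Nat.Prime (x + t) ∧ ChainP (uu (x + t)) (i * (2 * G / J)) H K I J := by
  set a := cnt x U with ha
  set c := cnt x (C * U) with hc
  set A := Nat.count Nat.Prime (x + 1) with hA
  have hac : a ≤ c := RowsP.cnt_mono x (Nat.le_mul_of_pos_left U hC)
  have hac' : (a : ℝ) ≤ c := by exact_mod_cast hac
  have C1 : (1 : ℝ) ≤ C := by exact_mod_cast hC
  have U0 : (0 : ℝ) < U := by exact_mod_cast hU
  have J0 : (0 : ℝ) < J := by exact_mod_cast hJ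
  have c0 : (0 : ℝ) ≤ c := Nat.cast_nonneg _
  have aD : D ≤ C * a := by linarith
  have a0 : (0 : ℝ) < a := by
    by_contra h
    have : (C : ℝ) * a ≤ 0 := mul_nonpos_of_nonneg_of_nonpos (by linarith) (not_lt.1 h)
    linarith
  have a1 : 1 ≤ a := by exact_mod_cast a0
  have Λ0 : 0 < Λ := by linarith
  have G0 : 0 < G := lt_of_lt_of_le (by positivity) h4
  obtain ⟨σ, hσ⟩ : ∃ σ : ℝ, σ = (U + Δ) / a := ⟨_, rfl⟩
  have s0 : 0 < σ := by rw [hσ]; positivity
  have s1 : σ * a = U + Δ := by rw [hσ]; field_simp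
  have s2 : σ ≤ 2 * U * C / D := by
    rw [le_div_iff₀ hD]
    nlinarith [mul_le_mul_of_nonneg_left aD s0.le]
  have s3 : U * D / Λ ≤ σ * D := by
    rw [div_le_iff₀ Λ0]
    have : σ * a ≤ σ * Λ := mul_le_mul_of_nonneg_left (by linarith) s0.le
    nlinarith [mul_le_mul_of_nonneg_right (show (U : ℝ) ≤ σ * Λ by linarith) hD.le]
  obtain ⟨i, n, i1, i2, n1, n2, hS⟩ := hG (fun m => (pr m : ℝ)) A a c ((K + 1) * I) x U (C * U) Δ σ
    w G J a1 hac (fun m hm => by exact_mod_cast lt_pr hm)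
    (by
      have := pr_le (x := x + U) (m := A + a - 1) (by rw [count_cnt]; omega)
      exact_mod_cast this)
    (fun m hm => by
      have := lt_pr (x := x + C * U) (m := m) (by rw [count_cnt]; omega)
      exact_mod_cast this) s0 G0 J0 s1.ge
    (by
      have b1 : σ * ((c : ℝ) - a) ≤ σ * ((C - 1) * a - D) :=
        mul_le_mul_of_nonneg_left (by linarith) s0.le
      have b2 : w * ((c : ℝ) - a) ≤ w * Λ := mul_le_mul_of_nonneg_left (by linarith) hw
      have b3 : σ * ((C - 1) * a - D) = (C - 1) * (U + Δ) - σ * D := by rw [← s1]; ring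
      nlinarith)
    (by
      refine le_trans ?_ h2
      push_cast
      exact mul_le_mul_of_nonneg_left (by linarith) (by positivity))
    (le_trans (by gcongr) h5)
  set s := (i : ℝ) * (2 * G / J) with hs
  have p1 : x < pr n := lt_pr (by omega)
  have p2 : pr n ≤ x + C * U := pr_le (by rw [count_cnt]; omega)
  have e : x + (pr n - x) = pr n := by omega
  have sm1 : s ≤ sm := by linarith
  have s4 : 0 ≤ s := by linarith
  have hKI : (K + 1) * I = K * I + I := by ring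
  refine ⟨i, pr n - x, sm1, mem_Icc.2 ⟨by omega, by omega⟩, ?_, ?_, ?_⟩
  · rw [e]; exact Nat.nth_mem_of_infinite inf n
  · rw [e, Nat.count_nth_of_infinite inf]; omega
  rw [e]
  intro m m0 m1 hm
  obtain ⟨k, rfl⟩ := Int.eq_ofNat_of_zero_le m0
  have k1 : k ≤ K * I := by exact_mod_cast m1
  have u0 : uu (pr n) (k : ℤ) = (pr (n + k) : ℤ) - pr n := by
    rw [← uu_eq]; congr 1; push_cast; ring
  rw [u0] at hm
  push_cast at hm
  have sk : s * k ≤ Δ := by
    refine le_trans ?_ h2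
    have : (k : ℝ) ≤ (K + 1) * I + 1 := by
      have : (k : ℝ) ≤ K * I := by exact_mod_cast k1
      nlinarith [Nat.cast_nonneg (α := ℝ) I]
    rw [mul_comm]
    exact mul_le_mul this sm1 s4 (by positivity)
  obtain ⟨j, j1, j2, hj⟩ := hb (n + k)
    (by
      have : pr n ≤ pr (n + k) := pr_mono.monotone (by omega)
      have : (x : ℝ) ≤ pr (n + k) := by exact_mod_cast (by omega : x ≤ pr (n + k))
      linarith)
    (by
      have : (pr n : ℝ) ≤ x + C * U := by exact_mod_cast p2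
      linarith) (by omega)
  have u1 : uu (pr n) ((k : ℤ) + j) = (pr (n + k + j) : ℤ) - pr n := by
    rw [← uu_eq]; congr 1; push_cast; ring
  have u2 : uu (pr n) ((k : ℤ) - j) = (pr (n + k - j) : ℤ) - pr n := by
    rw [← uu_eq]; congr 1; rw [Nat.cast_sub (by omega)]; push_cast; ring
  obtain ⟨q1, q2⟩ := hS (n + k + j) (by omega) (by omega)
  obtain ⟨q3, -⟩ := hS (n + k - j) (by omega) (by omega)
  rw [Nat.cast_sub (by omega)] at q3
  push_cast at q1 q2 q3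
  have q4 := q2 (by
    have : (2 : ℝ) ^ (K + 1) = 2 * 2 ^ K := by ring
    nlinarith)
  refine ⟨j, by exact_mod_cast j1, by exact_mod_cast j2, ?_, ?_, ?_, ?_⟩
  · have := (abs_le.1 q4).2
    have k0 : (0 : ℝ) ≤ k := Nat.cast_nonneg _
    have : (j : ℝ) ≤ J := by linarith
    exact_mod_cast this
  · rw [u1]; push_cast; nlinarith
  · rw [u2]; push_cast; nlinarith
  · rw [u0, u1, u2]; push_cast; linarith

end RowP

end Pool.Agent.P.MP_0a88e3_nt.PL
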