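import Pool.Agent.P.MP_0a88e3_nt.PL.Defs

/-! Counting the good rows. -/

namespace Pool.Agent.P.MP_0a88e3_nt.PL

open Finset

namespace RowsP

lemma cnt_mono (x : ℕ) {U V : ℕ} (h : U ≤ V) : cnt x U ≤ cnt x V :=
  card_le_card (filter_subset_filter _ (Icc_subset_Icc_right h))

open Classical in
lemma good_count (W : Finset ℕ) (a c : ℕ → ℕ) (l : ℕ → ℝ) {S C V Λ D T : ℝ}
    (hl : ∀ r ∈ W, 0 ≤ l r ∧ l r ≤ S) (hac : ∀ r ∈ W, a r ≤ c r) (hΛ : 0 < Λ) (hC : 0 ≤ C)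
    (hS : 0 ≤ S) (hD : 0 ≤ D) (h1 : T ≤ ∑ r ∈ W, l r * (C * a r - c r))
    (h2 : ∑ r ∈ W, (c r : ℝ) ^ 2 ≤ V) :
    T ≤ S * C * V / Λ + S * D * W.card +
      S * C * Λ * (W.filter fun r => (c r : ℝ) ≤ Λ ∧ D ≤ C * a r - c r).card := by
  refine h1.trans ?_
  have key : ∀ r ∈ W, l r * (C * a r - c r) ≤ S * C / Λ * (c r : ℝ) ^ 2 + S * D +
      S * C * Λ * (if (c r : ℝ) ≤ Λ ∧ D ≤ C * a r - c r then 1 else 0) := by
    intro r hr
    obtain ⟨l0, l1⟩ := hl r hr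
    have a1 : (a r : ℝ) ≤ c r := by exact_mod_cast hac r hr
    have a0 : (0 : ℝ) ≤ a r := Nat.cast_nonneg _
    have c0 : (0 : ℝ) ≤ c r := Nat.cast_nonneg _
    have b1 : l r * (C * a r - c r) ≤ S * (C * c r) :=
      calc l r * (C * a r - c r) ≤ l r * (C * c r) := by
            refine mul_le_mul_of_nonneg_left ?_ l0
            nlinarith
        _ ≤ _ := mul_le_mul_of_nonneg_right l1 (by positivity)
    have p1 : 0 ≤ S * C / Λ * (c r : ℝ) ^ 2 := by positivity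
    have p2 : 0 ≤ S * D := by positivity
    by_cases h : (c r : ℝ) ≤ Λ
    · by_cases h' : D ≤ C * a r - c r
      · rw [if_pos ⟨h, h'⟩]
        have : S * (C * c r) ≤ S * (C * Λ) := by gcongr
        nlinarith
      · rw [if_neg fun e => h' e.2]
        have : l r * (C * a r - c r) ≤ l r * D := mul_le_mul_of_nonneg_left (not_le.1 h').le l0
        have : l r * D ≤ S * D := by gcongr
        linarith
    · rw [if_neg fun e => h e.1]
      have h3 : (c r : ℝ) ≤ (c r : ℝ) ^ 2 / Λ := by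
        rw [le_div_iff₀ hΛ]
        nlinarith [not_le.1 h]
      have : S * (C * c r) ≤ S * (C * ((c r : ℝ) ^ 2 / Λ)) := by gcongr
      have e : S * (C * ((c r : ℝ) ^ 2 / Λ)) = S * C / Λ * (c r : ℝ) ^ 2 := by ring
      linarith
  refine (sum_le_sum key).trans ?_
  rw [sum_add_distrib, sum_add_distrib, ← mul_sum, ← mul_sum, ← mul_sum, sum_const, nsmul_eq_mul,
    sum_boole]
  have : S * C / Λ * ∑ r ∈ W, (c r : ℝ) ^ 2 ≤ S * C / Λ * V := by gcongr
  have e : S * C / Λ * V = S * C * V / Λ := by ring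
  linarith

open Classical in
lemma mom (W : Finset ℕ) (Q V y : ℕ) {B ρ : ℝ} (hB : 0 ≤ B) (hρ : 0 ≤ ρ) (hV : V ≤ y)
    (hs : ∀ Hs : Finset ℤ, Hs.card ≤ 2 → (∀ h ∈ Hs, ∀ h' ∈ Hs, |h - h'| ≤ y) →
      ((W.filter fun r : ℕ => ∀ h ∈ Hs, Prime ((r : ℤ) * Q + h)).card : ℝ) ≤ B * ρ ^ Hs.card) :
    ∑ r ∈ W, (cnt (r * Q) V : ℝ) ^ 2 ≤ B * (V * ρ + V ^ 2 * ρ ^ 2) := by
  have e : ∀ r : ℕ, (cnt (r * Q) V : ℝ) ^ 2 = ∑ t ∈ Icc 1 V, ∑ t' ∈ Icc 1 V,
      if (r * Q + t).Prime ∧ (r * Q + t').Prime then (1 : ℝ) else 0 := by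
    intro r
    rw [cnt, ← sum_boole, sq, sum_mul_sum]
    refine sum_congr rfl fun t _ => sum_congr rfl fun t' _ => ?_
    by_cases h : (r * Q + t).Prime <;> by_cases h' : (r * Q + t').Prime <;> simp [h, h']
  simp only [e]
  rw [sum_comm]
  have key : ∀ t ∈ Icc 1 V, ∀ t' ∈ Icc 1 V,
      (∑ r ∈ W, if (r * Q + t).Prime ∧ (r * Q + t').Prime then (1 : ℝ) else 0) ≤
        B * ρ ^ 2 + if t = t' then B * ρ else 0 := by
    intro t ht t' ht'
    rw [sum_boole]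
    rw [mem_Icc] at ht ht'
    have h1 := hs {(t : ℤ), (t' : ℤ)} card_le_two (by
      intro h hh h' hh'
      simp only [mem_insert, mem_singleton] at hh hh'
      rw [abs_le]
      rcases hh with rfl | rfl <;> rcases hh' with rfl | rfl <;> constructor <;> omega)
    have h2 : (W.filter fun r : ℕ => (r * Q + t).Prime ∧ (r * Q + t').Prime) ⊆
        W.filter fun r : ℕ => ∀ h ∈ ({(t : ℤ), (t' : ℤ)} : Finset ℤ), Prime ((r : ℤ) * Q + h) := by
      intro r hr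
      rw [mem_filter] at hr ⊢
      refine ⟨hr.1, fun h hh => ?_⟩
      simp only [mem_insert, mem_singleton] at hh
      rcases hh with rfl | rfl
      · exact_mod_cast Nat.prime_iff_prime_int.1 hr.2.1
      · exact_mod_cast Nat.prime_iff_prime_int.1 hr.2.2
    refine le_trans (by exact_mod_cast card_le_card h2) (h1.trans ?_)
    by_cases h : t = t'
    · subst h
      rw [if_pos rfl, pair_eq_singleton, card_singleton, pow_one]
      have : 0 ≤ B * ρ ^ 2 := by positivity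
      linarith
    · rw [if_neg h, card_pair (by exact_mod_cast h), add_zero]
  calc _ = ∑ t ∈ Icc 1 V, ∑ t' ∈ Icc 1 V, ∑ r ∈ W,
        if (r * Q + t).Prime ∧ (r * Q + t').Prime then (1 : ℝ) else 0 :=
        sum_congr rfl fun t _ => sum_comm
    _ ≤ ∑ t ∈ Icc 1 V, ∑ t' ∈ Icc 1 V, (B * ρ ^ 2 + if t = t' then B * ρ else 0) :=
        sum_le_sum fun t ht => sum_le_sum fun t' ht' => key t ht t' ht'
    _ = ∑ t ∈ Icc 1 V, (V * (B * ρ ^ 2) + B * ρ) := by
        refine sum_congr rfl fun t ht => ?_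
        rw [sum_add_distrib, sum_ite_eq, if_pos ht, sum_const, nsmul_eq_mul, Nat.card_Icc]
        simp
    _ = _ := by
        rw [sum_const, nsmul_eq_mul, Nat.card_Icc]
        simp only [add_tsub_cancel_right]
        ring

end RowsP

end Pool.Agent.P.MP_0a88e3_nt.PL
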